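import Mathlib

/-! Metric facts about simplicial trees. -/

set_option maxHeartbeats 4000000
set_option synthInstance.maxHeartbeats 400000

namespace Pool.Agent.H895R2.SB

variable {V : Type} {T : SimpleGraph V}

/-- a neighbour closer to a given vertex -/
theorem toward (hT : T.IsTree) {x y : V} (h : x ≠ y) :
    ∃ z, T.Adj x z ∧ T.dist z y + 1 = T.dist x y := by
  obtain ⟨p, hp⟩ := hT.connected.exists_walk_length_eq_dist x y
  cases p with
  | nil => exact absurd rfl h
  | cons hadj q =>
    rename_i z
    refine ⟨z, hadj, ?_⟩
    rw [SimpleGraph.Walk.length_cons] at hp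
    have h1 := T.dist_le q
    have h2 : T.dist x y ≤ T.dist x z + T.dist z y := hT.connected.dist_triangle
    have h3 : T.dist x z = 1 := SimpleGraph.dist_eq_one_iff_adj.2 hadj
    omega

theorem adj_dist (hT : T.IsTree) (x : V) {u v : V} (h : T.Adj u v) :
    T.dist x u = T.dist x v + 1 ∨ T.dist x v = T.dist x u + 1 :=
  hT.dist_eq_dist_add_one_of_adj x h

/-- the neighbour closer to a given vertex is unique -/
theorem unique_par (hT : T.IsTree) {x q u u' : V} (h1 : T.Adj q u) (h1' : T.Adj q u')
    (h : T.dist x u + 1 = T.dist x q) (h' : T.dist x u' + 1 = T.dist x q) : u = u' := by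
  obtain ⟨p, hp⟩ := hT.connected.exists_walk_length_eq_dist u x
  obtain ⟨p', hp'⟩ := hT.connected.exists_walk_length_eq_dist u' x
  have e : T.dist u x = T.dist x u := SimpleGraph.dist_comm
  have e' : T.dist u' x = T.dist x u' := SimpleGraph.dist_comm
  have e'' : T.dist q x = T.dist x q := SimpleGraph.dist_comm
  have k1 : (SimpleGraph.Walk.cons h1 p).IsPath :=
    SimpleGraph.Walk.isPath_of_length_eq_dist _ (by rw [SimpleGraph.Walk.length_cons]; omega)
  have k2 : (SimpleGraph.Walk.cons h1' p').IsPath :=
    SimpleGraph.Walk.isPath_of_length_eq_dist _ (by rw [SimpleGraph.Walk.length_cons]; omega)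
  have h3 := (hT.existsUnique_path q x).unique k1 k2
  have h4 := congrArg (fun w => w.snd) h3
  simpa using h4

/-- distances add up across an edge pointing away -/
theorem away (hT : T.IsTree) (x w : V) (n : ℕ) : ∀ z z' : V, T.Adj z z' →
    T.dist x z' = T.dist x z + 1 → T.dist z' w = n → T.dist z w = n + 1 →
    T.dist x w = T.dist x z' + n := by
  induction n with
  | zero =>
    intro z z' _ _ h3 _
    have : z' = w := (hT.connected.dist_eq_zero_iff).1 h3
    rw [this]; rfl
  | succ n ih =>
    intro z z' h1 h2 h3 h4
    have hne : z' ≠ w := by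
      intro h
      rw [h, SimpleGraph.dist_self] at h3
      omega
    obtain ⟨q, hq, hq'⟩ := toward hT hne
    rcases adj_dist hT x hq with h5 | h5
    · exfalso
      have h6 : z = q := unique_par hT (x := x) h1.symm hq (by omega) (by omega)
      rw [h6] at h4
      omega
    · rw [ih z' q hq h5 (by omega) (by omega), h5]
      omega

/-- four point condition -/
theorem four_point (hT : T.IsTree) (x y z w : V) : T.dist x y + T.dist z w ≤
    max (T.dist x z + T.dist y w) (T.dist x w + T.dist y z) := by
  generalize hn : T.dist z w = n
  induction n generalizing z with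
  | zero =>
    have : z = w := (hT.connected.dist_eq_zero_iff).1 hn
    subst this
    have h1 : T.dist x y ≤ T.dist x z + T.dist z y := hT.connected.dist_triangle
    have h2 : T.dist z y = T.dist y z := SimpleGraph.dist_comm
    exact le_max_of_le_left (by omega)
  | succ n ih =>
    have hne : z ≠ w := by
      intro h
      rw [h, SimpleGraph.dist_self] at hn
      omega
    obtain ⟨z', hz, hz'⟩ := toward hT hne
    have h1 := ih z' (by omega)
    rcases adj_dist hT x hz with h2 | h2
    · rcases adj_dist hT y hz with h3 | h3
      · rcases le_max_iff.1 h1 with h4 | h4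
        · exact le_max_of_le_left (by omega)
        · exact le_max_of_le_right (by omega)
      · have h5 := away hT y w n z z' hz h3 (by omega) hn
        have h6 : T.dist x y ≤ T.dist x z + T.dist z y := hT.connected.dist_triangle
        have h7 : T.dist z y = T.dist y z := SimpleGraph.dist_comm
        exact le_max_of_le_left (by omega)
    · have h5 := away hT x w n z z' hz h2 (by omega) hn
      have h6 : T.dist x y ≤ T.dist x z + T.dist z y := hT.connected.dist_triangle
      have h7 : T.dist z y = T.dist y z := SimpleGraph.dist_comm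
      exact le_max_of_le_right (by omega)

theorem dcomm (x y : V) : T.dist x y = T.dist y x := SimpleGraph.dist_comm

theorem tri (hT : T.IsTree) (x y z : V) : T.dist x z ≤ T.dist x y + T.dist y z :=
  hT.connected.dist_triangle

/-- points on a geodesic are determined by their distance to one end -/
theorem geo_unique (hT : T.IsTree) {x y p q : V} (h1 : T.dist x p + T.dist p y = T.dist x y)
    (h2 : T.dist x q + T.dist q y = T.dist x y) (h3 : T.dist x p = T.dist x q) : p = q := by
  have h := four_point hT x y p q
  have e1 := dcomm (T := T) y q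
  have e2 := dcomm (T := T) y p
  have h4 : T.dist p q = 0 := by
    rcases le_max_iff.1 h with h5 | h5 <;> omega
  exact (hT.connected.dist_eq_zero_iff).1 h4

/-- local geodesics are geodesics -/
theorem local_geo (hT : T.IsTree) {m : ℕ} (hm : 0 < m) (u : ℕ → V)
    (h1 : ∀ i, T.dist (u i) (u (i + 1)) = m) (h2 : ∀ i, T.dist (u i) (u (i + 2)) = 2 * m) (n : ℕ) :
    ∀ i, T.dist (u i) (u (i + n)) = n * m := by
  induction n using Nat.strong_induction_on with
  | _ n ih =>
    intro i
    rcases n with _ | _ | _ | n
    · simp
    · simpa using h1 i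
    · simpa using h2 i
    · have a1 := ih (n + 2) (by omega) i
      have a2 := ih (n + 2) (by omega) (i + 1)
      have a3 := ih (n + 1) (by omega) (i + 1)
      have a4 := h1 (i + (n + 2))
      have a5 := h1 i
      have e1 : i + 1 + (n + 2) = i + (n + 3) := by ring
      have e2 : i + 1 + (n + 1) = i + (n + 2) := by ring
      have e3 : i + (n + 2) + 1 = i + (n + 3) := by ring
      rw [e1] at a2
      rw [e2] at a3
      rw [e3] at a4
      have e4 : i + (n + 1 + 1 + 1) = i + (n + 3) := by ring
      rw [e4]
      -- four points `u i`, `u (i+1)`, `u (i+n+2)`, `u (i+n+3)`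
      have f1 := four_point hT (u i) (u (i + (n + 3))) (u (i + 1)) (u (i + (n + 2)))
      have f2 := four_point hT (u i) (u (i + (n + 2))) (u (i + 1)) (u (i + (n + 3)))
      have d1 := dcomm (T := T) (u (i + (n + 3))) (u (i + 1))
      have d2 := dcomm (T := T) (u (i + (n + 3))) (u (i + (n + 2)))
      have d3 := dcomm (T := T) (u (i + (n + 2))) (u (i + 1))
      have t := tri hT (u i) (u (i + (n + 2))) (u (i + (n + 3)))
      have k1 : (n + 2) * m = n * m + 2 * m := by ring
      have k2 : (n + 1) * m = n * m + m := by ring
      have k3 : (n + 1 + 1 + 1) * m = n * m + 3 * m := by ring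
      rw [k3]
      rw [k1] at a1 a2
      rw [k2] at a3
      rcases le_max_iff.1 f2 with f3 | f3 <;> omega

end Pool.Agent.H895R2.SB
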