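import Mathlib
import Pool.Agent.H895R2.SB.TrM

/-! Group actions on trees: hyperbolic elements, Serre's lemma, commuting elements. -/

set_option maxHeartbeats 4000000
set_option synthInstance.maxHeartbeats 400000

namespace Pool.Agent.H895R2.SB

variable {V : Type} {T : SimpleGraph V} {G : Type} [Group G] [MulAction G V]

theorem dist_smul_le (hT : T.IsTree) (hadj : ∀ (g : G) (u v : V), T.Adj u v → T.Adj (g • u) (g • v))
    (g : G) (x y : V) : T.dist (g • x) (g • y) ≤ T.dist x y := by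
  obtain ⟨p, hp⟩ := hT.connected.exists_walk_length_eq_dist x y
  let f : T →g T := ⟨fun v => g • v, fun {u v} h => hadj g u v h⟩
  have h1 := T.dist_le (p.map f)
  rw [SimpleGraph.Walk.length_map, hp] at h1
  exact h1

theorem ds (hT : T.IsTree) (hadj : ∀ (g : G) (u v : V), T.Adj u v → T.Adj (g • u) (g • v))
    (g : G) (x y : V) : T.dist (g • x) (g • y) = T.dist x y := by
  apply le_antisymm (dist_smul_le hT hadj g x y)
  have := dist_smul_le hT hadj g⁻¹ (g • x) (g • y)
  rwa [inv_smul_smul, inv_smul_smul] at this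

/-- an element without fixed vertices has a point on an axis -/
theorem exists_axis (hT : T.IsTree) (hadj : ∀ (g : G) (u v : V), T.Adj u v → T.Adj (g • u) (g • v))
    (hinv : ∀ (g : G) (u v : V), T.Adj u v → ¬ (g • u = v ∧ g • v = u)) (g : G)
    (hg : ¬ ∃ v : V, g • v = v) :
    ∃ x, 0 < T.dist x (g • x) ∧ T.dist x (g • g • x) = 2 * T.dist x (g • x) := by
  have hne : ∀ x : V, x ≠ g • x := fun x h => hg ⟨x, h.symm⟩
  obtain ⟨v₀⟩ := hT.connected.nonempty
  obtain ⟨x, hx⟩ : ∃ x : V, ∀ y : V, T.dist x (g • x) ≤ T.dist y (g • y) := by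
    let f : V → ℕ := fun y => T.dist y (g • y)
    have := WellFounded.min_mem (wellFounded_lt (α := ℕ)) (Set.range f) ⟨_, v₀, rfl⟩
    obtain ⟨x, hx⟩ := this
    refine ⟨x, fun y => ?_⟩
    have h2 := WellFounded.not_lt_min (wellFounded_lt (α := ℕ)) (Set.range f) (x := f y) ⟨y, rfl⟩
    rw [← hx] at h2
    exact not_lt.1 h2
  have hpos : 0 < T.dist x (g • x) := by
    rcases Nat.eq_zero_or_pos (T.dist x (g • x)) with h | h
    · exact absurd ((hT.connected.dist_eq_zero_iff).1 h) (hne x)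
    · exact h
  refine ⟨x, hpos, ?_⟩
  obtain ⟨x₁, h1, h2⟩ := toward hT (hne x)
  have h3 := hadj g _ _ h1
  have h4 := ds hT hadj g x₁ (g • x)
  have h5 := ds hT hadj g x (g • x)
  rcases adj_dist hT x h3 with h6 | h6
  · -- shorter displacement
    exfalso
    have h7 := hx x₁
    have f1 := four_point hT x₁ (g • x₁) x (g • x)
    have d1 : T.dist x₁ x = 1 := SimpleGraph.dist_eq_one_iff_adj.2 h1.symm
    have d2 : T.dist (g • x₁) (g • x) = 1 := SimpleGraph.dist_eq_one_iff_adj.2 h3.symm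
    have d3 := dcomm (T := T) (g • x₁) x
    rcases Nat.lt_or_ge 1 (T.dist x (g • x)) with h8 | h8
    · rcases le_max_iff.1 f1 with h9 | h9 <;> omega
    · have h9 : T.dist x (g • x₁) = 0 := by omega
      have h10 : T.dist x₁ (g • x) = 0 := by omega
      have e1 := (hT.connected.dist_eq_zero_iff).1 h9
      have e2 := (hT.connected.dist_eq_zero_iff).1 h10
      exact hinv g x x₁ h1 ⟨e2.symm, e1.symm⟩
  · have h7 := away hT x (g • g • x) (T.dist x₁ (g • x)) (g • x) (g • x₁) h3 h6 h4 (by rw [h5]; omega)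
    omega

/-- translates of an axis point -/
theorem axis_dist (hT : T.IsTree) (hadj : ∀ (g : G) (u v : V), T.Adj u v → T.Adj (g • u) (g • v))
    (g : G) (x : V) (hpos : 0 < T.dist x (g • x))
    (h2 : T.dist x (g • g • x) = 2 * T.dist x (g • x)) (n : ℕ) :
    T.dist x (g ^ n • x) = n * T.dist x (g • x) := by
  have h := local_geo hT hpos (fun i => g ^ i • x) ?_ ?_ n 0
  · simpa using h
  · intro i
    have : g ^ (i + 1) • x = g ^ i • g • x := by rw [pow_succ, mul_smul]
    rw [this, ds hT hadj]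
  · intro i
    have : g ^ (i + 2) • x = g ^ i • g • g • x := by rw [pow_add, pow_two, mul_smul, mul_smul]
    rw [this, ds hT hadj, h2]

/-- horofunction -/
theorem bus (hT : T.IsTree) (hadj : ∀ (g : G) (u v : V), T.Adj u v → T.Adj (g • u) (g • v))
    (g : G) (o : V) {m : ℕ} (hm : 0 < m) (hz : ∀ n : ℕ, T.dist o (g ^ n • o) = n * m) (x : V) :
    ∃ (c : ℤ) (N : ℕ), ∀ n : ℕ, N ≤ n → (T.dist x (g ^ n • o) : ℤ) = n * m + c := by
  have step : ∀ n : ℕ, T.dist x o < n → T.dist x (g ^ (n + 1) • o) = T.dist x (g ^ n • o) + m := by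
    intro n hn
    have hz1 := hz n
    have hz2 := hz (n + 1)
    have hz3 : T.dist (g ^ n • o) (g ^ (n + 1) • o) = m := by
      have : g ^ (n + 1) • o = g ^ n • g ^ 1 • o := by rw [pow_succ, mul_smul, pow_one]
      rw [this, ds hT hadj, hz 1, one_mul]
    have f1 := four_point hT x (g ^ (n + 1) • o) o (g ^ n • o)
    have f2 := four_point hT x (g ^ n • o) o (g ^ (n + 1) • o)
    have d1 := dcomm (T := T) (g ^ (n + 1) • o) (g ^ n • o)
    have d2 := dcomm (T := T) (g ^ (n + 1) • o) o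
    have d3 := dcomm (T := T) (g ^ n • o) o
    have t := tri hT o x (g ^ n • o)
    have d4 := dcomm (T := T) o x
    have k1 : (n + 1) * m = n * m + m := by ring
    have k2 : n ≤ n * m := Nat.le_mul_of_pos_right n hm
    rw [k1] at hz2
    rcases le_max_iff.1 f1 with h1 | h1 <;> rcases le_max_iff.1 f2 with h3 | h3 <;> omega
  refine ⟨(T.dist x (g ^ (T.dist x o + 1) • o) : ℤ) - ((T.dist x o + 1 : ℕ) : ℤ) * m,
    T.dist x o + 1, fun n hn => ?_⟩
  induction n, hn using Nat.le_induction with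
  | base => ring
  | succ n hn ih =>
    rw [step n (by omega)]
    push_cast at ih ⊢
    rw [ih]
    ring

/-- commutators of elements commuting with `g` preserve the horofunction of `g` -/
theorem bus_comm (hT : T.IsTree) (hadj : ∀ (g : G) (u v : V), T.Adj u v → T.Adj (g • u) (g • v))
    (g : G) (o : V) {m : ℕ} (hm : 0 < m) (hz : ∀ n : ℕ, T.dist o (g ^ n • o) = n * m) (p q : G)
    (hp : p * g = g * p) (hq : q * g = g * q) :
    ∃ N : ℕ, ∀ n : ℕ, N ≤ n → T.dist ((p * q * p⁻¹ * q⁻¹) • o) (g ^ n • o) = n * m := by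
  have hb := fun x => bus hT hadj g o hm hz x
  choose β N hβ using hb
  have hD : ∀ (b : G), b * g = g * b → ∀ n : ℕ, T.dist (g ^ n • o) (b⁻¹ • g ^ n • o) = T.dist (b • o) o := by
    intro b hb n
    have h1 : b * g ^ n = g ^ n * b := (Commute.pow_right (show Commute b g from hb) n)
    have h2 := ds hT hadj b (g ^ n • o) (b⁻¹ • g ^ n • o)
    rw [smul_inv_smul, ← mul_smul, h1, mul_smul, ds hT hadj] at h2
    exact h2.symm
  have hc : ∀ (b : G), b * g = g * b → ∀ x x' : V, β (b • x) - β x = β (b • x') - β x' := by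
    intro b hb x x'
    set n := max (max (N x) (N x')) (max (N (b • x)) (N (b • x'))) + T.dist x x' + T.dist (b • o) o +
      T.dist x o + T.dist x' o + T.dist (b • x) o + T.dist (b • x') o + 1 with hn
    have e1 := hβ x n (by omega)
    have e2 := hβ x' n (by omega)
    have e3 := hβ (b • x) n (by omega)
    have e4 := hβ (b • x') n (by omega)
    have s1 : T.dist x (b⁻¹ • g ^ n • o) = T.dist (b • x) (g ^ n • o) := by
      rw [← ds hT hadj b x, smul_inv_smul]
    have s2 : T.dist x' (b⁻¹ • g ^ n • o) = T.dist (b • x') (g ^ n • o) := by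
      rw [← ds hT hadj b x', smul_inv_smul]
    have s3 := hD b hb n
    have f1 := four_point hT x (g ^ n • o) x' (b⁻¹ • g ^ n • o)
    have f2 := four_point hT x (b⁻¹ • g ^ n • o) x' (g ^ n • o)
    have t1 := tri hT o x (g ^ n • o)
    have t2 := tri hT o x' (g ^ n • o)
    have t3 := tri hT o (b • x) (g ^ n • o)
    have t4 := tri hT o (b • x') (g ^ n • o)
    have d1 := dcomm (T := T) o x
    have d2 := dcomm (T := T) o x'
    have d3 := dcomm (T := T) o (b • x)
    have d4 := dcomm (T := T) o (b • x')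
    have d5 := dcomm (T := T) (b⁻¹ • g ^ n • o) (g ^ n • o)
    have d6 := dcomm (T := T) (b⁻¹ • g ^ n • o) x'
    have d7 := dcomm (T := T) (g ^ n • o) x'
    have hzn := hz n
    have k2 : n ≤ n * m := Nat.le_mul_of_pos_right n hm
    have key : T.dist (b • x) (g ^ n • o) + T.dist x' (g ^ n • o) =
        T.dist x (g ^ n • o) + T.dist (b • x') (g ^ n • o) := by
      rcases le_max_iff.1 f1 with h1 | h1 <;> rcases le_max_iff.1 f2 with h3 | h3 <;> omega
    have key' : (T.dist (b • x) (g ^ n • o) : ℤ) + T.dist x' (g ^ n • o) =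
        T.dist x (g ^ n • o) + T.dist (b • x') (g ^ n • o) := by exact_mod_cast key
    rw [e1, e2, e3, e4] at key'
    linarith
  have hinv : ∀ b : G, b * g = g * b → b⁻¹ * g = g * b⁻¹ := fun b hb =>
    (Commute.inv_left (show Commute b g from hb))
  have h0 : β o = 0 := by
    have h1 := hβ o (N o) (le_refl _)
    rw [hz] at h1
    push_cast at h1
    linarith
  have h1 : β ((p * q * p⁻¹ * q⁻¹) • o) = β o := by
    have e1 := hc p hp (q • p⁻¹ • q⁻¹ • o) (p⁻¹ • o)
    have e2 := hc q hq (p⁻¹ • q⁻¹ • o) (q⁻¹ • o)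
    have e3 := hc p⁻¹ (hinv p hp) (q⁻¹ • o) o
    rw [smul_inv_smul] at e1 e2
    rw [mul_smul, mul_smul, mul_smul]
    linarith
  refine ⟨N ((p * q * p⁻¹ * q⁻¹) • o), fun n hn => ?_⟩
  have h2 := hβ ((p * q * p⁻¹ * q⁻¹) • o) n hn
  rw [h1, h0, add_zero] at h2
  exact_mod_cast h2

/-- commutators of elements commuting with a hyperbolic element fix a common edge -/
theorem hyp_comm (hT : T.IsTree) (hadj : ∀ (g : G) (u v : V), T.Adj u v → T.Adj (g • u) (g • v))
    (hinv : ∀ (g : G) (u v : V), T.Adj u v → ¬ (g • u = v ∧ g • v = u)) (g : G)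
    (hg : ¬ ∃ v : V, g • v = v) :
    ∃ u v : V, T.Adj u v ∧ ∀ p q : G, p * g = g * p → q * g = g * q →
      (p * q * p⁻¹ * q⁻¹) • u = u ∧ (p * q * p⁻¹ * q⁻¹) • v = v := by
  obtain ⟨o, hpos, h2⟩ := exists_axis hT hadj hinv g hg
  set m := T.dist o (g • o) with hm
  have hz := axis_dist hT hadj g o hpos h2
  rw [← hm] at hz
  have hz' : ∀ n : ℕ, T.dist o (g⁻¹ ^ n • o) = n * m := by
    intro n
    have := ds hT hadj (g ^ n) o (g⁻¹ ^ n • o)
    rw [← mul_smul, inv_pow, mul_inv_cancel, one_smul] at this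
    rw [inv_pow, ← this, dcomm, hz]
  have hne : o ≠ g • o := by
    intro h
    have : T.dist o (g • o) = 0 := by rw [← h]; exact SimpleGraph.dist_self
    omega
  obtain ⟨v, hv, hv'⟩ := toward hT hne
  refine ⟨o, v, hv, fun p q hp hq => ?_⟩
  obtain ⟨N₁, h3⟩ := bus_comm hT hadj g o hpos hz p q hp hq
  have hip : p * g⁻¹ = g⁻¹ * p := (Commute.inv_right (show Commute p g from hp))
  have hiq : q * g⁻¹ = g⁻¹ * q := (Commute.inv_right (show Commute q g from hq))
  obtain ⟨N₂, h4⟩ := bus_comm hT hadj g⁻¹ o hpos hz' p q hip hiq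
  set k := p * q * p⁻¹ * q⁻¹ with hk
  have hkg : k * g = g * k := by
    have c1 : Commute p g := hp
    have c2 : Commute q g := hq
    exact ((c1.mul_left c2).mul_left c1.inv_left).mul_left c2.inv_left
  have hko : k • o = o := by
    set n := max N₁ N₂ with hn
    have e1 := h3 n (by omega)
    have e2 := h4 n (by omega)
    have e3 : T.dist (g⁻¹ ^ n • o) (g ^ n • o) = 2 * n * m := by
      have h5 := ds hT hadj (g ^ n) (g⁻¹ ^ n • o) (g ^ n • o)
      rw [← mul_smul, inv_pow, mul_inv_cancel, one_smul, ← mul_smul, ← pow_add, hz] at h5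
      rw [inv_pow, ← h5]; ring
    have e4 := hz n
    have e5 := hz' n
    have d1 := dcomm (T := T) (g⁻¹ ^ n • o) o
    have d2 := dcomm (T := T) (g⁻¹ ^ n • o) (k • o)
    have e6 : 2 * n * m = n * m + n * m := by ring
    exact geo_unique hT (x := g⁻¹ ^ n • o) (y := g ^ n • o) (by omega) (by omega) (by omega)
  refine ⟨hko, ?_⟩
  have h5 := hadj k _ _ hv
  rw [hko] at h5
  have h6 : k • g • o = g • o := by rw [← mul_smul, hkg, mul_smul, hko]
  have h7 := ds hT hadj k v (g • o)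
  rw [h6] at h7
  have d1 := dcomm (T := T) v (g • o)
  have d2 := dcomm (T := T) (k • v) (g • o)
  have d3 := dcomm (T := T) o (g • o)
  exact (unique_par hT (x := g • o) hv h5 (by omega) (by omega)).symm

/-- reflecting in a fixed point -/
theorem refl_dist (hT : T.IsTree) (hadj : ∀ (g : G) (u v : V), T.Adj u v → T.Adj (g • u) (g • v))
    {g : G} {x y x₁ : V} (hx : g • x = x) (h1 : T.Adj x x₁) (h2 : T.dist x₁ y + 1 = T.dist x y)
    (h3 : g • x₁ ≠ x₁) : T.dist y (g • y) = 2 * T.dist x y := by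
  have h4 := hadj g _ _ h1
  rw [hx] at h4
  have e1 := ds hT hadj g x₁ y
  have e2 := ds hT hadj g x y
  rw [hx] at e2
  have d1 := dcomm (T := T) (g • x₁) (g • y)
  have d2 := dcomm (T := T) x (g • y)
  have d3 := dcomm (T := T) x₁ (g • y)
  have d4 := dcomm (T := T) y (g • y)
  rcases adj_dist hT (g • y) h1 with h5 | h5
  · exact absurd (unique_par hT (x := g • y) h1 h4 (by omega) (by omega)).symm h3
  · have h6 := away hT (g • y) y (T.dist x₁ y) x x₁ h1 h5 rfl h2.symm
    omega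

theorem exists_min_pair {P Q : V → Prop} (hP : ∃ x, P x) (hQ : ∃ y, Q y) :
    ∃ x y, P x ∧ Q y ∧ ∀ x' y', P x' → Q y' → T.dist x y ≤ T.dist x' y' := by
  let S : Set ℕ := {n | ∃ x y, P x ∧ Q y ∧ n = T.dist x y}
  obtain ⟨x, hx⟩ := hP
  obtain ⟨y, hy⟩ := hQ
  have hne : S.Nonempty := ⟨_, x, y, hx, hy, rfl⟩
  obtain ⟨x', y', h1, h2, h3⟩ := WellFounded.min_mem (wellFounded_lt (α := ℕ)) S hne
  refine ⟨x', y', h1, h2, fun x'' y'' h4 h5 => ?_⟩
  have := WellFounded.not_lt_min (wellFounded_lt (α := ℕ)) S (x := T.dist x'' y'') ⟨x'', y'', h4, h5, rfl⟩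
  rw [h3] at this
  exact not_lt.1 this

/-- Serre's lemma -/
theorem serre (hT : T.IsTree) (hadj : ∀ (g : G) (u v : V), T.Adj u v → T.Adj (g • u) (g • v))
    {g h : G} (hg : ∃ x : V, g • x = x) (hh : ∃ y : V, h • y = y) (hgh : ∃ p : V, (g * h) • p = p) :
    ∃ x : V, g • x = x ∧ h • x = x := by
  obtain ⟨x, y, hx, hy, hmin⟩ := exists_min_pair (T := T) hg hh
  by_cases hxy : x = y
  · exact ⟨x, hx, by rw [hxy]; exact hy⟩
  exfalso
  obtain ⟨x₁, h1, h2⟩ := toward hT hxy
  obtain ⟨y₁, h3, h4⟩ := toward hT (Ne.symm hxy)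
  have hx₁ : g • x₁ ≠ x₁ := fun h5 => by
    have := hmin x₁ y h5 hy
    omega
  have hy₁ : h • y₁ ≠ y₁ := fun h5 => by
    have := hmin x y₁ hx h5
    have d1 := dcomm (T := T) x y₁
    have d2 := dcomm (T := T) x y
    omega
  have r1 := refl_dist hT hadj hx h1 h2 hx₁
  have r2 := refl_dist hT hadj hy h3 h4 hy₁
  have dxy := dcomm (T := T) x y
  set δ := T.dist x y with hδ
  have hδ0 : 0 < δ := by omega
  let u : ℕ → V := fun i => if i % 2 = 0 then (g * h) ^ (i / 2) • h⁻¹ • x else (g * h) ^ (i / 2) • y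
  have hu0 : ∀ k, u (2 * k) = (g * h) ^ k • h⁻¹ • x := by
    intro k
    have e1 : 2 * k % 2 = 0 := by omega
    have e2 : 2 * k / 2 = k := by omega
    simp only [u, e1, e2, if_true]
  have hu1 : ∀ k, u (2 * k + 1) = (g * h) ^ k • y := by
    intro k
    have e1 : (2 * k + 1) % 2 = 1 := by omega
    have e2 : (2 * k + 1) / 2 = k := by omega
    simp [u, e1, e2]
  have hinvx : g • h • h⁻¹ • x = x := by rw [smul_inv_smul, hx]
  have hL1 : ∀ i, T.dist (u i) (u (i + 1)) = δ := by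
    intro i
    rcases Nat.even_or_odd' i with ⟨k, rfl | rfl⟩
    · rw [hu0, hu1, ds hT hadj]
      have := ds hT hadj h (h⁻¹ • x) y
      rw [smul_inv_smul, hy] at this
      exact this.symm
    · have e : 2 * k + 1 + 1 = 2 * (k + 1) := by ring
      rw [hu1, e, hu0, pow_succ, mul_smul, ds hT hadj, mul_smul, hinvx]
      omega
  have hL2 : ∀ i, T.dist (u i) (u (i + 2)) = 2 * δ := by
    intro i
    rcases Nat.even_or_odd' i with ⟨k, rfl | rfl⟩
    · have e : 2 * k + 2 = 2 * (k + 1) := by ring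
      rw [hu0, e, hu0, pow_succ, mul_smul, ds hT hadj, mul_smul, hinvx]
      have := ds hT hadj h (h⁻¹ • x) x
      rw [smul_inv_smul] at this
      omega
    · have e : 2 * k + 1 + 2 = 2 * (k + 1) + 1 := by ring
      rw [hu1, e, hu1, pow_succ, mul_smul, ds hT hadj, mul_smul, hy]
      omega
  obtain ⟨p, hp⟩ := hgh
  set D := T.dist (h⁻¹ • x) p with hD
  have h5 := local_geo hT hδ0 u hL1 hL2 (2 * (D + 1)) 0
  rw [zero_add, hu0] at h5
  have h6 := hu0 0
  simp only [mul_zero, pow_zero, one_smul] at h6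
  rw [h6] at h5
  have hpow : (g * h) ^ (D + 1) • p = p := by
    generalize D + 1 = n
    induction n with
    | zero => simp
    | succ n ih => rw [pow_succ, mul_smul, hp, ih]
  have h7 := ds hT hadj ((g * h) ^ (D + 1)) (h⁻¹ • x) p
  rw [hpow] at h7
  have h8 := tri hT (h⁻¹ • x) p ((g * h) ^ (D + 1) • h⁻¹ • x)
  have d1 := dcomm (T := T) p ((g * h) ^ (D + 1) • h⁻¹ • x)
  have h9 : 2 * (D + 1) ≤ 2 * (D + 1) * δ := Nat.le_mul_of_pos_right _ hδ0
  omega

/-- two commuting sets of elements, each with a common fixed vertex, have a common fixed vertex -/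
theorem comm_fix (hT : T.IsTree) (hadj : ∀ (g : G) (u v : V), T.Adj u v → T.Adj (g • u) (g • v))
    (A B : Set G) (hAB : ∀ a ∈ A, ∀ b ∈ B, a * b = b * a) (hA : ∃ x : V, ∀ a ∈ A, a • x = x)
    (hB : ∃ y : V, ∀ b ∈ B, b • y = y) : ∃ x : V, (∀ a ∈ A, a • x = x) ∧ ∀ b ∈ B, b • x = x := by
  obtain ⟨x, y, hx, hy, hmin⟩ := exists_min_pair (T := T) hA hB
  by_cases hxy : x = y
  · exact ⟨x, hx, by rw [hxy]; exact hy⟩
  exfalso
  obtain ⟨x₁, h1, h2⟩ := toward hT hxy
  obtain ⟨y₁, h3, h4⟩ := toward hT (Ne.symm hxy)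
  obtain ⟨a, ha, hx₁⟩ : ∃ a ∈ A, a • x₁ ≠ x₁ := by
    by_contra hc
    push Not at hc
    have := hmin x₁ y hc hy
    omega
  obtain ⟨b, hb, hy₁⟩ : ∃ b ∈ B, b • y₁ ≠ y₁ := by
    by_contra hc
    push Not at hc
    have := hmin x y₁ hx hc
    have d1 := dcomm (T := T) x y₁
    have d2 := dcomm (T := T) x y
    omega
  have r1 := refl_dist hT hadj (hx a ha) h1 h2 hx₁
  have hby := hy b hb
  have hbay : b • a • y = a • y := by rw [← mul_smul, ← hAB a ha b hb, mul_smul, hby]
  have h5 := hadj b _ _ h3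
  rw [hby] at h5
  have h6 := ds hT hadj b y₁ (a • y)
  rw [hbay] at h6
  have h7 := ds hT hadj a x y
  rw [hx a ha] at h7
  have t1 := tri hT y₁ x (a • y)
  have t2 := tri hT y y₁ (a • y)
  have d0 : T.dist y y₁ = 1 := SimpleGraph.dist_eq_one_iff_adj.2 h3
  have d1 := dcomm (T := T) y x
  have d2 := dcomm (T := T) y₁ (a • y)
  have d3 := dcomm (T := T) (b • y₁) (a • y)
  have d4 := dcomm (T := T) y (a • y)
  exact hy₁ (unique_par hT (x := a • y) h3 h5 (by omega) (by omega)).symm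

end Pool.Agent.H895R2.SB
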