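import Mathlib
import Pool.Agent.Helper376.CL.Wrap

/-! Abstract factor: a space `T` with a group action, compactified on one side by the space `X`
(all ends but one are added), with a height coordinate `a`. -/

set_option maxHeartbeats 4000000
set_option synthInstance.maxHeartbeats 400000

namespace Pool.Agent.H895R2.SB

open Set Topology Filter
open Pool.Agent.Helper376.CL

/-- Data and properties of a factor. -/
structure Fac (G : Type) [Group G] (T : Type) [TopologicalSpace T] [MulAction G T]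
    (X : Type) [TopologicalSpace X] where
  a : X → ℝ
  ρ : X → ℝ
  κ : X → ℝ
  up : X → ℝ → X
  x₀ : X
  j : T → X
  a_cont : Continuous a
  ρ_cont : Continuous ρ
  κ_cont : Continuous κ
  up_cont : Continuous (fun q : X × ℝ => up q.1 q.2)
  a_nonneg : ∀ x, 0 ≤ a x
  a_le : ∀ x, a x ≤ ρ x
  one_le : ∀ x, 1 ≤ ρ x
  a_x₀ : a x₀ = 1
  ρ_x₀ : ρ x₀ = 1
  a_up : ∀ x t, a (up x t) = max (a x) t
  ρ_up : ∀ x t, ρ (up x t) = max (ρ x) t
  up_id : ∀ x t, t ≤ a x → up x t = x
  up_base : ∀ x t, ρ x ≤ t → up x t = up x₀ t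
  t2 : T2Space X
  proper : ∀ N : ℝ, IsCompact {x | ρ x ≤ N}
  inj : ∀ x y, a x = a y → κ x = κ y → x = y
  j_emb : IsOpenEmbedding j
  j_range : range j = {x | 0 < a x}
  ae : IsAE T
  smul_cont : ∀ g : G, Continuous (fun t : T => g • t)
  cov : ∀ y : T, ∃ U : Set T, IsOpen U ∧ y ∈ U ∧
    ∀ g : G, g ≠ 1 → Disjoint ((fun y => g • y) '' U) U
  K₀ : Set T
  K₀_comp : IsCompact K₀
  coc : ∀ y : T, ∃ g : G, g • y ∈ K₀
  null : ∀ {ι : Type} (𝓤 : Ultrafilter ι) (K : Set T) (g : ι → G) (p q : ι → T) (x : X),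
    IsCompact K → (∀ i, p i ∈ K) → (∀ i, q i ∈ K) → a x = 0 →
    Tendsto (fun i => j (g i • p i)) 𝓤 (𝓝 x) →
    Tendsto (fun i => j (g i • q i)) 𝓤 (𝓝 x) ∧
    Tendsto (fun i => Real.log (a (j (g i • q i))) - Real.log (a (j (g i • p i)))) 𝓤 (𝓝 0)
  prop : ∀ {ι : Type} (𝓤 : Ultrafilter ι) (K : Set T) (g : ι → G) (p : ι → T) (t : T),
    IsCompact K → (∀ i, p i ∈ K) → Tendsto (fun i => g i • p i) 𝓤 (𝓝 t) →
    ∃ F : Set G, F.Finite ∧ ∀ᶠ i in 𝓤, g i ∈ F

section

variable {G₁ G₂ T₁ T₂ X₁ X₂ : Type} [Group G₁] [Group G₂] [TopologicalSpace T₁]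
  [TopologicalSpace T₂] [MulAction G₁ T₁] [MulAction G₂ T₂] [TopologicalSpace X₁]
  [TopologicalSpace X₂] (F₁ : Fac G₁ T₁ X₁) (F₂ : Fac G₂ T₂ X₂)

/-- the product, glued along the equation `a x = e^σ a y` -/
def Wt : Type := {w : X₁ × X₂ × ℝ // F₁.a w.1 = Real.exp w.2.2 * F₂.a w.2.1}

instance : TopologicalSpace (Wt F₁ F₂) := inferInstanceAs
  (TopologicalSpace {w : X₁ × X₂ × ℝ // F₁.a w.1 = Real.exp w.2.2 * F₂.a w.2.1})

variable {F₁ F₂}

namespace Wt

/-- first coordinate -/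
def x (w : Wt F₁ F₂) : X₁ := w.1.1
/-- second coordinate -/
def y (w : Wt F₁ F₂) : X₂ := w.1.2.1
/-- slope -/
def s (w : Wt F₁ F₂) : ℝ := w.1.2.2

theorem eq (w : Wt F₁ F₂) : F₁.a w.x = Real.exp w.s * F₂.a w.y := w.2

theorem x_cont : Continuous (x : Wt F₁ F₂ → X₁) := continuous_fst.comp continuous_subtype_val
theorem y_cont : Continuous (y : Wt F₁ F₂ → X₂) :=
  (continuous_fst.comp continuous_snd).comp continuous_subtype_val
theorem s_cont : Continuous (s : Wt F₁ F₂ → ℝ) :=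
  (continuous_snd.comp continuous_snd).comp continuous_subtype_val

theorem ext' {w w' : Wt F₁ F₂} (hx : w.x = w'.x) (hy : w.y = w'.y) (hs : w.s = w'.s) : w = w' :=
  Subtype.ext (Prod.ext hx (Prod.ext hy hs))

/-- size -/
noncomputable def P (w : Wt F₁ F₂) : ℝ := max (max (F₁.ρ w.x) (F₂.ρ w.y)) |w.s|

theorem P_cont : Continuous (P : Wt F₁ F₂ → ℝ) :=
  ((F₁.ρ_cont.comp x_cont).max (F₂.ρ_cont.comp y_cont)).max s_cont.abs

theorem closed_emb : IsClosedEmbedding (fun w : Wt F₁ F₂ => (w.1 : X₁ × X₂ × ℝ)) := by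
  apply IsClosed.isClosedEmbedding_subtypeVal
  exact isClosed_eq (F₁.a_cont.comp continuous_fst)
    ((Real.continuous_exp.comp (continuous_snd.comp continuous_snd)).mul
      (F₂.a_cont.comp (continuous_fst.comp continuous_snd)))

theorem compact_P (N : ℝ) : IsCompact {w : Wt F₁ F₂ | w.P ≤ N} := by
  have h1 : IsCompact ({x | F₁.ρ x ≤ N} ×ˢ ({y | F₂.ρ y ≤ N} ×ˢ Icc (-N) N) : Set (X₁ × X₂ × ℝ)) :=
    (F₁.proper N).prod ((F₂.proper N).prod isCompact_Icc)
  have h2 := closed_emb (F₁ := F₁) (F₂ := F₂) |>.isCompact_preimage h1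
  refine h2.of_isClosed_subset (isClosed_le P_cont continuous_const) ?_
  intro w hw
  have h3 : max (max (F₁.ρ w.x) (F₂.ρ w.y)) |w.s| ≤ N := hw
  obtain ⟨h4, h5⟩ := max_le_iff.1 h3
  obtain ⟨h6, h7⟩ := max_le_iff.1 h4
  exact ⟨h6, h7, abs_le.1 h5⟩

instance : T2Space (Wt F₁ F₂) := by
  have := F₁.t2
  have := F₂.t2
  exact closed_emb.isEmbedding.t2Space

instance : WeaklyLocallyCompactSpace (Wt F₁ F₂) := by
  refine ⟨fun w => ⟨{w' | w'.P ≤ w.P + 1}, compact_P _, ?_⟩⟩
  have h : {w' : Wt F₁ F₂ | w'.P < w.P + 1} ∈ 𝓝 w :=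
    (isOpen_lt P_cont continuous_const).mem_nhds (by simp)
  exact mem_of_superset h fun w' (hw' : w'.P < w.P + 1) => le_of_lt hw'

theorem one_le_P (w : Wt F₁ F₂) : 1 ≤ w.P :=
  (F₁.one_le w.x).trans ((le_max_left _ _).trans (le_max_left _ _))

/-- reciprocal size, extended by `0` at infinity -/
noncomputable def q (z : OnePoint (Wt F₁ F₂)) : ℝ := z.elim 0 (fun w => 1 / w.P)

@[simp] theorem q_infty : q (OnePoint.infty : OnePoint (Wt F₁ F₂)) = 0 := rfl
@[simp] theorem q_coe (w : Wt F₁ F₂) : q (w : OnePoint (Wt F₁ F₂)) = 1 / w.P := rfl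

theorem q_nonneg (z : OnePoint (Wt F₁ F₂)) : 0 ≤ q z := by
  induction z using OnePoint.rec with
  | infty => simp
  | coe w => rw [q_coe]; have := one_le_P w; positivity

theorem q_cont : Continuous (q : OnePoint (Wt F₁ F₂) → ℝ) := by
  rw [OnePoint.continuous_iff]
  constructor
  · simp only [q_infty, q_coe]
    rw [Metric.tendsto_nhds]
    intro ε hε
    have hc := compact_P (F₁ := F₁) (F₂ := F₂) (1 / ε)
    have : {w : Wt F₁ F₂ | w.P ≤ 1 / ε}ᶜ ∈ coclosedCompact (Wt F₁ F₂) :=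
      hc.compl_mem_coclosedCompact_of_isClosed hc.isClosed
    filter_upwards [this] with w hw
    have h1 : 1 / ε < w.P := not_le.1 hw
    have h2 := one_le_P w
    rw [Real.dist_eq, sub_zero, abs_of_pos (by positivity)]
    rw [div_lt_iff₀ (by linarith)]
    rw [div_lt_iff₀ hε] at h1
    linarith
  · simp only [q_coe]
    exact continuous_const.div P_cont fun w => by have := one_le_P w; positivity

/-- neighbourhoods of infinity -/
theorem tendsto_infty {ι : Type} {l : Filter ι} {f : ι → OnePoint (Wt F₁ F₂)}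
    (h : Tendsto (fun i => q (f i)) l (𝓝 0)) :
    Tendsto f l (𝓝 OnePoint.infty) := by
  rw [Tendsto, OnePoint.le_nhds_infty]
  intro s hs hs'
  obtain ⟨N, hN⟩ := (hs'.image P_cont).bddAbove
  have hN' : ∀ w ∈ s, w.P ≤ max N 1 := fun w hw => (hN ⟨w, hw, rfl⟩).trans (le_max_left _ _)
  have hpos : 0 < max N 1 := lt_of_lt_of_le one_pos (le_max_right _ _)
  have h1 : ∀ᶠ i in l, q (f i) < 1 / max N 1 := h.eventually_lt_const (by positivity)
  rw [Filter.mem_map]
  filter_upwards [h1] with i hi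
  rw [mem_preimage]
  generalize f i = z at hi ⊢
  induction z using OnePoint.rec with
  | infty => right; rfl
  | coe w =>
    left
    refine ⟨w, fun hw => ?_, rfl⟩
    rw [q_coe] at hi
    have h2 := one_le_P w
    have h3 := hN' w hw
    have h4 : 1 / max N 1 ≤ 1 / w.P := one_div_le_one_div_of_le (by linarith) h3
    linarith

end Wt

/-- clamp -/
noncomputable def fc (t : ℝ) : ℝ := max 0 (min 1 t)

theorem fc_cont : Continuous fc := continuous_const.max (continuous_const.min continuous_id)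
theorem fc_nonneg (t : ℝ) : 0 ≤ fc t := le_max_left _ _
theorem fc_le (t : ℝ) : fc t ≤ 1 := max_le zero_le_one (min_le_left _ _)
theorem fc_neg {t : ℝ} (h : t ≤ 0) : fc t = 0 := max_eq_left ((min_le_right _ _).trans h)
theorem fc_big {t : ℝ} (h : 1 ≤ t) : fc t = 1 := by
  unfold fc; rw [min_eq_left h]; exact max_eq_right zero_le_one

section Gam

variable {G T X : Type} [Group G] [TopologicalSpace T] [MulAction G T] [TopologicalSpace X]
  (F : Fac G T X)

open Classical in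
/-- move up to the base ray and along it -/
noncomputable def Gam (x : X) (l r : ℝ) : X :=
  if l ≤ 1 then F.up x (l * F.ρ x) else F.up F.x₀ ((2 - l) * F.ρ x + (l - 1) / r)

theorem Gam_cont {Z : Type} [TopologicalSpace Z] {x : Z → X} {l r : Z → ℝ} (hx : Continuous x)
    (hl : Continuous l) (hr : Continuous r) (hr0 : ∀ z, r z ≠ 0) :
    Continuous fun z => Gam F (x z) (l z) (r z) := by
  unfold Gam
  refine Continuous.if_le ?_ ?_ hl continuous_const ?_
  · exact F.up_cont.comp (hx.prodMk (hl.mul (F.ρ_cont.comp hx)))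
  · exact F.up_cont.comp (continuous_const.prodMk
      (((continuous_const.sub hl).mul (F.ρ_cont.comp hx)).add
        ((hl.sub continuous_const).div hr hr0)))
  · intro z hz
    rw [hz, one_mul, sub_self, zero_div, add_zero, F.up_base _ _ (le_refl _)]
    congr 1; ring

theorem Gam_zero (x : X) (r : ℝ) : Gam F x 0 r = x := by
  unfold Gam
  rw [if_pos zero_le_one, zero_mul]
  exact F.up_id _ _ (F.a_nonneg x)

theorem Gam_two (x : X) (r : ℝ) : Gam F x 2 r = F.up F.x₀ (1 / r) := by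
  unfold Gam
  rw [if_neg (by norm_num)]
  congr 1
  ring

theorem Gam_a {x : X} {l r : ℝ} (hl2 : l ≤ 2) (h : F.a x ≤ 1 / r) :
    F.a x ≤ F.a (Gam F x l r) := by
  unfold Gam
  split_ifs with h1
  · rw [F.a_up]; exact le_max_left _ _
  · push Not at h1
    rw [F.a_up]
    refine le_trans ?_ (le_max_right _ _)
    have h2 := F.a_le x
    have h3 : (l - 1) / r = (l - 1) * (1 / r) := by ring
    rw [h3]
    nlinarith

theorem Gam_apos {x : X} {l r : ℝ} (h : 0 < F.a x) :
    0 < F.a (Gam F x l r) := by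
  unfold Gam
  split_ifs with h1
  · rw [F.a_up]; exact lt_of_lt_of_le h (le_max_left _ _)
  · rw [F.a_up, F.a_x₀]
    exact lt_of_lt_of_le one_pos (le_max_left _ _)

theorem Gam_ρ {x : X} {l r : ℝ} (hl2 : l ≤ 2) (h : 1 / r ≤ F.ρ x) :
    1 / r ≤ F.ρ (Gam F x l r) := by
  unfold Gam
  split_ifs with h1
  · rw [F.ρ_up]; exact h.trans (le_max_left _ _)
  · push Not at h1
    rw [F.ρ_up]
    refine le_trans ?_ (le_max_right _ _)
    have h3 : (l - 1) / r = (l - 1) * (1 / r) := by ring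
    rw [h3]
    nlinarith

end Gam

end

end Pool.Agent.H895R2.SB
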