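import Mathlib
import Pool.Agent.H895R2.SB.Fac

/-! The factor of the integers. -/

set_option maxHeartbeats 4000000
set_option synthInstance.maxHeartbeats 400000

namespace Pool.Agent.H895R2.SB

open Set Topology Filter
open Pool.Agent.Helper376.CL

/-- the line -/
abbrev Line : Type := ℝ

/-- the integers act on the line by translations -/
noncomputable instance actLine : MulAction (Multiplicative ℤ) Line where
  smul g t := ((t : ℝ) + ((Multiplicative.toAdd g : ℤ) : ℝ) : ℝ)
  one_smul t := by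
    show ((t : ℝ) + ((Multiplicative.toAdd (1 : Multiplicative ℤ) : ℤ) : ℝ) : ℝ) = t
    rw [toAdd_one, Int.cast_zero, add_zero]
  mul_smul g h t := by
    show ((t : ℝ) + ((Multiplicative.toAdd (g * h) : ℤ) : ℝ) : ℝ) =
      ((t : ℝ) + ((Multiplicative.toAdd h : ℤ) : ℝ)) + ((Multiplicative.toAdd g : ℤ) : ℝ)
    rw [toAdd_mul, Int.cast_add]
    ring

theorem smul_line (g : Multiplicative ℤ) (t : Line) :
    ((g • t : Line) : ℝ) = (t : ℝ) + ((Multiplicative.toAdd g : ℤ) : ℝ) := rfl

/-- height function -/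
noncomputable def Af (r : ℝ) : ℝ := (1 + max (-r) 0) / (1 + max r 0)

theorem Af_of_nonneg {r : ℝ} (h : 0 ≤ r) : Af r = 1 / (1 + r) := by
  unfold Af; rw [max_eq_right (by linarith), max_eq_left h, add_zero]

theorem Af_of_nonpos {r : ℝ} (h : r ≤ 0) : Af r = 1 - r := by
  unfold Af; rw [max_eq_left (by linarith), max_eq_right h]; ring

theorem Af_cont : Continuous Af := by
  unfold Af
  refine Continuous.div ?_ ?_ ?_
  · exact continuous_const.add (continuous_neg.max continuous_const)
  · exact continuous_const.add (continuous_id.max continuous_const)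
  · intro x
    have : 0 ≤ max x 0 := le_max_right x 0
    show 1 + max x 0 ≠ 0
    positivity

theorem Af_pos (r : ℝ) : 0 < Af r := by
  unfold Af
  have h1 := le_max_right r 0
  have h2 := le_max_right (-r) 0
  positivity

/-- inverse -/
noncomputable def Bf (s : ℝ) : ℝ := max (1 / s) 1 - max s 1

theorem Bf_Af (r : ℝ) : Bf (Af r) = r := by
  unfold Bf
  rcases le_total 0 r with h | h
  · rw [Af_of_nonneg h, one_div_one_div, max_eq_left (by linarith), max_eq_right]
    · ring
    · rw [div_le_one (by linarith)]; linarith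
  · rw [Af_of_nonpos h, max_eq_right, max_eq_left (by linarith)]
    · ring
    · rw [div_le_one (by linarith)]; linarith

theorem Af_Bf {s : ℝ} (hs : 0 < s) : Af (Bf s) = s := by
  unfold Bf
  rcases le_total s 1 with h | h
  · have h1 : 1 ≤ 1 / s := by rw [le_div_iff₀ hs]; linarith
    rw [max_eq_left h1, max_eq_right h, Af_of_nonneg (by linarith)]
    field_simp
    ring
  · have h1 : 1 / s ≤ 1 := by rw [div_le_iff₀ hs]; linarith
    rw [max_eq_right h1, max_eq_left h, Af_of_nonpos (by linarith)]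
    ring

/-- the space -/
abbrev XZ : Type := {x : ℝ // 0 ≤ x}

/-- the embedding -/
noncomputable def jZ (t : Line) : XZ := ⟨Af t, (Af_pos t).le⟩

theorem jZ_range : range jZ = {x : XZ | 0 < x.1} := by
  ext x
  constructor
  · rintro ⟨t, rfl⟩
    exact Af_pos t
  · intro hx
    exact ⟨Bf x.1, Subtype.ext (Af_Bf hx)⟩

/-- homeomorphism onto the image -/
noncomputable def hZ : Line ≃ₜ {x : XZ // 0 < x.1} where
  toFun t := ⟨jZ t, Af_pos t⟩
  invFun x := Bf x.1.1
  left_inv t := Bf_Af t
  right_inv x := Subtype.ext (Subtype.ext (Af_Bf x.2))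
  continuous_toFun := (Af_cont.subtype_mk _).subtype_mk _
  continuous_invFun := by
    have h : Continuous fun x : {x : XZ // 0 < x.1} => x.1.1 :=
      continuous_subtype_val.comp continuous_subtype_val
    show Continuous fun x : {x : XZ // 0 < x.1} => (max (1 / x.1.1) 1 - max x.1.1 1 : ℝ)
    exact ((continuous_const.div h fun x => x.2.ne').max continuous_const).sub
      (h.max continuous_const)

theorem jZ_emb : IsOpenEmbedding jZ := by
  have h1 : jZ = Subtype.val ∘ hZ := rfl
  rw [h1]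
  exact (isOpen_lt continuous_const continuous_subtype_val).isOpenEmbedding_subtypeVal.comp
    hZ.isOpenEmbedding

theorem log_diff {a b : ℝ} (ha : 0 < a) (hb : 0 < b) :
    |Real.log a - Real.log b| ≤ |a - b| / min a b := by
  have key : ∀ {a b : ℝ}, 0 < a → 0 < b → b ≤ a → |Real.log a - Real.log b| ≤ |a - b| / min a b := by
    intro a b ha hb h
    have h1 := Real.log_le_log hb h
    rw [abs_of_nonneg (by linarith), abs_of_nonneg (by linarith), min_eq_right h]
    have h2 := Real.log_le_sub_one_of_pos (div_pos ha hb)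
    rw [Real.log_div ha.ne' hb.ne'] at h2
    rw [sub_div, div_self hb.ne']
    exact h2
  rcases le_total b a with h | h
  · exact key ha hb h
  · rw [abs_sub_comm, abs_sub_comm a b, min_comm]
    exact key hb ha h

/-- heights tend to zero iff positions tend to infinity -/
theorem tendsto_of_Af {ι : Type} {l : Filter ι} {r : ι → ℝ} (h : Tendsto (fun i => Af (r i)) l (𝓝 0)) :
    Tendsto r l atTop := by
  have h1 : Tendsto (fun i => (Af (r i))⁻¹) l atTop := by
    apply Tendsto.comp tendsto_inv_nhdsGT_zero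
    exact tendsto_nhdsWithin_iff.2 ⟨h, Eventually.of_forall fun i => Af_pos _⟩
  have h2 : ∀ᶠ i in l, Af (r i) < 1 := h.eventually_lt_const one_pos
  have h3 : Tendsto (fun i => (Af (r i))⁻¹ + (-1)) l atTop := tendsto_atTop_add_const_right _ _ h1
  refine h3.congr' ?_
  filter_upwards [h2] with i hi
  have h4 := Bf_Af (r i)
  unfold Bf at h4
  have h5 := Af_pos (r i)
  have h1 : 1 ≤ 1 / Af (r i) := by rw [le_div_iff₀ h5]; linarith
  rw [max_eq_left h1, max_eq_right hi.le, one_div] at h4
  linarith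

theorem Af_tendsto : Tendsto Af atTop (𝓝 0) := by
  have h1 : Tendsto (fun r : ℝ => (1 + r)⁻¹) atTop (𝓝 0) :=
    tendsto_inv_atTop_zero.comp (tendsto_atTop_add_const_left _ _ tendsto_id)
  refine h1.congr' ?_
  filter_upwards [eventually_ge_atTop 0] with r hr
  rw [Af_of_nonneg hr, one_div]

theorem log_Af_diff {ι : Type} {l : Filter ι} {r r' : ι → ℝ} {C : ℝ} (h : Tendsto r l atTop)
    (h' : ∀ i, |r' i - r i| ≤ C) :
    Tendsto (fun i => Real.log (Af (r' i)) - Real.log (Af (r i))) l (𝓝 0) := by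
  have hC : Tendsto (fun i => C / (1 + r i - C)) l (𝓝 0) := by
    apply Tendsto.const_div_atTop
    have h1 := tendsto_atTop_add_const_left l (1 - C) h
    refine h1.congr fun i => by ring
  refine squeeze_zero_norm' ?_ hC
  filter_upwards [h.eventually_ge_atTop (|C| + 1)] with i hi
  have h0 := abs_nonneg (r' i - r i)
  have h1 := h' i
  have hC0 : 0 ≤ C := h0.trans h1
  rw [abs_of_nonneg hC0] at hi
  have h2 := abs_le.1 h1
  have h3 : 0 ≤ r i := by linarith
  have h4 : 0 ≤ r' i := by linarith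
  rw [Af_of_nonneg h3, Af_of_nonneg h4, one_div, one_div, Real.log_inv, Real.log_inv,
    Real.norm_eq_abs]
  have h5 := log_diff (a := 1 + r i) (b := 1 + r' i) (by linarith) (by linarith)
  have h6 : -Real.log (1 + r' i) - -Real.log (1 + r i) = Real.log (1 + r i) - Real.log (1 + r' i) := by
    ring
  rw [h6]
  refine h5.trans ?_
  have h7 : |1 + r i - (1 + r' i)| ≤ C := by
    have : 1 + r i - (1 + r' i) = -(r' i - r i) := by ring
    rw [this, abs_neg]; exact h1
  have h8 : 1 + r i - C ≤ min (1 + r i) (1 + r' i) := le_min (by linarith) (by linarith)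
  exact div_le_div₀ hC0 h7 (by linarith) h8

theorem bdd_of_compact {K : Set Line} (hK : IsCompact K) : ∃ M : ℝ, 0 ≤ M ∧ ∀ t ∈ K, |(t : ℝ)| ≤ M := by
  have h1 : IsCompact (K : Set ℝ) := hK
  obtain ⟨M, hM⟩ := h1.isBounded.exists_norm_le
  exact ⟨max M 0, le_max_right _ _, fun t ht => (hM t ht).trans (le_max_left _ _)⟩

/-- the factor of the integers -/
noncomputable def facZ : Fac (Multiplicative ℤ) Line XZ where
  a x := x.1
  ρ x := max x.1 1
  κ _ := 0
  up x t := ⟨max x.1 t, x.2.trans (le_max_left _ _)⟩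
  x₀ := ⟨1, zero_le_one⟩
  j := jZ
  a_cont := continuous_subtype_val
  ρ_cont := continuous_subtype_val.max continuous_const
  κ_cont := continuous_const
  up_cont := ((continuous_subtype_val.comp continuous_fst).max continuous_snd).subtype_mk _
  a_nonneg x := x.2
  a_le x := le_max_left _ _
  one_le x := le_max_right _ _
  a_x₀ := rfl
  ρ_x₀ := max_self _
  a_up x t := rfl
  ρ_up x t := by simp only []; rw [max_right_comm]
  up_id x t h := Subtype.ext (max_eq_left h)
  up_base x t h := Subtype.ext (by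
    show max x.1 t = max 1 t
    rw [max_eq_right ((le_max_left _ _).trans h), max_eq_right ((le_max_right _ _).trans h)])
  t2 := inferInstance
  proper N := by
    have h1 : IsCompact ((Subtype.val : XZ → ℝ) ⁻¹' (Icc 0 N)) :=
      (IsClosed.isClosedEmbedding_subtypeVal isClosed_Ici).isCompact_preimage isCompact_Icc
    refine h1.of_isClosed_subset (isClosed_le (continuous_subtype_val.max continuous_const)
      continuous_const) ?_
    intro x hx
    exact ⟨x.2, (le_max_left _ _).trans hx⟩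
  inj x y h _ := Subtype.ext h
  j_emb := jZ_emb
  j_range := jZ_range
  ae := isAE_real
  smul_cont g := by
    show Continuous fun t : ℝ => t + ((Multiplicative.toAdd g : ℤ) : ℝ)
    exact continuous_id.add continuous_const
  cov y := by
    refine ⟨(Ioo ((y : ℝ) - 1/2) ((y : ℝ) + 1/2) : Set ℝ), (isOpen_Ioo (α := ℝ)), ?_, ?_⟩
    · show (y : ℝ) - 1/2 < (y : ℝ) ∧ (y : ℝ) < (y : ℝ) + 1/2
      constructor <;> linarith
    · intro g hg
      rw [Set.disjoint_left]
      rintro _ ⟨z, hz, rfl⟩ hz'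
      have h1 : (y : ℝ) - 1/2 < (z : ℝ) ∧ (z : ℝ) < (y : ℝ) + 1/2 := hz
      have h2 : (y : ℝ) - 1/2 < (z : ℝ) + ((Multiplicative.toAdd g : ℤ) : ℝ) ∧
        (z : ℝ) + ((Multiplicative.toAdd g : ℤ) : ℝ) < (y : ℝ) + 1/2 := hz'
      have h3 : Multiplicative.toAdd g ≠ 0 := fun h => hg (by
        rw [← ofAdd_toAdd g, h]; rfl)
      have h4 : (1 : ℤ) ≤ |Multiplicative.toAdd g| := Int.one_le_abs h3
      have h5 : (1 : ℝ) ≤ |((Multiplicative.toAdd g : ℤ) : ℝ)| := by
        rw [← Int.cast_abs]; exact_mod_cast h4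
      rcases abs_cases ((Multiplicative.toAdd g : ℤ) : ℝ) with ⟨h6, _⟩ | ⟨h6, _⟩ <;> linarith
  K₀ := (Icc (0:ℝ) 1 : Set ℝ)
  K₀_comp := isCompact_Icc (α := ℝ)
  coc y := by
    refine ⟨Multiplicative.ofAdd (-⌊(y : ℝ)⌋), ?_⟩
    show 0 ≤ (y : ℝ) + ((-⌊(y : ℝ)⌋ : ℤ) : ℝ) ∧ (y : ℝ) + ((-⌊(y : ℝ)⌋ : ℤ) : ℝ) ≤ 1
    have h1 := Int.floor_le (y : ℝ)
    have h2 := Int.lt_floor_add_one (y : ℝ)
    push_cast
    constructor <;> linarith
  null := by
    intro ι 𝓤 K g p p' x hK hp hp' hx h
    obtain ⟨M, hM0, hM⟩ := bdd_of_compact hK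
    have h1 : Tendsto (fun i => Af ((g i • p i : Line) : ℝ)) 𝓤 (𝓝 0) := by
      have := (continuous_subtype_val.tendsto x).comp h
      rw [hx] at this
      exact this
    have h2 := tendsto_of_Af h1
    have hd : ∀ i, |((g i • p' i : Line) : ℝ) - ((g i • p i : Line) : ℝ)| ≤ 2 * M := by
      intro i
      rw [smul_line, smul_line]
      have e1 := abs_le.1 (hM _ (hp i))
      have e2 := abs_le.1 (hM _ (hp' i))
      have e3 : ((p' i : Line) : ℝ) + ((Multiplicative.toAdd (g i) : ℤ) : ℝ) -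
        (((p i : Line) : ℝ) + ((Multiplicative.toAdd (g i) : ℤ) : ℝ)) = (p' i : ℝ) - (p i : ℝ) :=
        add_sub_add_right_eq_sub _ _ _
      rw [e3, abs_le]
      constructor <;> linarith [e1.1, e1.2, e2.1, e2.2]
    refine ⟨?_, log_Af_diff h2 hd⟩
    rw [IsEmbedding.subtypeVal.tendsto_nhds_iff, hx]
    show Tendsto (fun i => Af ((g i • p' i : Line) : ℝ)) 𝓤 (𝓝 0)
    apply Af_tendsto.comp
    refine tendsto_atTop_mono (f := fun i => ((g i • p i : Line) : ℝ) + (- (2 * M))) ?_
      (tendsto_atTop_add_const_right _ _ h2)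
    intro i
    have := (abs_le.1 (hd i)).1
    linarith
  prop := by
    intro ι 𝓤 K g p t hK hp h
    obtain ⟨M, hM0, hM⟩ := bdd_of_compact hK
    have h1 : Tendsto (fun i => ((g i • p i : Line) : ℝ)) 𝓤 (𝓝 (t : ℝ)) := h
    have h2 : ∀ᶠ i in (𝓤 : Filter ι), |((g i • p i : Line) : ℝ)| < |(t : ℝ)| + 1 :=
      h1.abs.eventually_lt_const (by linarith)
    obtain ⟨n, hn⟩ := exists_nat_gt (|(t : ℝ)| + 1 + M)
    refine ⟨Multiplicative.toAdd ⁻¹' (Icc (-(n : ℤ)) n), ?_, ?_⟩
    · exact (Set.finite_Icc _ _).preimage Multiplicative.toAdd.injective.injOn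
    · filter_upwards [h2] with i hi
      rw [smul_line] at hi
      have e1 := abs_le.1 (hM _ (hp i))
      have e2 := abs_lt.1 hi
      show -(n : ℤ) ≤ Multiplicative.toAdd (g i) ∧ Multiplicative.toAdd (g i) ≤ n
      have e3 : -(n : ℝ) ≤ ((Multiplicative.toAdd (g i) : ℤ) : ℝ) ∧
          ((Multiplicative.toAdd (g i) : ℤ) : ℝ) ≤ n := by
        constructor <;> linarith [e1.1, e1.2, e2.1, e2.2]
      constructor
      · exact_mod_cast e3.1
      · exact_mod_cast e3.2

/-- the boundary of the line factor is a point -/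
theorem facZ_bd (x : {x : XZ // facZ.a x = 0}) : x = ⟨⟨0, le_refl _⟩, rfl⟩ :=
  Subtype.ext (Subtype.ext x.2)

end Pool.Agent.H895R2.SB
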