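import Mathlib
import Pool.Agent.H895R2.SB.ZFac

/-! Trees rooted at an end, given by a parent function, and the space of points of the tree together
with all ends other than the root. -/

set_option maxHeartbeats 4000000
set_option synthInstance.maxHeartbeats 400000

namespace Pool.Agent.H895R2.SB

open Set Topology Filter

/-! ### the scale -/

theorem Af_strictAnti : StrictAnti Af := by
  intro r s h
  rcases le_total 0 r with h0 | h0
  · rw [Af_of_nonneg h0, Af_of_nonneg (by linarith)]
    exact one_div_lt_one_div_of_lt (by linarith) (by linarith)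
  · rcases le_total s 0 with h1 | h1
    · rw [Af_of_nonpos h0, Af_of_nonpos h1]; linarith
    · rw [Af_of_nonneg h1, Af_of_nonpos h0]
      rcases h1.eq_or_lt with h2 | h2
      · rw [← h2] at h ⊢; norm_num; linarith
      · have : 1 / (1 + s) < 1 := by rw [div_lt_one (by linarith)]; linarith
        linarith

/-- scale function -/
noncomputable def th (n : ℤ) : ℝ := Af n

theorem th_pos (n : ℤ) : 0 < th n := Af_pos _
theorem th_lt {m n : ℤ} : th m < th n ↔ n < m := by
  unfold th; rw [Af_strictAnti.lt_iff_gt]; exact_mod_cast Iff.rfl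
theorem th_le {m n : ℤ} : th m ≤ th n ↔ n ≤ m := by
  unfold th; rw [Af_strictAnti.le_iff_ge]; exact_mod_cast Iff.rfl
theorem th_zero : th 0 = 1 := by unfold th; rw [Int.cast_zero, Af_of_nonneg (le_refl _)]; norm_num

theorem th_small {ε : ℝ} (h : 0 < ε) : ∃ n : ℤ, th n < ε := by
  obtain ⟨r, hr⟩ := ((Af_tendsto.eventually_lt_const h).and (eventually_ge_atTop (0:ℝ))).exists
  refine ⟨⌈r⌉, lt_of_le_of_lt ?_ hr.1⟩
  exact Af_strictAnti.antitone (Int.le_ceil r)

theorem th_big (N : ℝ) : ∃ n : ℤ, n ≤ 0 ∧ N < th n := by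
  obtain ⟨k, hk⟩ := exists_nat_gt N
  refine ⟨-(k : ℤ), by omega, ?_⟩
  unfold th
  rw [Af_of_nonpos (by push_cast; linarith [Nat.cast_nonneg (α := ℝ) k])]
  push_cast
  linarith

/-- for every positive number there is a unique scale -/
theorem th_between {t : ℝ} (ht : 0 < t) : ∃ n : ℤ, th (n + 1) ≤ t ∧ t < th n := by
  obtain ⟨m, hm⟩ := th_small ht
  obtain ⟨k, -, hk⟩ := th_big t
  obtain ⟨n, hn, hmax⟩ := Int.exists_greatest_of_bdd (P := fun n => t < th n)
    ⟨m, fun z hz => by
      by_contra h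
      push Not at h
      have := th_lt.2 h
      linarith⟩ ⟨k, hk⟩
  refine ⟨n, ?_, hn⟩
  by_contra h
  push Not at h
  have := hmax _ h
  omega

theorem th_between' {t : ℝ} (ht : 0 < t) : ∃ n : ℤ, th (n + 1) < t ∧ t ≤ th n := by
  obtain ⟨n, h1, h2⟩ := th_between ht
  rcases h1.eq_or_lt with h | h
  · refine ⟨n + 1, ?_, h.symm.le⟩
    rw [← h]; exact th_lt.2 (by omega)
  · exact ⟨n, h, h2.le⟩

/-! ### trees rooted at an end -/

/-- a tree rooted at an end, given by its parent function -/
structure RT (V : Type) where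
  par : V → V
  ht : V → ℤ
  dg : V → ℕ
  v0 : V
  ht_par : ∀ v, ht (par v) = ht v - 1
  common : ∀ u v, ∃ m n : ℕ, par^[m] u = par^[n] v
  dg_le : ∀ v, dg v ≤ 3
  dg_inj : ∀ u v, par u = par v → dg u = dg v → u = v
  dg_anc : ∀ n, dg (par^[n] v0) = 0
  ht_v0 : ht v0 = 0

namespace RT

variable {V : Type} (R : RT V)

theorem ht_iter (n : ℕ) (v : V) : R.ht (R.par^[n] v) = R.ht v - n := by
  induction n generalizing v with
  | zero => simp
  | succ n ih => rw [Function.iterate_succ_apply, ih, R.ht_par]; push_cast; ring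

/-- the ancestor at height `n` -/
def anc (v : V) (n : ℤ) : V := R.par^[(R.ht v - n).toNat] v

variable {R}

theorem ht_anc {v : V} {n : ℤ} (h : n ≤ R.ht v) : R.ht (R.anc v n) = n := by
  unfold anc; rw [R.ht_iter]; omega

theorem anc_anc {v : V} {m n : ℤ} (hm : m ≤ n) (hn : n ≤ R.ht v) :
    R.anc (R.anc v n) m = R.anc v m := by
  have h1 := ht_anc hn
  unfold anc at h1 ⊢
  rw [h1, ← Function.iterate_add_apply]
  congr 1
  omega

theorem anc_self (v : V) : R.anc v (R.ht v) = v := by unfold anc; simp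

theorem anc_par {v : V} {n : ℤ} (h : n ≤ R.ht v - 1) : R.anc (R.par v) n = R.anc v n := by
  unfold anc
  rw [R.ht_par, ← Function.iterate_succ_apply]
  congr 1
  omega

theorem par_anc {v : V} {n : ℤ} (h : n ≤ R.ht v) : R.par (R.anc v n) = R.anc v (n - 1) := by
  unfold anc
  have e : (R.ht v - (n - 1)).toNat = (R.ht v - n).toNat + 1 := by omega
  rw [e, Function.iterate_succ_apply']

variable (R)

/-- heights of common ancestors -/
def JS (u v : V) : Set ℤ := {n | n ≤ R.ht u ∧ n ≤ R.ht v ∧ R.anc u n = R.anc v n}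

/-- height of the join -/
noncomputable def J (u v : V) : ℤ := sSup (R.JS u v)

variable {R}

theorem JS_down {u v : V} {m n : ℤ} (h : m ≤ n) (hn : n ∈ R.JS u v) : m ∈ R.JS u v :=
  ⟨h.trans hn.1, h.trans hn.2.1, by rw [← anc_anc h hn.1, hn.2.2, anc_anc h hn.2.1]⟩

theorem JS_nonempty (u v : V) : (R.JS u v).Nonempty := by
  obtain ⟨m, n, h⟩ := R.common u v
  have h1 := R.ht_iter m u
  have h2 := R.ht_iter n v
  rw [h] at h1
  refine ⟨R.ht u - m, by omega, by omega, ?_⟩
  unfold anc
  have e1 : (R.ht u - (R.ht u - m)).toNat = m := by omega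
  have e2 : (R.ht v - (R.ht u - m)).toNat = n := by omega
  rw [e1, e2, h]

theorem JS_bdd (u v : V) : BddAbove (R.JS u v) := ⟨R.ht u, fun _ h => h.1⟩

theorem le_J {u v : V} {n : ℤ} :
    n ≤ R.J u v ↔ n ≤ R.ht u ∧ n ≤ R.ht v ∧ R.anc u n = R.anc v n := by
  constructor
  · intro h
    exact JS_down h (Int.csSup_mem (JS_nonempty u v) (JS_bdd u v))
  · intro h
    exact le_csSup (JS_bdd u v) h

theorem J_le_left (u v : V) : R.J u v ≤ R.ht u := (le_J.1 (le_refl _)).1
theorem J_le_right (u v : V) : R.J u v ≤ R.ht v := (le_J.1 (le_refl _)).2.1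
theorem anc_J (u v : V) : R.anc u (R.J u v) = R.anc v (R.J u v) := (le_J.1 (le_refl _)).2.2

theorem J_self (v : V) : R.J v v = R.ht v :=
  le_antisymm (J_le_left v v) (le_J.2 ⟨le_refl _, le_refl _, rfl⟩)

theorem J_comm (u v : V) : R.J u v = R.J v u := by
  apply le_antisymm
  · obtain ⟨h1, h2, h3⟩ := le_J.1 (le_refl (R.J u v))
    exact le_J.2 ⟨h2, h1, h3.symm⟩
  · obtain ⟨h1, h2, h3⟩ := le_J.1 (le_refl (R.J v u))
    exact le_J.2 ⟨h2, h1, h3.symm⟩

theorem J_ultra (u v w : V) : min (R.J u v) (R.J v w) ≤ R.J u w := by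
  obtain ⟨h1, h2, h3⟩ := le_J.1 (min_le_left (R.J u v) (R.J v w))
  obtain ⟨h4, h5, h6⟩ := le_J.1 (min_le_right (R.J u v) (R.J v w))
  exact le_J.2 ⟨h1, h5, h3.trans h6⟩

theorem J_par (u v : V) : R.J (R.par u) v = min (R.J u v) (R.ht u - 1) := by
  apply le_antisymm
  · obtain ⟨h1, h2, h3⟩ := le_J.1 (le_refl (R.J (R.par u) v))
    rw [R.ht_par] at h1
    refine le_min (le_J.2 ⟨by omega, h2, ?_⟩) h1
    rw [← anc_par h1, h3]
  · obtain ⟨h1, h2, h3⟩ := le_J.1 (min_le_left (R.J u v) (R.ht u - 1))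
    have h4 := min_le_right (R.J u v) (R.ht u - 1)
    refine le_J.2 ⟨by rw [R.ht_par]; exact h4, h2, ?_⟩
    rw [anc_par h4, h3]

theorem J_anc (v : V) {n : ℤ} (h : n ≤ R.ht v) : R.J (R.anc v n) v = n := by
  apply le_antisymm
  · have := J_le_left (R := R) (R.anc v n) v
    rwa [ht_anc h] at this
  · refine le_J.2 ⟨by rw [ht_anc h], h, ?_⟩
    rw [anc_anc (le_refl _) h]

theorem eq_of_J {u v : V} (h1 : R.J u v = R.ht u) (h2 : R.J u v = R.ht v) : u = v := by
  have h3 := anc_J (R := R) u v
  rw [h1, anc_self, ← h1, h2, anc_self] at h3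
  exact h3

/-- local finiteness -/
theorem finite_level (m : ℤ) (k : ℕ) : {v : V | R.ht v = m + k ∧ m ≤ R.J v R.v0}.Finite := by
  induction k with
  | zero =>
    apply Set.Subsingleton.finite
    rintro u ⟨hu, hu'⟩ v ⟨hv, hv'⟩
    have e1 := (le_J.1 hu').2.2
    have e2 := (le_J.1 hv').2.2
    have e3 : R.ht u = m := by rw [hu]; simp
    have e4 : R.ht v = m := by rw [hv]; simp
    rw [← e3, anc_self] at e1
    rw [← e4, anc_self] at e2
    rw [e1, e2, e3, e4]
  | succ k ih =>
    have h1 : MapsTo (fun v : V => (R.par v, R.dg v)) {v : V | R.ht v = m + (k + 1 : ℕ) ∧ m ≤ R.J v R.v0}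
        ({v : V | R.ht v = m + k ∧ m ≤ R.J v R.v0} ×ˢ Iic 3) := by
      rintro v ⟨hv, hv'⟩
      push_cast at hv
      refine ⟨⟨by rw [R.ht_par]; omega, ?_⟩, R.dg_le v⟩
      rw [J_par]
      exact le_min hv' (by omega)
    refine Set.Finite.of_injOn h1 ?_ (ih.prod (Set.finite_Iic 3))
    rintro u _ v _ huv
    simp only [Prod.mk.injEq] at huv
    exact R.dg_inj u v huv.1 huv.2

theorem finite_level' (m n : ℤ) : {v : V | R.ht v = n ∧ m ≤ R.J v R.v0}.Finite := by
  rcases le_total m n with h | h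
  · have := finite_level (R := R) m (n - m).toNat
    have e : m + ((n - m).toNat : ℤ) = n := by omega
    rwa [e] at this
  · refine (finite_level (R := R) m 0).subset ?_
    rintro v ⟨hv, hv'⟩
    have := J_le_left (R := R) v R.v0
    exact ⟨by simp; omega, hv'⟩

end RT

/-! ### the space -/

/-- the tree together with all its ends except the root -/
def TT {V : Type} (R : RT V) : Type :=
  {E : V → ℝ // ∀ u v, E u ≤ max (E v) (th (R.J u v)) ∧ th (R.J u v) ≤ max (E u) (E v)}

namespace TT

open RT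

variable {V : Type} {R : RT V}

instance : TopologicalSpace (TT R) := inferInstanceAs (TopologicalSpace
  {E : V → ℝ // ∀ u v, E u ≤ max (E v) (th (R.J u v)) ∧ th (R.J u v) ≤ max (E u) (E v)})

instance : CoeFun (TT R) (fun _ => V → ℝ) := ⟨fun E => E.1⟩

theorem ext' {E E' : TT R} (h : ∀ v, E v = E' v) : E = E' := Subtype.ext (funext h)

theorem c1 (E : TT R) (u v : V) : E u ≤ max (E v) (th (R.J u v)) := (E.2 u v).1
theorem c2 (E : TT R) (u v : V) : th (R.J u v) ≤ max (E u) (E v) := (E.2 u v).2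

theorem coord_cont (v : V) : Continuous fun E : TT R => E v :=
  (continuous_apply v).comp continuous_subtype_val

theorem closed_emb : IsClosedEmbedding (fun E : TT R => (E.1 : V → ℝ)) := by
  apply IsClosed.isClosedEmbedding_subtypeVal
  have : {E : V → ℝ | ∀ u v, E u ≤ max (E v) (th (R.J u v)) ∧ th (R.J u v) ≤ max (E u) (E v)} =
      ⋂ u, ⋂ v, ({E : V → ℝ | E u ≤ max (E v) (th (R.J u v))} ∩
        {E : V → ℝ | th (R.J u v) ≤ max (E u) (E v)}) := by
    ext E; simp
  refine (this.symm ▸ ?_ : IsClosed {E : V → ℝ | ∀ u v, E u ≤ max (E v) (th (R.J u v)) ∧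
    th (R.J u v) ≤ max (E u) (E v)})
  refine isClosed_iInter fun u => isClosed_iInter fun v => IsClosed.inter ?_ ?_
  · exact isClosed_le (continuous_apply u) ((continuous_apply v).max continuous_const)
  · exact isClosed_le continuous_const ((continuous_apply u).max (continuous_apply v))

instance : T2Space (TT R) := closed_emb.isEmbedding.t2Space

theorem th_le_coord (E : TT R) (v : V) : th (R.ht v) ≤ E v := by
  have := c2 E v v
  rwa [J_self, max_self] at this

theorem coord_pos (E : TT R) (v : V) : 0 < E v := lt_of_lt_of_le (th_pos _) (th_le_coord E v)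

/-- height coordinate -/
noncomputable def a (E : TT R) : ℝ := ⨅ v, E v

theorem bddBelow (E : TT R) : BddBelow (range fun v => E v) :=
  ⟨0, by rintro _ ⟨v, rfl⟩; exact (coord_pos E v).le⟩

theorem a_le (E : TT R) (v : V) : a E ≤ E v := ciInf_le (bddBelow E) v

theorem le_a (E : TT R) {c : ℝ} (h : ∀ v, c ≤ E v) : c ≤ a E := by
  have : Nonempty V := ⟨R.v0⟩
  exact le_ciInf h

theorem a_nonneg (E : TT R) : 0 ≤ a E := le_a E fun v => (coord_pos E v).le

theorem exists_lt (E : TT R) {c : ℝ} (h : a E < c) : ∃ v, E v < c := by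
  by_contra hc
  push Not at hc
  exact absurd (le_a E hc) (not_le.2 h)

theorem lt_ht {E : TT R} {v : V} {n : ℤ} (h : E v < th n) : n + 1 ≤ R.ht v := by
  have h1 := th_le_coord E v
  have h2 := th_lt.1 (lt_of_le_of_lt h1 h)
  omega

theorem lt_anc {E : TT R} {v : V} {n : ℤ} (h : E v < th n) : E (R.anc v (n + 1)) < th n := by
  have h0 := lt_ht h
  have h1 := c1 E (R.anc v (n + 1)) v
  rw [J_anc v h0] at h1
  exact lt_of_le_of_lt h1 (max_lt h (th_lt.2 (by omega)))

theorem same_anc {E : TT R} {v w : V} {n : ℤ} (hv : E v < th n) (hw : E w < th n) :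
    R.anc v (n + 1) = R.anc w (n + 1) := by
  have h1 := c2 E v w
  have h2 : th (R.J v w) < th n := lt_of_le_of_lt h1 (max_lt hv hw)
  have h3 := th_lt.1 h2
  exact (le_J.1 (show n + 1 ≤ R.J v w by omega)).2.2

theorem exists_vx (E : TT R) {n : ℤ} (h : a E < th n) :
    ∃ v, R.ht v = n + 1 ∧ E v < th n ∧ E v = max (a E) (th (n + 1)) ∧
      ∀ w, R.ht w = n + 1 → E w < th n → w = v := by
  obtain ⟨w, hw⟩ := exists_lt E h
  have h0 := lt_ht hw
  have h1 := lt_anc hw
  have h2 := ht_anc h0
  refine ⟨R.anc w (n + 1), h2, h1, ?_, ?_⟩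
  · have key : ∀ u, E (R.anc w (n + 1)) ≤ max (E u) (th (n + 1)) := by
      intro u
      by_cases hu : E u < th n
      · rw [same_anc hw hu]
        have h3 := c1 E (R.anc u (n + 1)) u
        rwa [J_anc u (lt_ht hu)] at h3
      · push Not at hu
        exact (h1.le.trans hu).trans (le_max_left _ _)
    apply le_antisymm
    · by_contra hc
      push Not at hc
      obtain ⟨h4, h5⟩ := max_lt_iff.1 hc
      obtain ⟨u, hu⟩ := exists_lt E h4
      have h6 := key u
      rcases le_max_iff.1 h6 with h7 | h7 <;> linarith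
    · refine max_le (a_le E _) ?_
      have h8 := th_le_coord E (R.anc w (n + 1))
      rwa [h2] at h8
  · intro u hu hu'
    have h3 := same_anc hw hu'
    rw [h3, ← hu, anc_self]

open Classical in
/-- the vertex at height `n + 1` above which the point lies -/
noncomputable def vx (E : TT R) (n : ℤ) : V := if h : a E < th n then (exists_vx E h).choose else R.v0

theorem vx_spec (E : TT R) {n : ℤ} (h : a E < th n) :
    R.ht (vx E n) = n + 1 ∧ E (vx E n) < th n ∧ E (vx E n) = max (a E) (th (n + 1)) ∧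
      ∀ w, R.ht w = n + 1 → E w < th n → w = vx E n := by
  unfold vx
  rw [dif_pos h]
  exact (exists_vx E h).choose_spec

theorem vx_eq {E : TT R} {n : ℤ} {v : V} (h1 : R.ht v = n + 1) (h2 : E v < th n) : vx E n = v := by
  have h := lt_of_le_of_lt (a_le E v) h2
  exact ((vx_spec E h).2.2.2 v h1 h2).symm

theorem par_vx (E : TT R) {n : ℤ} (h : a E < th n) : R.par (vx E n) = vx E (n - 1) := by
  obtain ⟨h1, h2, h3, h4⟩ := vx_spec E h
  symm
  apply vx_eq
  · rw [R.ht_par, h1]; ring
  · have h5 := c1 E (R.par (vx E n)) (vx E n)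
    rw [J_par, J_self, h1] at h5
    have e : min (n + 1) (n + 1 - 1) = n := by omega
    rw [e] at h5
    exact lt_of_le_of_lt h5 (max_lt (h2.trans (th_lt.2 (by omega))) (th_lt.2 (by omega)))

/-- values at vertices branching off below the point -/
theorem val_low (E : TT R) {n : ℤ} (h : a E < th n) (u : V) (hu : R.J (vx E n) u ≤ n) :
    E u = th (R.J (vx E n) u) := by
  obtain ⟨h1, h2, h3, h4⟩ := vx_spec E h
  have h5 : th n ≤ th (R.J (vx E n) u) := th_le.2 hu
  apply le_antisymm
  · have h6 := c1 E u (vx E n)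
    rw [J_comm u] at h6
    exact h6.trans (max_le (by linarith) (le_refl _))
  · have h6 := c2 E (vx E n) u
    rcases le_max_iff.1 h6 with h7 | h7
    · linarith
    · exact h7

theorem val_eq (E : TT R) {n : ℤ} (h : a E < th n) (h' : th (n + 1) ≤ a E) (u : V) :
    E u = max (a E) (th (R.J (vx E n) u)) := by
  obtain ⟨h1, h2, h3, h4⟩ := vx_spec E h
  rw [max_eq_left h'] at h3
  have h0 := J_le_left (R := R) (vx E n) u
  rw [h1] at h0
  rcases (show R.J (vx E n) u ≤ n ∨ R.J (vx E n) u = n + 1 by omega) with h5 | h5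
  · rw [val_low E h u h5, max_eq_right]
    have := th_le.2 h5
    linarith
  · rw [h5, max_eq_left h']
    apply le_antisymm
    · have h6 := c1 E u (vx E n)
      rw [J_comm u, h5, h3, max_eq_left h'] at h6
      exact h6
    · exact a_le E u

/-- a point is determined by its height coordinate and its path -/
theorem eq_of_path {E E' : TT R} (ha : a E = a E') (h : ∀ n, a E < th n → vx E n = vx E' n) :
    E = E' := by
  apply ext'
  intro u
  rcases (a_nonneg E).eq_or_lt with h0 | h0
  · have h1 : a E < th (R.ht u) := by rw [← h0]; exact th_pos _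
    have h1' : a E' < th (R.ht u) := by rw [← ha]; exact h1
    rw [val_low E h1 u (J_le_right _ _), val_low E' h1' u (J_le_right _ _), h _ h1]
  · obtain ⟨n, h1, h2⟩ := th_between h0
    rw [val_eq E h2 h1 u, val_eq E' (by rw [← ha]; exact h2) (by rw [← ha]; exact h1) u, h _ h2, ha]

/-! ### truncation -/

/-- move towards the root -/
noncomputable def up (E : TT R) (t : ℝ) : TT R :=
  ⟨fun v => max (E v) t, fun u v => ⟨by
    refine max_le ((c1 E u v).trans ?_) ?_
    · exact max_le_max (le_max_left _ _) (le_refl _)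
    · exact (le_max_right _ _).trans (le_max_left _ _), by
    exact (c2 E u v).trans (max_le_max (le_max_left _ _) (le_max_left _ _))⟩⟩

theorem up_apply (E : TT R) (t : ℝ) (v : V) : up E t v = max (E v) t := rfl

theorem up_cont : Continuous (fun q : TT R × ℝ => up q.1 q.2) := by
  apply Continuous.subtype_mk
  exact continuous_pi fun v => ((coord_cont v).comp continuous_fst).max continuous_snd

theorem a_up (E : TT R) (t : ℝ) : a (up E t) = max (a E) t := by
  apply le_antisymm
  · by_contra hc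
    push Not at hc
    obtain ⟨h1, h2⟩ := max_lt_iff.1 hc
    obtain ⟨v, hv⟩ := exists_lt E h1
    have h3 := a_le (up E t) v
    rw [up_apply] at h3
    rcases le_max_iff.1 h3 with h4 | h4 <;> linarith
  · exact le_a _ fun v => max_le_max (a_le E v) (le_refl _)

variable (R) in
/-- vertices as points -/
noncomputable def pt (v : V) : TT R :=
  ⟨fun u => th (R.J v u), fun u w => ⟨by
    have h1 := J_ultra (R := R) v w u
    show th (R.J v u) ≤ max (th (R.J v w)) (th (R.J u w))
    rw [J_comm w u] at h1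
    rcases min_le_iff.1 h1 with h2 | h2
    · exact (th_le.2 h2).trans (le_max_left _ _)
    · exact (th_le.2 h2).trans (le_max_right _ _), by
    have h1 := J_ultra (R := R) u v w
    show th (R.J u w) ≤ max (th (R.J v u)) (th (R.J v w))
    rw [J_comm u v] at h1
    rcases min_le_iff.1 h1 with h2 | h2
    · exact (th_le.2 h2).trans (le_max_left _ _)
    · exact (th_le.2 h2).trans (le_max_right _ _)⟩⟩

theorem pt_apply (v u : V) : pt R v u = th (R.J v u) := rfl

theorem a_pt (v : V) : a (pt R v) = th (R.ht v) := by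
  apply le_antisymm
  · have := a_le (pt R v) v
    rwa [pt_apply, J_self] at this
  · exact le_a _ fun u => th_le.2 (J_le_left v u)

/-! ### continuity of the height coordinate -/

theorem a_cont : Continuous (a : TT R → ℝ) := by
  rw [continuous_iff_continuousAt]
  intro E₀
  rw [ContinuousAt, tendsto_order]
  constructor
  · intro c hc
    rcases lt_or_ge c 0 with h0 | h0
    · exact Eventually.of_forall fun E => lt_of_lt_of_le h0 (a_nonneg E)
    obtain ⟨c', hc1, hc2⟩ := exists_between hc
    obtain ⟨n, hn1, hn2⟩ := th_between' (lt_of_le_of_lt h0 hc1)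
    obtain ⟨m, -, hm⟩ := th_big (E₀ R.v0)
    have hfin := finite_level' (R := R) m (n + 1)
    have e1 : ∀ᶠ E : TT R in 𝓝 E₀, E R.v0 < th m :=
      ((coord_cont R.v0).tendsto E₀).eventually_lt_const hm
    have e2 : ∀ᶠ E : TT R in 𝓝 E₀, ∀ v ∈ {v : V | R.ht v = n + 1 ∧ m ≤ R.J v R.v0}, c' < E v := by
      rw [hfin.eventually_all]
      intro v _
      exact ((coord_cont v).tendsto E₀).eventually_const_lt (lt_of_lt_of_le hc2 (a_le E₀ v))
    filter_upwards [e1, e2] with E h1 h2
    refine lt_of_lt_of_le hc1 (le_a E fun w => ?_)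
    rcases (show R.ht w ≤ n ∨ n + 1 ≤ R.ht w by omega) with hw | hw
    · exact (hn2.trans (th_le.2 hw)).trans (th_le_coord E w)
    · have h3 : c' < E (R.anc w (n + 1)) := by
        by_cases h4 : m ≤ R.J (R.anc w (n + 1)) R.v0
        · exact h2 _ ⟨ht_anc hw, h4⟩
        · push Not at h4
          have h5 := th_lt.2 h4
          have h6 := c2 E (R.anc w (n + 1)) R.v0
          have h7 : c' < th m := hc2.trans (lt_of_le_of_lt (a_le E₀ R.v0) hm)
          rcases le_max_iff.1 h6 with h8 | h8 <;> linarith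
      have h9 := c1 E (R.anc w (n + 1)) w
      rw [J_anc w hw] at h9
      rcases le_max_iff.1 h9 with h8 | h8 <;> linarith
  · intro c hc
    obtain ⟨v, hv⟩ := exists_lt E₀ hc
    filter_upwards [((coord_cont v).tendsto E₀).eventually_lt_const hv] with E hE
    exact lt_of_le_of_lt (a_le E v) hE

theorem vx_locConst {E₀ : TT R} {n : ℤ} (h : a E₀ < th n) :
    ∀ᶠ E : TT R in 𝓝 E₀, a E < th n ∧ vx E n = vx E₀ n := by
  obtain ⟨h1, h2, h3, h4⟩ := vx_spec E₀ h
  filter_upwards [((coord_cont (vx E₀ n)).tendsto E₀).eventually_lt_const h2] with E hE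
  exact ⟨lt_of_le_of_lt (a_le E _) hE, vx_eq h1 hE⟩

/-! ### compactness -/

theorem compact_le (N : ℝ) : IsCompact {E : TT R | E R.v0 ≤ N} := by
  have h1 : IsCompact (Set.pi univ fun v : V => Icc (0:ℝ) (max N (th (R.J v R.v0)))) :=
    isCompact_univ_pi fun v => isCompact_Icc
  refine (closed_emb.isCompact_preimage h1).of_isClosed_subset
    (isClosed_le (coord_cont _) continuous_const) ?_
  intro E hE v _
  exact ⟨(coord_pos E v).le, (c1 E v R.v0).trans (max_le_max hE (le_refl _))⟩

theorem one_le (E : TT R) : 1 ≤ E R.v0 := by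
  have := th_le_coord E R.v0
  rwa [R.ht_v0, th_zero] at this

theorem up_id (E : TT R) (t : ℝ) (h : t ≤ a E) : up E t = E :=
  ext' fun v => max_eq_left (h.trans (a_le E v))

theorem up_base (E : TT R) (t : ℝ) (h : E R.v0 ≤ t) : up E t = up (pt R R.v0) t := by
  apply ext'
  intro v
  rw [up_apply, up_apply, pt_apply]
  apply le_antisymm
  · refine max_le ((c1 E v R.v0).trans (max_le (h.trans (le_max_right _ _)) ?_)) (le_max_right _ _)
    rw [J_comm]; exact le_max_left _ _
  · refine max_le ((c2 E R.v0 v).trans (max_le (h.trans (le_max_right _ _)) (le_max_left _ _)))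
      (le_max_right _ _)

end TT

end Pool.Agent.H895R2.SB
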