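import Mathlib
import Pool.Agent.H895R2.SB.RT

/-! The second coordinate of the planar embedding of the tree rooted at an end. -/

set_option maxHeartbeats 4000000
set_option synthInstance.maxHeartbeats 400000

namespace Pool.Agent.H895R2.SB

open Set Topology Filter

/-- bounding function -/
noncomputable def gk (m : ℤ) (c : ℝ) (k : ℤ) : ℝ := if m ≤ k then 3 * c * (8:ℝ) ^ (-k) else 0

theorem hasSum_gk (m : ℤ) (c : ℝ) : HasSum (gk m c) (3 * c * (8:ℝ) ^ (-m) * (8 / 7)) := by
  have hinj : Function.Injective (fun j : ℕ => m + (j : ℤ)) := by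
    intro i j h
    simp only at h
    omega
  rw [← hinj.hasSum_iff]
  · have h1 : HasSum (fun j : ℕ => ((1:ℝ) / 8) ^ j) (1 - 1 / 8)⁻¹ :=
      hasSum_geometric_of_lt_one (by norm_num) (by norm_num)
    have h2 := h1.mul_left (3 * c * (8:ℝ) ^ (-m))
    have e : (1 - 1 / 8 : ℝ)⁻¹ = 8 / 7 := by norm_num
    rw [e] at h2
    refine h2.congr_fun ?_
    intro j
    simp only [Function.comp, gk]
    have e2 : (8:ℝ) ^ (-(j:ℤ)) = (1 / 8) ^ j := by
      rw [zpow_neg, zpow_natCast, one_div, inv_pow]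
    rw [if_pos (by omega), neg_add, zpow_add₀ (by norm_num), e2]
    ring
  · intro k hk
    unfold gk
    rw [if_neg]
    intro h
    exact hk ⟨(k - m).toNat, by simp only; omega⟩

theorem gk_nonneg (m : ℤ) {c : ℝ} (hc : 0 ≤ c) (k : ℤ) : 0 ≤ gk m c k := by
  unfold gk
  split_ifs
  · positivity
  · exact le_refl _

namespace TT

open RT

variable {V : Type} {R : RT V}

/-- fraction of the edge below height `k` that has been traversed -/
noncomputable def ck (k : ℤ) (t : ℝ) : ℝ := fc ((th (k - 1) - t) / (th (k - 1) - th k))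

theorem ck_den (k : ℤ) : 0 < th (k - 1) - th k := by
  have := th_lt (m := k) (n := k - 1)
  linarith [this.2 (by omega)]

theorem ck_cont (k : ℤ) : Continuous (ck k) :=
  fc_cont.comp ((continuous_const.sub continuous_id).div_const _)

theorem ck_nonneg (k : ℤ) (t : ℝ) : 0 ≤ ck k t := fc_nonneg _
theorem ck_le (k : ℤ) (t : ℝ) : ck k t ≤ 1 := fc_le _

theorem ck_zero {k : ℤ} {t : ℝ} (h : th (k - 1) ≤ t) : ck k t = 0 := by
  unfold ck
  apply fc_neg
  exact div_nonpos_of_nonpos_of_nonneg (by linarith) (ck_den k).le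

theorem ck_pos {k : ℤ} {t : ℝ} (h : t < th (k - 1)) : 0 < ck k t := by
  unfold ck fc
  apply lt_max_of_lt_right
  apply lt_min one_pos
  exact div_pos (by linarith) (ck_den k)

theorem ck_one {k : ℤ} {t : ℝ} (h : t ≤ th k) : ck k t = 1 := by
  unfold ck
  apply fc_big
  rw [le_div_iff₀ (ck_den k)]
  linarith

theorem ck_anti {k l : ℤ} (h : k ≤ l) (t : ℝ) : ck l t ≤ ck k t := by
  rcases h.eq_or_lt with h | h
  · rw [h]
  · rcases le_total t (th k) with h1 | h1
    · rw [ck_one h1]; exact ck_le _ _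
    · rw [ck_zero]
      · exact ck_nonneg _ _
      · exact (th_le.2 (by omega)).trans h1

open Classical in
/-- digit at height `k` -/
noncomputable def dk (k : ℤ) (E : TT R) : ℝ :=
  if a E < th (k - 1) then (R.dg (vx E (k - 1)) : ℝ) else 0

theorem dk_nonneg (k : ℤ) (E : TT R) : 0 ≤ dk k E := by
  unfold dk; split_ifs <;> positivity

theorem dk_le (k : ℤ) (E : TT R) : dk k E ≤ 3 := by
  unfold dk
  split_ifs
  · exact_mod_cast R.dg_le _
  · norm_num

/-- term of the series -/
noncomputable def Dk (k : ℤ) (E : TT R) : ℝ := dk k E * ck k (a E) * (8:ℝ) ^ (-k)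

theorem Dk_nonneg (k : ℤ) (E : TT R) : 0 ≤ Dk k E := by
  unfold Dk
  have := dk_nonneg k E
  have := ck_nonneg k (a E)
  positivity

theorem Dk_le (k : ℤ) (E : TT R) : Dk k E ≤ 3 * ck k (a E) * (8:ℝ) ^ (-k) := by
  unfold Dk
  have := dk_le k E
  have := ck_nonneg k (a E)
  gcongr

theorem Dk_low {E : TT R} {m k : ℤ} (h : E R.v0 < th m) (hk : k ≤ m) : Dk k E = 0 := by
  have h0 : (m : ℤ) < 0 := by
    have h1 := one_le E
    have h2 : th 0 < th m := by rw [th_zero]; linarith
    exact th_lt.1 h2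
  have h1 : E R.v0 < th (k - 1) := h.trans (th_lt.2 (by omega))
  have h2 : k ≤ R.ht R.v0 := by rw [R.ht_v0]; omega
  have h3 := lt_anc (n := k - 1) h1
  rw [sub_add_cancel] at h3
  have h4 : vx E (k - 1) = R.anc R.v0 k := vx_eq (by rw [ht_anc h2]; ring) h3
  have h5 : dk k E = 0 := by
    unfold dk
    split_ifs
    · rw [h4]
      unfold RT.anc
      rw [R.dg_anc]
      simp
    · rfl
  unfold Dk
  rw [h5]; ring

theorem Dk_bound {E : TT R} {m : ℤ} (h : E R.v0 < th m) (k : ℤ) : Dk k E ≤ gk m 1 k := by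
  unfold gk
  split_ifs with hk
  · have h1 := Dk_le k E
    have h2 := ck_le k (a E)
    refine h1.trans ?_
    gcongr
  · rw [Dk_low h (by omega)]

theorem Dk_cont (k : ℤ) : Continuous (Dk k : TT R → ℝ) := by
  have hc : Continuous fun E : TT R => ck k (a E) := (ck_cont k).comp a_cont
  rw [continuous_iff_continuousAt]
  intro E₀
  rcases lt_or_ge (a E₀) (th (k - 1)) with h | h
  · have h1 : ContinuousAt (fun E : TT R => (R.dg (vx E₀ (k - 1)) : ℝ) * ck k (a E) * (8:ℝ) ^ (-k)) E₀ :=
      ((continuous_const.mul hc).mul continuous_const).continuousAt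
    refine h1.congr ?_
    filter_upwards [vx_locConst h] with E hE
    unfold Dk dk
    rw [if_pos hE.1, hE.2]
  · have h0 : ck k (a E₀) = 0 := ck_zero h
    have h1 : Dk k E₀ = 0 := by unfold Dk; rw [h0]; ring
    rw [ContinuousAt, h1]
    have h2 : Tendsto (fun E : TT R => 3 * ck k (a E) * (8:ℝ) ^ (-k)) (𝓝 E₀) (𝓝 0) := by
      have := ((hc.const_mul 3).mul_const ((8:ℝ) ^ (-k))).tendsto E₀
      rw [h0] at this
      simpa using this
    exact squeeze_zero (fun E => Dk_nonneg k E) (fun E => Dk_le k E) h2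

/-- the second coordinate -/
noncomputable def κ (E : TT R) : ℝ := ∑' k : ℤ, Dk k E

theorem Dk_summable (E : TT R) : Summable fun k : ℤ => Dk k E := by
  obtain ⟨m, -, hm⟩ := th_big (E R.v0)
  exact Summable.of_nonneg_of_le (fun k => Dk_nonneg k E) (fun k => Dk_bound hm k)
    (hasSum_gk m 1).summable

theorem κ_cont : Continuous (κ : TT R → ℝ) := by
  rw [continuous_iff_continuousAt]
  intro E₀
  obtain ⟨m, -, hm⟩ := th_big (E₀ R.v0)
  have hopen : IsOpen {E : TT R | E R.v0 < th m} := isOpen_lt (coord_cont _) continuous_const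
  have h1 : ContinuousOn (fun E : TT R => ∑' k : ℤ, Dk k E) {E : TT R | E R.v0 < th m} := by
    refine continuousOn_tsum (u := gk m 1) (fun k => (Dk_cont k).continuousOn)
      (hasSum_gk m 1).summable ?_
    intro k E hE
    rw [Real.norm_eq_abs, abs_of_nonneg (Dk_nonneg k E)]
    exact Dk_bound hE k
  exact h1.continuousAt (hopen.mem_nhds hm)

theorem vx_low {E : TT R} {n : ℤ} (h : E R.v0 < th n) : vx E n = R.anc R.v0 (n + 1) := by
  have h1 := lt_ht h
  exact vx_eq (ht_anc h1) (lt_anc h)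

theorem inj {E E' : TT R} (ha : a E = a E') (hκ : κ E = κ E') : E = E' := by
  refine eq_of_path ha ?_
  by_contra hcon
  push Not at hcon
  obtain ⟨n₁, hn₁, hne₁⟩ := hcon
  obtain ⟨m, -, hm⟩ := th_big (E R.v0)
  obtain ⟨m', -, hm'⟩ := th_big (E' R.v0)
  obtain ⟨n, ⟨hn, hne⟩, hmin⟩ := Int.exists_least_of_bdd
    (P := fun n => a E < th n ∧ vx E n ≠ vx E' n)
    ⟨min m m', fun z hz => by
      by_contra h
      push Not at h
      obtain ⟨h1, h2⟩ := lt_min_iff.1 h
      apply hz.2
      rw [vx_low (hm.trans (th_lt.2 h1)), vx_low (hm'.trans (th_lt.2 h2))]⟩ ⟨n₁, hn₁, hne₁⟩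
  have hn' : a E' < th n := by rw [← ha]; exact hn
  -- equality below
  have heq : ∀ k ≤ n, Dk k E = Dk k E' := by
    intro k hk
    unfold Dk dk
    rw [ha]
    split_ifs with h
    · have : vx E (k - 1) = vx E' (k - 1) := by
        by_contra h2
        have := hmin (k - 1) ⟨by rw [ha]; exact h, h2⟩
        omega
      rw [this]
    · rfl
  -- the digits at height `n + 1` differ
  have hdg : R.dg (vx E n) ≠ R.dg (vx E' n) := by
    intro h
    apply hne
    refine R.dg_inj _ _ ?_ h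
    rw [par_vx E hn, par_vx E' hn']
    by_contra h2
    have := hmin (n - 1) ⟨hn.trans (th_lt.2 (by omega)), h2⟩
    omega
  set c := ck (n + 1) (a E) with hc
  have hcpos : 0 < c := ck_pos (by rw [add_sub_cancel_right]; exact hn)
  let f : ℤ → ℝ := fun k => Dk k E - Dk k E'
  have hfs : Summable f := (Dk_summable E).sub (Dk_summable E')
  have hf0 : ∑' k, f k = 0 := by
    rw [(Dk_summable E).tsum_sub (Dk_summable E')]
    exact sub_eq_zero.2 hκ
  have h1 := hfs.tsum_eq_add_tsum_ite (n + 1)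
  rw [hf0] at h1
  -- the main term
  have hmain : c * (8:ℝ) ^ (-(n + 1)) ≤ |f (n + 1)| := by
    have e1 : f (n + 1) = ((R.dg (vx E n) : ℝ) - R.dg (vx E' n)) * c * (8:ℝ) ^ (-(n + 1)) := by
      show Dk (n + 1) E - Dk (n + 1) E' = _
      unfold Dk dk
      rw [← ha, add_sub_cancel_right, if_pos hn, if_pos hn, ← hc]
      ring
    rw [e1, abs_mul, abs_mul, abs_of_pos hcpos, abs_of_pos (by positivity : (0:ℝ) < 8 ^ (-(n + 1)))]
    have e2 : (1:ℝ) ≤ |(R.dg (vx E n) : ℝ) - R.dg (vx E' n)| := by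
      have e3 : (1:ℤ) ≤ |(R.dg (vx E n) : ℤ) - R.dg (vx E' n)| :=
        Int.one_le_abs (sub_ne_zero.2 (by exact_mod_cast hdg))
      have e4 : ((1:ℤ):ℝ) ≤ ((|(R.dg (vx E n) : ℤ) - R.dg (vx E' n)| : ℤ) : ℝ) := by exact_mod_cast e3
      rw [Int.cast_abs] at e4
      push_cast at e4
      exact e4
    have e5 : (0:ℝ) < c * 8 ^ (-(n + 1)) := by positivity
    nlinarith
  -- the rest
  have hrest : |∑' k, (if k = n + 1 then 0 else f k)| ≤ 3 * c * (8:ℝ) ^ (-(n + 2)) * (8 / 7) := by
    have hb : ∀ k, ‖(if k = n + 1 then 0 else f k)‖ ≤ gk (n + 2) c k := by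
      intro k
      rw [Real.norm_eq_abs]
      split_ifs with h
      · rw [abs_zero]; exact gk_nonneg _ hcpos.le _
      · rcases (show k ≤ n ∨ n + 2 ≤ k by omega) with h2 | h2
        · have : f k = 0 := sub_eq_zero.2 (heq k h2)
          rw [this, abs_zero]; exact gk_nonneg _ hcpos.le _
        · unfold gk
          rw [if_pos h2]
          have e1 := Dk_le k E
          have e2 := Dk_le k E'
          have e3 := Dk_nonneg k E
          have e4 := Dk_nonneg k E'
          have e5 : ck k (a E) ≤ c := ck_anti (by omega) _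
          rw [← ha] at e2
          have e6 : 3 * ck k (a E) * (8:ℝ) ^ (-k) ≤ 3 * c * (8:ℝ) ^ (-k) := by gcongr
          show |Dk k E - Dk k E'| ≤ _
          rw [abs_le]
          constructor <;> linarith
    have h2 := tsum_of_norm_bounded (hasSum_gk (n + 2) c) hb
    rwa [Real.norm_eq_abs] at h2
  have e : (8:ℝ) ^ (-(n + 2)) = (8:ℝ) ^ (-(n + 1)) * (1 / 8) := by
    have : -(n + 2) = -(n + 1) + (-1) := by ring
    rw [this, zpow_add₀ (by norm_num)]
    norm_num
  rw [e] at hrest
  have h2 : f (n + 1) = -∑' k, (if k = n + 1 then 0 else f k) := by linarith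
  rw [h2, abs_neg] at hmain
  have e5 : (0:ℝ) < c * 8 ^ (-(n + 1)) := by positivity
  nlinarith

end TT

end Pool.Agent.H895R2.SB
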