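import Mathlib
import Pool.Agent.H895R2.SB.Kap
import Pool.Agent.Helper376.CL.WordLem
import Pool.Agent.Helper376.CL.CellLem

/-! The Cayley tree of the free group of rank two, rooted at an end. -/

set_option maxHeartbeats 4000000
set_option synthInstance.maxHeartbeats 400000

namespace Pool.Agent.H895R2.SB

open Set Topology Filter
open Pool.Agent.Helper376.CL

/-- first letter of the page word, or the first generator on the axis -/
def fl (v : F2) : A := match pw v with
  | [] => (0, true)
  | x :: _ => x

theorem fl_nil {v : F2} (h : pw v = []) : fl v = (0, true) := by unfold fl; rw [h]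
theorem fl_cons {v : F2} {x : A} {l : List A} (h : pw v = x :: l) : fl v = x := by
  unfold fl; rw [h]

/-- parent -/
def parF (v : F2) : F2 := lt (invA (fl v)) * v

/-- height -/
def htF (v : F2) : ℤ := (pw v).length + kap v

theorem invA_invA (x : A) : invA (invA x) = x := by simp [invA]

theorem lt_invA (x : A) : lt (invA x) = (lt x)⁻¹ := (lt_inv x).symm

theorem lt_fl_mul_parF (v : F2) : lt (fl v) * parF v = v := by
  unfold parF
  rw [lt_invA, mul_inv_cancel_left]

theorem parF_nil {v : F2} (h : pw v = []) : pw (parF v) = [] ∧ kap (parF v) = kap v - 1 := by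
  unfold parF
  rw [fl_nil h]
  rcases edge_type v (invA (0, true)) with ⟨_, _, h1, h2⟩ | ⟨h1, _, _⟩ | ⟨_, h1, _⟩
  · refine ⟨h1, ?_⟩
    rw [h2]
    simp [sg, invA]
    ring
  · rw [h] at h1
    exact absurd rfl h1
  · rw [h] at h1
    simp at h1

theorem parF_cons {v : F2} {y : A} {l : List A} (h : pw v = y :: l) :
    pw (parF v) = l ∧ kap (parF v) = kap v := by
  unfold parF
  rw [fl_cons h]
  rcases edge_type v (invA y) with ⟨_, h1, _, _⟩ | ⟨h1, _, _⟩ | ⟨_, h1, h2⟩
  · rw [h] at h1
    simp at h1
  · rw [h] at h1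
    unfold ok invA at h1
    have := h1 rfl
    simp at this
  · rw [h] at h1
    exact ⟨(List.cons.inj h1).2.symm, h2⟩

theorem htF_parF (v : F2) : htF (parF v) = htF v - 1 := by
  unfold htF
  rcases hv : pw v with _ | ⟨y, l⟩
  · obtain ⟨h1, h2⟩ := parF_nil hv
    rw [h1, h2]; simp
  · obtain ⟨h1, h2⟩ := parF_cons hv
    rw [h1, h2]; push_cast [List.length_cons]; ring

/-- a letter not pointing to the parent leads to a child -/
theorem fl_lt_mul {v : F2} {x : A} (h : x ≠ invA (fl v)) : fl (lt x * v) = x := by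
  rcases edge_type v x with ⟨h0, h1, h2, _⟩ | ⟨_, h1, _⟩ | ⟨_, h1, _⟩
  · rw [fl_nil h2]
    rw [fl_nil h1] at h
    obtain ⟨i, b⟩ := x
    simp only at h0
    subst h0
    cases b
    · exact absurd rfl h
    · rfl
  · rw [fl_cons h1]
  · rw [fl_cons h1, invA_invA] at h
    exact absurd rfl h

theorem parF_lt_mul {v : F2} {x : A} (h : x ≠ invA (fl v)) : parF (lt x * v) = v := by
  unfold parF
  rw [fl_lt_mul h, lt_invA, inv_mul_cancel_left]

/-- digit of a letter -/
def code : A → ℕ
  | (0, true) => 0
  | (0, false) => 1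
  | (1, true) => 2
  | (1, false) => 3

theorem code_inj : ∀ x y : A, code x = code y → x = y := by decide
theorem code_le : ∀ x : A, code x ≤ 3 := by decide

theorem iter_parF (n : ℕ) : ∀ v : F2, (pw v).length = n → pw (parF^[n] v) = [] ∧ kap (parF^[n] v) = kap v := by
  induction n with
  | zero => intro v hv; exact ⟨List.eq_nil_of_length_eq_zero hv, rfl⟩
  | succ n ih =>
    intro v hv
    rcases hw : pw v with _ | ⟨y, l⟩
    · rw [hw] at hv; simp at hv
    · obtain ⟨h1, h2⟩ := parF_cons hw
      rw [Function.iterate_succ_apply]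
      have := ih (parF v) (by rw [h1]; rw [hw] at hv; simpa using hv)
      rw [h2] at this
      exact this

theorem iter_parF_nil (n : ℕ) : ∀ v : F2, pw v = [] → pw (parF^[n] v) = [] ∧ kap (parF^[n] v) = kap v - n := by
  induction n with
  | zero => intro v hv; simp [hv]
  | succ n ih =>
    intro v hv
    obtain ⟨h1, h2⟩ := parF_nil hv
    rw [Function.iterate_succ_apply]
    obtain ⟨h3, h4⟩ := ih (parF v) h1
    refine ⟨h3, ?_⟩
    rw [h4, h2]; push_cast; ring

theorem pw_one : pw (1 : F2) = [] := by
  unfold pw; rw [FreeGroup.toWord_one]; rfl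

theorem kap_one : kap (1 : F2) = 0 := by
  unfold kap; rw [FreeGroup.toWord_one]; rfl

/-- the free group as a tree rooted at an end -/
def RF : RT F2 where
  par := parF
  ht := htF
  dg v := code (fl v)
  v0 := 1
  ht_par := htF_parF
  common u v := by
    obtain ⟨h1, h2⟩ := iter_parF _ u rfl
    obtain ⟨h3, h4⟩ := iter_parF _ v rfl
    set u' := parF^[(pw u).length] u
    set v' := parF^[(pw v).length] v
    obtain ⟨h5, h6⟩ := iter_parF_nil (kap u' - min (kap u') (kap v')).toNat u' h1
    obtain ⟨h7, h8⟩ := iter_parF_nil (kap v' - min (kap u') (kap v')).toNat v' h3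
    refine ⟨(kap u' - min (kap u') (kap v')).toNat + (pw u).length,
      (kap v' - min (kap u') (kap v')).toNat + (pw v).length, ?_⟩
    rw [Function.iterate_add_apply, Function.iterate_add_apply]
    apply pw_kap_inj
    simp only
    rw [h5, h6, h7, h8]
    congr 1
    omega
  dg_le v := code_le _
  dg_inj u v h h' := by
    have h1 := code_inj _ _ h'
    rw [← lt_fl_mul_parF u, ← lt_fl_mul_parF v, h, h1]
  dg_anc n := by
    rw [fl_nil (iter_parF_nil n 1 pw_one).1]
    rfl
  ht_v0 := by unfold htF; rw [pw_one, kap_one]; simp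

/-! ### points of the tree -/

theorem ptf_flip (v : F2) (x : A) (t : ℝ) : ptf v x t = ptf (lt x * v) (invA x) (1 - t) := by
  funext u
  simp only [ptf]
  rw [lt_invA, inv_mul_cancel_left, sub_sub_cancel, add_comm]

/-- every point lies on an edge from a vertex to its parent -/
theorem normal_form (b : Tree) : ∃ (v : F2) (s : ℝ), 0 ≤ s ∧ s ≤ 1 ∧ b.1 = ptf v (invA (fl v)) s := by
  obtain ⟨v, x, t, h0, h1, h⟩ := b.2
  by_cases hx : x = invA (fl v)
  · subst hx
    exact ⟨v, t, h0, h1, h⟩
  · refine ⟨lt x * v, 1 - t, by linarith, by linarith, ?_⟩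
    rw [fl_lt_mul hx, h, ptf_flip]

open RT

/-- value of an affine function in normal form -/
theorem lin_nf {b : Tree} {v : F2} {s : ℝ} (h : b.1 = ptf v (invA (fl v)) s) (φ : F2 → ℝ) :
    lin φ b = (1 - s) * φ v + s * φ (parF v) := lin_ptf φ b v _ s h

/-- height coordinate on an edge -/
theorem edge_bounds (v : F2) {s : ℝ} (h0 : 0 ≤ s) (h1 : s ≤ 1) :
    th (htF v) ≤ (1 - s) * th (htF v) + s * th (htF v - 1) ∧
    (1 - s) * th (htF v) + s * th (htF v - 1) ≤ th (htF v - 1) := by
  have h2 : th (htF v) < th (htF v - 1) := th_lt.2 (by omega)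
  constructor <;> nlinarith

theorem lin_th {b : Tree} {v : F2} {s : ℝ} (h : b.1 = ptf v (invA (fl v)) s) (h0 : 0 ≤ s) (h1 : s ≤ 1)
    (u : F2) : lin (fun w => th (RF.J w u)) b =
      max (th (RF.J v u)) ((1 - s) * th (htF v) + s * th (htF v - 1)) := by
  rw [lin_nf h]
  have h2 : RF.J (parF v) u = min (RF.J v u) (htF v - 1) := RT.J_par (R := RF) v u
  have h3 : RF.J v u ≤ htF v := J_le_left (R := RF) v u
  obtain ⟨b1, b2⟩ := edge_bounds v h0 h1
  rw [h2]
  rcases (show RF.J v u ≤ htF v - 1 ∨ RF.J v u = htF v by omega) with h4 | h4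
  · rw [min_eq_left h4, max_eq_left (b2.trans (th_le.2 h4))]
    ring
  · rw [h4, min_eq_right (by omega), max_eq_right b1]

/-- the embedding of the tree -/
noncomputable def jT (b : Tree) : TT RF :=
  ⟨fun u => lin (fun w => th (RF.J w u)) b, by
    obtain ⟨v, s, h0, h1, h⟩ := normal_form b
    have e : (fun u => lin (fun w => th (RF.J w u)) b) =
        fun u => TT.up (TT.pt RF v) ((1 - s) * th (htF v) + s * th (htF v - 1)) u := by
      funext u
      rw [lin_th h h0 h1, TT.up_apply, TT.pt_apply]
    rw [e]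
    exact (TT.up (TT.pt RF v) _).2⟩

theorem jT_nf {b : Tree} {v : F2} {s : ℝ} (h : b.1 = ptf v (invA (fl v)) s) (h0 : 0 ≤ s) (h1 : s ≤ 1) :
    jT b = TT.up (TT.pt RF v) ((1 - s) * th (htF v) + s * th (htF v - 1)) := by
  apply TT.ext'
  intro u
  rw [TT.up_apply, TT.pt_apply]
  exact lin_th h h0 h1 u

theorem jT_cont : Continuous jT := by
  apply Continuous.subtype_mk
  exact continuous_pi fun u => continuous_lin _

theorem a_jT (b : Tree) : TT.a (jT b) = lin (fun w => th (htF w)) b := by
  obtain ⟨v, s, h0, h1, h⟩ := normal_form b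
  rw [jT_nf h h0 h1, TT.a_up, TT.a_pt, lin_nf h, htF_parF]
  exact max_eq_right (edge_bounds v h0 h1).1

theorem a_jT_pos (b : Tree) : 0 < TT.a (jT b) := by
  obtain ⟨v, s, h0, h1, h⟩ := normal_form b
  rw [jT_nf h h0 h1, TT.a_up, TT.a_pt]
  exact lt_of_lt_of_le (th_pos _) (le_max_left _ _)

theorem jT_surj {E : TT RF} (hE : 0 < TT.a E) : ∃ b, jT b = E := by
  obtain ⟨n, h1, h2⟩ := th_between hE
  obtain ⟨e1, e2, e3, e4⟩ := TT.vx_spec E h2
  set v : F2 := TT.vx E n
  have hv : htF v = n + 1 := e1
  set s : ℝ := (TT.a E - th (n + 1)) / (th n - th (n + 1)) with hs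
  have hd : 0 < th n - th (n + 1) := by have := th_lt (m := n + 1) (n := n); linarith [this.2 (by omega)]
  have hs0 : 0 ≤ s := div_nonneg (by linarith) hd.le
  have hs1 : s ≤ 1 := by rw [hs, div_le_one hd]; linarith
  refine ⟨⟨ptf v (invA (fl v)) s, v, _, s, hs0, hs1, rfl⟩, ?_⟩
  rw [jT_nf rfl hs0 hs1, hv, add_sub_cancel_right]
  have e5 : (1 - s) * th (n + 1) + s * th n = TT.a E := by
    have : s * (th n - th (n + 1)) = TT.a E - th (n + 1) := div_mul_cancel₀ _ hd.ne'
    linarith
  rw [e5]
  apply TT.ext'
  intro u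
  rw [TT.up_apply, TT.pt_apply, TT.val_eq E h2 h1 u, max_comm]

/-! ### the inverse -/

/-- indicator of the descendants of `u` -/
noncomputable def De (u v : F2) : ℝ := if RF.J v u = htF u then 1 else 0

theorem ck_jT (b : Tree) (u : F2) : TT.ck (htF u) (jT b u) = lin (De u) b := by
  obtain ⟨v, s, h0, h1, h⟩ := normal_form b
  rw [jT_nf h h0 h1, TT.up_apply, TT.pt_apply, lin_nf h]
  have h2 : RF.J (parF v) u = min (RF.J v u) (htF v - 1) := RT.J_par (R := RF) v u
  have h3 : RF.J v u ≤ htF v := J_le_left (R := RF) v u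
  have h3' : RF.J v u ≤ htF u := J_le_right (R := RF) v u
  obtain ⟨b1, b2⟩ := edge_bounds v h0 h1
  unfold De
  rw [h2]
  rcases (show RF.J v u ≤ htF v - 1 ∨ RF.J v u = htF v by omega) with h4 | h4
  · rw [min_eq_left h4, max_eq_left (b2.trans (th_le.2 h4))]
    split_ifs with h5
    · rw [h5, TT.ck_one (le_refl _)]; ring
    · rw [TT.ck_zero (th_le.2 (by omega))]; ring
  · rw [h4, min_eq_right (by omega), max_eq_right b1]
    rcases (show htF v = htF u ∨ htF v ≤ htF u - 1 by omega) with h5 | h5
    · rw [if_pos h5, if_neg (by omega), ← h5]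
      unfold TT.ck
      have hd := TT.ck_den (htF v)
      have e : (th (htF v - 1) - ((1 - s) * th (htF v) + s * th (htF v - 1))) /
          (th (htF v - 1) - th (htF v)) = 1 - s := by
        rw [div_eq_iff hd.ne']; ring
      rw [e]
      unfold fc
      rw [min_eq_right (by linarith), max_eq_right (by linarith)]
      ring
    · rw [if_neg (by omega), if_neg (by omega), TT.ck_zero]
      · ring
      · exact (th_le.2 h5).trans b1

/-- letters leading to children -/
noncomputable def chl (u : F2) : Finset A := Finset.univ.filter fun x => x ≠ invA (fl u)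

theorem De_telescope (u v : F2) :
    De u v - ∑ x ∈ chl u, De (lt x * u) v = if v = u then 1 else 0 := by
  have hpar : ∀ x ∈ chl u, parF (lt x * u) = u := fun x hx =>
    parF_lt_mul (Finset.mem_filter.1 hx).2
  have hht : ∀ x ∈ chl u, htF (lt x * u) = htF u + 1 := fun x hx => by
    have h1 := htF_parF (lt x * u)
    rw [hpar x hx] at h1
    omega
  have hJ : ∀ x ∈ chl u, RF.J v u = min (RF.J v (lt x * u)) (htF u) := fun x hx => by
    have h1 : RF.J (parF (lt x * u)) v = min (RF.J (lt x * u) v) (htF (lt x * u) - 1) :=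
      RT.J_par (R := RF) (lt x * u) v
    rw [hpar x hx, hht x hx, add_sub_cancel_right, RT.J_comm (R := RF) u v,
      RT.J_comm (R := RF) (lt x * u) v] at h1
    exact h1
  have hle : RF.J v u ≤ htF u := J_le_right (R := RF) v u
  have hle' : RF.J v u ≤ htF v := J_le_left (R := RF) v u
  by_cases h : RF.J v u = htF u
  · rcases (show htF v = htF u ∨ htF u + 1 ≤ htF v by omega) with h1 | h1
    · have hvu : v = u := RT.eq_of_J (R := RF) (show RF.J v u = htF v by omega) h
      subst hvu
      rw [if_pos rfl, Finset.sum_eq_zero]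
      · unfold De; rw [if_pos h]; ring
      · intro x hx
        unfold De
        rw [if_neg]
        intro h2
        have h3 : RF.J v (lt x * v) ≤ htF v := J_le_left _ _
        have h4 := hht x hx
        omega
    · -- the child below `v`
      have hne : v ≠ u := fun h2 => by rw [h2] at h1; omega
      rw [if_neg hne]
      set w : F2 := RF.anc v (htF u + 1) with hw
      have hwht : htF w = htF u + 1 := RT.ht_anc (R := RF) h1
      have hwpar : parF w = u := by
        have h2 : parF w = RF.anc v (htF u + 1 - 1) := RT.par_anc (R := RF) h1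
        rw [add_sub_cancel_right] at h2
        have h3 := RT.anc_J (R := RF) v u
        rw [h] at h3
        have h4 : RF.anc u (htF u) = u := RT.anc_self (R := RF) u
        rw [h2, h3, h4]
      have hfl : fl w ∈ chl u := by
        refine Finset.mem_filter.2 ⟨Finset.mem_univ _, ?_⟩
        intro h2
        have h3 := lt_fl_mul_parF w
        rw [hwpar, h2] at h3
        have h4 : htF (parF u) = htF u - 1 := htF_parF u
        have h5 : parF u = w := h3
        rw [h5] at h4
        omega
      have hwu : lt (fl w) * u = w := by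
        have h3 := lt_fl_mul_parF w
        rwa [hwpar] at h3
      rw [Finset.sum_eq_single_of_mem (fl w) hfl]
      · unfold De
        rw [if_pos h, hwu, if_pos]
        · ring
        · rw [hwht, RT.J_comm]
          exact RT.J_anc (R := RF) v h1
      · intro x hx hxne
        unfold De
        rw [if_neg]
        intro h2
        apply hxne
        have h3 := RT.anc_J (R := RF) v (lt x * u)
        rw [h2] at h3
        have h4 : RF.anc (lt x * u) (htF (lt x * u)) = lt x * u := RT.anc_self (R := RF) (lt x * u)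
        rw [h4, hht x hx, ← hw] at h3
        rw [h3]
        exact (fl_lt_mul (Finset.mem_filter.1 hx).2).symm
  · have hne : v ≠ u := fun h2 => by
      subst h2
      exact h (RT.J_self (R := RF) v)
    rw [if_neg hne, Finset.sum_eq_zero]
    · unfold De; rw [if_neg h]; ring
    · intro x hx
      unfold De
      rw [if_neg]
      intro h2
      have h3 := hJ x hx
      have h4 := hht x hx
      rw [h2, h4] at h3
      omega

/-- the inverse map -/
noncomputable def bT (E : TT RF) (u : F2) : ℝ :=
  TT.ck (htF u) (E u) - ∑ x ∈ chl u, TT.ck (htF (lt x * u)) (E (lt x * u))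

theorem bT_cont : Continuous bT := by
  apply continuous_pi
  intro u
  refine ((TT.ck_cont _).comp (TT.coord_cont (R := RF) u)).sub (continuous_finsetSum _ fun x _ => ?_)
  exact (TT.ck_cont _).comp (TT.coord_cont (R := RF) (lt x * u))

theorem lin_delta (b : Tree) (u : F2) : lin (fun v => if v = u then 1 else 0) b = b.1 u := by
  unfold lin
  rw [tsum_eq_single u]
  · simp
  · intro v hv
    simp only
    rw [if_neg hv, mul_zero]

theorem bT_jT (b : Tree) : bT (jT b) = b.1 := by
  funext u
  unfold bT
  rw [ck_jT]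
  simp_rw [ck_jT]
  obtain ⟨v, s, h0, h1, h⟩ := normal_form b
  rw [← lin_delta b u, lin_nf h, lin_nf h]
  simp_rw [lin_nf h]
  rw [Finset.sum_add_distrib, ← Finset.mul_sum, ← Finset.mul_sum, ← De_telescope u v,
    ← De_telescope u (parF v)]
  ring

/-- homeomorphism onto the image -/
noncomputable def hT : Tree ≃ₜ {E : TT RF // 0 < TT.a E} where
  toFun b := ⟨jT b, a_jT_pos b⟩
  invFun E := ⟨bT E.1, by
    obtain ⟨b, hb⟩ := jT_surj E.2
    rw [← hb, bT_jT]
    exact b.2⟩
  left_inv b := Subtype.ext (bT_jT b)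
  right_inv E := by
    obtain ⟨b, hb⟩ := jT_surj E.2
    apply Subtype.ext
    show jT ⟨bT E.1, _⟩ = E.1
    have : (⟨bT E.1, by rw [← hb, bT_jT]; exact b.2⟩ : Tree) = b := by
      apply Subtype.ext
      show bT E.1 = b.1
      rw [← hb, bT_jT]
    rw [this, hb]
  continuous_toFun := jT_cont.subtype_mk _
  continuous_invFun := by
    apply Continuous.subtype_mk
    exact bT_cont.comp continuous_subtype_val

theorem jT_emb : IsOpenEmbedding jT := by
  have h1 : jT = Subtype.val ∘ hT := rfl
  rw [h1]
  exact (isOpen_lt continuous_const TT.a_cont).isOpenEmbedding_subtypeVal.comp hT.isOpenEmbedding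

theorem jT_range : range jT = {E | 0 < TT.a E} := by
  ext E
  constructor
  · rintro ⟨b, rfl⟩; exact a_jT_pos b
  · intro h; exact jT_surj h

end Pool.Agent.H895R2.SB
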