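import Mathlib
import Pool.Agent.H895R2.SB.F2RT
import Pool.Agent.Helper376.CL.THLem
import Pool.Agent.Helper376.CL.ThatAE

/-! The factor of the free group of rank two. -/

set_option maxHeartbeats 4000000
set_option synthInstance.maxHeartbeats 400000

namespace Pool.Agent.H895R2.SB

open Set Topology Filter
open Pool.Agent.Helper376.CL

/-! ### the tree is an absolute extensor -/

theorem isAE_Tree : IsAE Tree := by
  intro M _ B hB f hf
  rcases B.eq_empty_or_nonempty with hne | hne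
  · subst hne
    exact ⟨fun _ => vtx 1, continuous_const, fun a => a.2.elim⟩
  obtain ⟨h, -⟩ := exists_homeo_tree
  obtain ⟨F, hF, hFa⟩ := isAE_That M B hB (fun b => (h (f b)).1)
    (continuous_subtype_val.comp (h.continuous.comp hf))
  have hl : ∀ m, 0 ≤ min 1 (Metric.infDist m B) := fun m => le_min zero_le_one Metric.infDist_nonneg
  have hl1 : ∀ m, min 1 (Metric.infDist m B) ≤ 1 := fun m => min_le_left _ _
  have hmem : ∀ m, (((F m).1.1, tr (F m).1.2 (min 1 (Metric.infDist m B))) : ℝ × (List A → ℝ)) ∈ That := by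
    intro m
    refine ⟨tr_mem (F m).2.1 (hl m) (hl1 m), ?_⟩
    rcases (F m).2.2 with h1 | h1
    · left
      show tr (F m).1.2 _ = root
      rw [h1]; exact tr_root_ThatAE _
    · exact Or.inr h1
  have hfin : ∀ m, IsFin (tr (F m).1.2 (min 1 (Metric.infDist m B))) := by
    intro m
    by_cases hm : m ∈ B
    · rw [Metric.infDist_zero_of_mem hm, min_eq_right zero_le_one, tr_zero (F m).2.1, hFa ⟨m, hm⟩]
      exact (h (f ⟨m, hm⟩)).2
    · have hd : 0 < Metric.infDist m B := (hB.notMem_iff_infDist_pos hne).1 hm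
      exact tr_isFin (F m).2.1 (lt_min one_pos hd) (hl1 m)
  let F' : M → {p : ↥That // IsFin p.1.2} := fun m => ⟨⟨_, hmem m⟩, hfin m⟩
  have hF' : Continuous F' := by
    apply Continuous.subtype_mk
    apply Continuous.subtype_mk
    have h1 : Continuous fun m => (F m).1 := continuous_subtype_val.comp hF
    refine (continuous_fst.comp h1).prodMk (continuous_pi fun l => ?_)
    have h2 : Continuous fun m => (F m).1.2 l := (continuous_apply l).comp (continuous_snd.comp h1)
    exact h2.min ((prof_cont l.length).comp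
      (continuous_const.min (Metric.continuous_infDist_pt B)))
  refine ⟨fun m => h.symm (F' m), h.symm.continuous.comp hF', fun b => ?_⟩
  have : F' b = h (f b) := by
    apply Subtype.ext
    apply Subtype.ext
    show (((F b).1.1, tr (F b).1.2 (min 1 (Metric.infDist (b : M) B))) : ℝ × (List A → ℝ)) = (h (f b)).1.1
    rw [Metric.infDist_zero_of_mem b.2, min_eq_right zero_le_one, tr_zero (F b).2.1, hFa b]
  show h.symm (F' b) = f b
  rw [this, Homeomorph.symm_apply_apply]

/-! ### stars -/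

theorem smul_star {g : F2} {v : F2} {b : Tree} (hb : b ∈ star v) : g • b ∈ star (v * g⁻¹) := by
  obtain ⟨x, t, h0, h1, h⟩ := hb
  refine ⟨x, t, h0, h1, ?_⟩
  funext u
  show b.1 (u * g) = _
  rw [h]
  exact ptf_mul v x t g u

theorem exists_pos (b : Tree) : ∃ w, 0 < b.1 w := by
  obtain ⟨v, x, t, h0, h1, h⟩ := b.2
  by_cases ht : t = 0
  · refine ⟨v, ?_⟩
    rw [h, ht]
    simp only [ptf]
    simp
  · refine ⟨lt x * v, ?_⟩
    rw [h]
    simp only [ptf]
    have : 0 < t := lt_of_le_of_ne h0 (Ne.symm ht)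
    simp only [if_true]
    split_ifs <;> linarith

/-- a compact set is covered by finitely many stars -/
theorem compact_stars {K : Set Tree} (hK : IsCompact K) : ∃ W : Set F2, W.Finite ∧
    ∀ b ∈ K, ∃ w ∈ W, b ∈ star w := by
  obtain ⟨t, ht⟩ := hK.elim_finite_subcover (fun w : F2 => {b : Tree | 0 < b.1 w})
    (fun w => isOpen_lt continuous_const (continuous_coord w))
    (fun b _ => mem_iUnion.2 (exists_pos b))
  refine ⟨t, t.finite_toSet, fun b hb => ?_⟩
  obtain ⟨w, hw, hw'⟩ := mem_iUnion₂.1 (ht hb)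
  exact ⟨w, hw, mem_star_of_pos b w hw'⟩

theorem ultra_finite {ι : Type} (𝓤 : Ultrafilter ι) {W : Set F2} (hW : W.Finite) {p : ι → Tree}
    (h : ∀ᶠ i in (𝓤 : Filter ι), ∃ w ∈ W, p i ∈ star w) : ∃ w ∈ W, ∀ᶠ i in (𝓤 : Filter ι), p i ∈ star w := by
  have h1 : (⋃ w ∈ W, {i | p i ∈ star w}) ∈ 𝓤 := by
    filter_upwards [h] with i hi
    obtain ⟨w, hw, hw'⟩ := hi
    exact mem_iUnion₂.2 ⟨w, hw, hw'⟩
  rw [Ultrafilter.finite_biUnion_mem_iff hW] at h1
  exact h1

/-- centres of two intersecting stars -/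
theorem star_inter {v w : F2} {b : Tree} (hv : b ∈ star v) (hw : b ∈ star w) :
    v = w ∨ (∃ x : A, v = lt x * w) ∨ ∃ x y : A, v = (lt x)⁻¹ * (lt y * w) := by
  obtain ⟨x, t, h0, h1, h⟩ := hv
  obtain ⟨y, s, k0, k1, k⟩ := hw
  obtain ⟨u, hu⟩ := exists_pos b
  have e1 : u = v ∨ u = lt x * v := by
    by_contra hc
    rw [not_or] at hc
    rw [h] at hu
    simp [ptf, hc.1, hc.2] at hu
  have e2 : u = w ∨ u = lt y * w := by
    by_contra hc
    rw [not_or] at hc
    rw [k] at hu
    simp [ptf, hc.1, hc.2] at hu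
  rcases e1 with e1 | e1 <;> rcases e2 with e2 | e2
  · left; rw [← e1, e2]
  · right; left; exact ⟨y, by rw [← e1, e2]⟩
  · right; left; refine ⟨invA x, ?_⟩
    rw [lt_invA, ← e2, e1, inv_mul_cancel_left]
  · right; right; exact ⟨x, y, by rw [← e2, e1, inv_mul_cancel_left]⟩

theorem prop_Tree {ι : Type} (𝓤 : Ultrafilter ι) (K : Set Tree) (g : ι → F2) (p : ι → Tree) (t : Tree)
    (hK : IsCompact K) (hp : ∀ i, p i ∈ K) (h : Tendsto (fun i => g i • p i) 𝓤 (𝓝 t)) :
    ∃ F : Set F2, F.Finite ∧ ∀ᶠ i in (𝓤 : Filter ι), g i ∈ F := by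
  obtain ⟨W, hW, hW'⟩ := compact_stars hK
  obtain ⟨v, -, hv⟩ := ultra_finite 𝓤 hW (Eventually.of_forall fun i => hW' _ (hp i))
  obtain ⟨w, hw⟩ := exists_pos t
  have hw' : ∀ᶠ i in (𝓤 : Filter ι), g i • p i ∈ star w := by
    have h1 : ∀ᶠ i in (𝓤 : Filter ι), 0 < (g i • p i).1 w :=
      (((continuous_coord w).tendsto t).comp h).eventually_const_lt hw
    filter_upwards [h1] with i hi
    exact mem_star_of_pos _ _ hi
  let N : Set F2 := {w} ∪ (range fun x : A => lt x * w) ∪ range fun q : A × A => (lt q.1)⁻¹ * (lt q.2 * w)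
  have hN : N.Finite := ((finite_singleton _).union (finite_range _)).union (finite_range _)
  refine ⟨(fun n => n⁻¹ * v) '' N, hN.image _, ?_⟩
  filter_upwards [hv, hw'] with i h1 h2
  have h3 := star_inter (smul_star (g := g i) h1) h2
  refine ⟨v * (g i)⁻¹, ?_, ?_⟩
  · rcases h3 with h3 | ⟨x, h3⟩ | ⟨x, y, h3⟩
    · left; left; exact h3
    · left; right; exact ⟨x, h3.symm⟩
    · right; exact ⟨(x, y), h3.symm⟩
  · simp only
    group

/-! ### heights on a star -/

theorem htF_lt_mul (v : F2) (x : A) : (x = invA (fl v) ∧ htF (lt x * v) = htF v - 1) ∨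
    (parF (lt x * v) = v ∧ htF (lt x * v) = htF v + 1) := by
  by_cases hx : x = invA (fl v)
  · left
    refine ⟨hx, ?_⟩
    subst hx
    exact htF_parF v
  · right
    have h1 := parF_lt_mul hx
    refine ⟨h1, ?_⟩
    have h2 := htF_parF (lt x * v)
    rw [h1] at h2
    omega

theorem a_star {v : F2} {b : Tree} (hb : b ∈ star v) :
    th (htF v + 1) ≤ TT.a (jT b) ∧ TT.a (jT b) ≤ th (htF v - 1) := by
  obtain ⟨x, t, h0, h1, h⟩ := hb
  rw [a_jT, lin_ptf _ b v x t h]
  have e1 : th (htF v + 1) ≤ th (htF v) := th_le.2 (by omega)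
  have e2 : th (htF v) ≤ th (htF v - 1) := th_le.2 (by omega)
  rcases htF_lt_mul v x with ⟨_, h2⟩ | ⟨_, h2⟩ <;> rw [h2] <;> constructor <;> nlinarith

theorem j_star {v w : F2} {b : Tree} (hb : b ∈ star v) (hw : htF w < htF v) :
    jT b w = th (RF.J v w) := by
  obtain ⟨x, t, h0, h1, h⟩ := hb
  show lin (fun u => th (RF.J u w)) b = _
  rw [lin_ptf _ b v x t h]
  have h3 : RF.J v w ≤ htF w := RT.J_le_right (R := RF) v w
  have key : RF.J (lt x * v) w = RF.J v w := by
    rcases htF_lt_mul v x with ⟨h2, _⟩ | ⟨h2, _⟩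
    · have h4 : RF.J (parF v) w = min (RF.J v w) (htF v - 1) := RT.J_par (R := RF) v w
      subst h2
      show RF.J (parF v) w = _
      rw [h4]
      omega
    · have h4 : RF.J (parF (lt x * v)) w = min (RF.J (lt x * v) w) (htF (lt x * v) - 1) :=
        RT.J_par (R := RF) (lt x * v) w
      have h5 : RF.J (lt x * v) w ≤ htF w := RT.J_le_right (R := RF) (lt x * v) w
      have h6 := htF_lt_mul v x
      have h7 := htF_parF (lt x * v)
      rw [h2] at h4 h7
      omega
  simp only [key]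
  ring

theorem log_th {ι : Type} {l : Filter ι} {n : ι → ℤ} (h : Tendsto n l atTop) :
    Tendsto (fun i => Real.log (th (n i - 1)) - Real.log (th (n i + 1))) l (𝓝 0) := by
  have h1 : Tendsto (fun i => ((n i + 1 : ℤ) : ℝ)) l atTop :=
    tendsto_intCast_atTop_atTop.comp (tendsto_atTop_add_const_right _ _ h)
  refine log_Af_diff (r := fun i => ((n i + 1 : ℤ) : ℝ)) (r' := fun i => ((n i - 1 : ℤ) : ℝ)) (C := 2) h1 ?_
  intro i
  push_cast
  have : ((n i : ℝ) - 1 - (n i + 1)) = -2 := by ring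
  rw [this]
  norm_num

/-- two sequences in common stars have the same limits -/
theorem star_lim {ι : Type} {l : Filter ι} {b b' : ι → Tree} {v : ι → F2} {x : TT RF}
    (hx : TT.a x = 0) (hb : ∀ᶠ i in l, b i ∈ star (v i)) (hb' : ∀ᶠ i in l, b' i ∈ star (v i))
    (h : Tendsto (fun i => jT (b i)) l (𝓝 x)) :
    Tendsto (fun i => jT (b' i)) l (𝓝 x) ∧
    Tendsto (fun i => Real.log (TT.a (jT (b' i))) - Real.log (TT.a (jT (b i)))) l (𝓝 0) := by
  have ha : Tendsto (fun i => TT.a (jT (b i))) l (𝓝 0) := by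
    have := (TT.a_cont.tendsto x).comp h
    rw [hx] at this
    exact this
  have hht : Tendsto (fun i => htF (v i)) l atTop := by
    rw [tendsto_atTop]
    intro N
    filter_upwards [hb, ha.eventually_lt_const (th_pos (N + 1))] with i h1 h2
    have h3 := lt_of_le_of_lt (a_star h1).1 h2
    have := th_lt.1 h3
    omega
  constructor
  · rw [TT.closed_emb.isEmbedding.tendsto_nhds_iff, tendsto_pi_nhds]
    rw [TT.closed_emb.isEmbedding.tendsto_nhds_iff, tendsto_pi_nhds] at h
    intro w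
    refine (h w).congr' ?_
    filter_upwards [hb, hb', hht.eventually_gt_atTop (htF w)] with i h1 h2 h3
    show jT (b i) w = jT (b' i) w
    rw [j_star h1 h3, j_star h2 h3]
  · refine squeeze_zero_norm' ?_ (log_th hht)
    filter_upwards [hb, hb'] with i h1 h2
    obtain ⟨e1, e2⟩ := a_star h1
    obtain ⟨e3, e4⟩ := a_star h2
    have l1 := Real.log_le_log (th_pos _) e1
    have l2 := Real.log_le_log (a_jT_pos _) e2
    have l3 := Real.log_le_log (th_pos _) e3
    have l4 := Real.log_le_log (a_jT_pos _) e4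
    rw [Real.norm_eq_abs, abs_le]
    constructor <;> linarith

theorem null_Tree {ι : Type} (𝓤 : Ultrafilter ι) (K : Set Tree) (g : ι → F2) (p q : ι → Tree) (x : TT RF)
    (hK : IsCompact K) (hp : ∀ i, p i ∈ K) (hq : ∀ i, q i ∈ K) (hx : TT.a x = 0)
    (h : Tendsto (fun i => jT (g i • p i)) 𝓤 (𝓝 x)) :
    Tendsto (fun i => jT (g i • q i)) 𝓤 (𝓝 x) ∧
    Tendsto (fun i => Real.log (TT.a (jT (g i • q i))) - Real.log (TT.a (jT (g i • p i)))) 𝓤 (𝓝 0) := by
  obtain ⟨W, hW, hW'⟩ := compact_stars hK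
  obtain ⟨v, -, hv⟩ := ultra_finite 𝓤 hW (Eventually.of_forall fun i => hW' _ (hp i))
  obtain ⟨w, -, hw⟩ := ultra_finite 𝓤 hW (Eventually.of_forall fun i => hW' _ (hq i))
  -- sequences that behave like `p`
  let Go : (ι → Tree) → Prop := fun q => Tendsto (fun i => jT (g i • q i)) 𝓤 (𝓝 x) ∧
    Tendsto (fun i => Real.log (TT.a (jT (g i • q i))) - Real.log (TT.a (jT (g i • p i)))) 𝓤 (𝓝 0)
  have step : ∀ (q q' : ι → Tree) (u : F2), Go q → (∀ᶠ i in (𝓤 : Filter ι), q i ∈ star u) →
      (∀ᶠ i in (𝓤 : Filter ι), q' i ∈ star u) → Go q' := by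
    intro q q' u ⟨h1, h2⟩ h3 h4
    obtain ⟨h5, h6⟩ := star_lim (l := 𝓤) (b := fun i => g i • q i) (b' := fun i => g i • q' i)
      (v := fun i => u * (g i)⁻¹) hx (h3.mono fun i hi => smul_star hi)
      (h4.mono fun i hi => smul_star hi) h1
    refine ⟨h5, ?_⟩
    have := h6.add h2
    rw [add_zero] at this
    refine this.congr fun i => ?_
    ring
  have h0 : Go p := ⟨h, by simp⟩
  have h1 : Go fun _ => vtx v := step p _ v h0 hv (Eventually.of_forall fun _ => vtx_mem_star v)
  have h2 : ∀ L : List A, Go fun _ => vtx (FreeGroup.mk L * v) := by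
    intro L
    induction L with
    | nil =>
      have : (FreeGroup.mk ([] : List A) : F2) * v = v := one_mul v
      rw [this]; exact h1
    | cons y L ih =>
      have : (FreeGroup.mk (y :: L) : F2) * v = lt y * (FreeGroup.mk L * v) := by
        rw [← mul_assoc]; rfl
      rw [this]
      exact step _ _ _ ih (Eventually.of_forall fun _ => vtx_mem_star _)
        (Eventually.of_forall fun _ => vtx_mem_star' _ y)
  have h3 : Go fun _ => vtx w := by
    have := h2 (w * v⁻¹).toWord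
    rw [FreeGroup.mk_toWord, inv_mul_cancel_right] at this
    exact this
  exact step _ q w h3 (Eventually.of_forall fun _ => vtx_mem_star w) hw

/-- the factor of the free group -/
noncomputable def facF : Fac F2 Tree (TT RF) where
  a := TT.a
  ρ E := E RF.v0
  κ := TT.κ
  up := TT.up
  x₀ := TT.pt RF RF.v0
  j := jT
  a_cont := TT.a_cont
  ρ_cont := TT.coord_cont _
  κ_cont := TT.κ_cont
  up_cont := TT.up_cont
  a_nonneg := TT.a_nonneg
  a_le x := TT.a_le x _
  one_le := TT.one_le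
  a_x₀ := by rw [TT.a_pt, RF.ht_v0, th_zero]
  ρ_x₀ := by rw [TT.pt_apply, RT.J_self, RF.ht_v0, th_zero]
  a_up := TT.a_up
  ρ_up _ _ := rfl
  up_id := TT.up_id
  up_base := TT.up_base
  t2 := inferInstance
  proper := TT.compact_le
  inj _ _ := TT.inj
  j_emb := jT_emb
  j_range := jT_range
  ae := isAE_Tree
  smul_cont g := by
    apply Continuous.subtype_mk
    exact continuous_pi fun u => continuous_coord (u * g)
  cov y := by
    obtain ⟨U, hU, hy, h⟩ := covering_TR (y, 0)
    refine ⟨(fun b => (b, (0:ℝ))) ⁻¹' U, hU.preimage (by fun_prop), hy, fun g hg => ?_⟩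
    rw [Set.disjoint_left]
    rintro _ ⟨b, hb, rfl⟩ hb'
    have h1 : ((g, 1) : F2 × Multiplicative ℤ) ≠ 1 := fun h => hg (congrArg Prod.fst h)
    refine Set.disjoint_left.1 (h _ h1) ⟨(b, 0), hb, ?_⟩ hb'
    show (g • b, (0:ℝ) + ((Multiplicative.toAdd (1 : Multiplicative ℤ) : ℤ) : ℝ)) = _
    simp
  K₀ := Prod.fst '' (cocompact_TR.choose)
  K₀_comp := cocompact_TR.choose_spec.1.image continuous_fst
  coc y := by
    obtain ⟨g, hg⟩ := cocompact_TR.choose_spec.2 (y, 0)
    exact ⟨g.1, _, hg, rfl⟩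
  null := by
    intro ι 𝓤 K g p q x hK hp hq hx h
    exact null_Tree 𝓤 K g p q x hK hp hq hx h
  prop := by
    intro ι 𝓤 K g p t hK hp h
    exact prop_Tree 𝓤 K g p t hK hp h

end Pool.Agent.H895R2.SB
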