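import Mathlib
import Pool.Agent.H895R2.SB.Fac

/-! The push of the compactification off the boundary. -/

set_option maxHeartbeats 4000000
set_option synthInstance.maxHeartbeats 400000

namespace Pool.Agent.H895R2.SB

open Set Topology Filter
open Pool.Agent.Helper376.CL

variable {G₁ G₂ T₁ T₂ X₁ X₂ : Type} [Group G₁] [Group G₂] [TopologicalSpace T₁]
  [TopologicalSpace T₂] [MulAction G₁ T₁] [MulAction G₂ T₂] [TopologicalSpace X₁]
  [TopologicalSpace X₂] {F₁ : Fac G₁ T₁ X₁} {F₂ : Fac G₂ T₂ X₂}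

namespace Wt

/-- truncation -/
noncomputable def Tr (w : Wt F₁ F₂) (r : ℝ) : Wt F₁ F₂ :=
  ⟨(F₁.up w.x (r * Real.exp (w.s / 2)), F₂.up w.y (r * Real.exp (-(w.s / 2))), w.s), by
    show F₁.a (F₁.up w.x _) = Real.exp w.s * F₂.a (F₂.up w.y _)
    rw [F₁.a_up, F₂.a_up, w.eq, mul_max_of_nonneg _ _ (Real.exp_nonneg _)]
    congr 1
    rw [mul_left_comm, ← Real.exp_add]
    congr 2
    ring⟩

theorem Tr_x (w : Wt F₁ F₂) (r : ℝ) : (Tr w r).x = F₁.up w.x (r * Real.exp (w.s / 2)) := rfl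
theorem Tr_y (w : Wt F₁ F₂) (r : ℝ) : (Tr w r).y = F₂.up w.y (r * Real.exp (-(w.s / 2))) := rfl
theorem Tr_s (w : Wt F₁ F₂) (r : ℝ) : (Tr w r).s = w.s := rfl

theorem Tr_cont : Continuous (fun p : Wt F₁ F₂ × ℝ => Tr p.1 p.2) := by
  apply Continuous.subtype_mk
  refine Continuous.prodMk ?_ (Continuous.prodMk ?_ ?_)
  · exact F₁.up_cont.comp ((x_cont.comp continuous_fst).prodMk (continuous_snd.mul
      (Real.continuous_exp.comp ((s_cont.comp continuous_fst).div_const 2))))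
  · exact F₂.up_cont.comp ((y_cont.comp continuous_fst).prodMk (continuous_snd.mul
      (Real.continuous_exp.comp ((s_cont.comp continuous_fst).div_const 2).neg)))
  · exact s_cont.comp continuous_fst

theorem Tr_of_nonpos (w : Wt F₁ F₂) {r : ℝ} (hr : r ≤ 0) : Tr w r = w := by
  apply ext'
  · rw [Tr_x]
    exact F₁.up_id _ _ ((mul_nonpos_of_nonpos_of_nonneg hr (Real.exp_nonneg _)).trans
      (F₁.a_nonneg _))
  · rw [Tr_y]
    exact F₂.up_id _ _ ((mul_nonpos_of_nonpos_of_nonneg hr (Real.exp_nonneg _)).trans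
      (F₂.a_nonneg _))
  · rfl

theorem P_Tr (w : Wt F₁ F₂) (r : ℝ) : w.P ≤ (Tr w r).P := by
  unfold P
  rw [Tr_x, Tr_y, Tr_s, F₁.ρ_up, F₂.ρ_up]
  exact max_le_max (max_le_max (le_max_left _ _) (le_max_left _ _)) (le_refl _)

theorem Tr_ax (w : Wt F₁ F₂) {r : ℝ} (hr : 0 < r) : 0 < F₁.a (Tr w r).x := by
  rw [Tr_x, F₁.a_up]
  exact lt_of_lt_of_le (by positivity) (le_max_right _ _)

theorem Tr_ay (w : Wt F₁ F₂) {r : ℝ} (hr : 0 < r) : 0 < F₂.a (Tr w r).y := by
  rw [Tr_y, F₂.a_up]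
  exact lt_of_lt_of_le (by positivity) (le_max_right _ _)

theorem s_eq (w : Wt F₁ F₂) (h : 0 < F₂.a w.y) : w.s = Real.log (F₁.a w.x) - Real.log (F₂.a w.y) := by
  rw [w.eq, Real.log_mul (Real.exp_ne_zero _) h.ne', Real.log_exp]
  ring

/-- parameters -/
noncomputable def lam (w : Wt F₁ F₂) (r : ℝ) : ℝ :=
  2 * max (max (fc (r * F₁.ρ w.x - 1)) (fc (r * F₂.ρ w.y - 1))) (max (fc (r * w.s - 1)) (fc (-(r * w.s) - 2)))

/-- parameters -/
noncomputable def mu (w : Wt F₁ F₂) (r : ℝ) : ℝ :=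
  2 * max (max (fc (r * F₁.ρ w.x - 1)) (fc (r * F₂.ρ w.y - 1))) (max (fc (-(r * w.s) - 1)) (fc (r * w.s - 2)))

theorem lam_le (w : Wt F₁ F₂) (r : ℝ) : lam w r ≤ 2 := by
  unfold lam
  have := max_le (max_le (fc_le (r * F₁.ρ w.x - 1)) (fc_le (r * F₂.ρ w.y - 1)))
    (max_le (fc_le (r * w.s - 1)) (fc_le (-(r * w.s) - 2)))
  linarith

theorem mu_le (w : Wt F₁ F₂) (r : ℝ) : mu w r ≤ 2 := by
  unfold mu
  have := max_le (max_le (fc_le (r * F₁.ρ w.x - 1)) (fc_le (r * F₂.ρ w.y - 1)))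
    (max_le (fc_le (-(r * w.s) - 1)) (fc_le (r * w.s - 2)))
  linarith

theorem lam_cont {Z : Type} [TopologicalSpace Z] {w : Z → Wt F₁ F₂} {r : Z → ℝ} (hw : Continuous w)
    (hr : Continuous r) : Continuous fun z => lam (w z) (r z) := by
  unfold lam
  have h1 := F₁.ρ_cont.comp (x_cont.comp hw)
  have h2 := F₂.ρ_cont.comp (y_cont.comp hw)
  have h3 := s_cont.comp hw
  simp only [Function.comp_def] at h1 h2 h3
  refine continuous_const.mul (((fc_cont.comp ?_).max (fc_cont.comp ?_)).max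
    ((fc_cont.comp ?_).max (fc_cont.comp ?_)))
  · exact (hr.mul h1).sub continuous_const
  · exact (hr.mul h2).sub continuous_const
  · exact (hr.mul h3).sub continuous_const
  · exact (hr.mul h3).neg.sub continuous_const

theorem mu_cont {Z : Type} [TopologicalSpace Z] {w : Z → Wt F₁ F₂} {r : Z → ℝ} (hw : Continuous w)
    (hr : Continuous r) : Continuous fun z => mu (w z) (r z) := by
  unfold mu
  have h1 := F₁.ρ_cont.comp (x_cont.comp hw)
  have h2 := F₂.ρ_cont.comp (y_cont.comp hw)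
  have h3 := s_cont.comp hw
  simp only [Function.comp_def] at h1 h2 h3
  refine continuous_const.mul (((fc_cont.comp ?_).max (fc_cont.comp ?_)).max
    ((fc_cont.comp ?_).max (fc_cont.comp ?_)))
  · exact (hr.mul h1).sub continuous_const
  · exact (hr.mul h2).sub continuous_const
  · exact (hr.mul h3).neg.sub continuous_const
  · exact (hr.mul h3).sub continuous_const

/-- build a point of `Wt` from two points of positive height -/
noncomputable def mk2 (x : X₁) (y : X₂) (hx : 0 < F₁.a x) (hy : 0 < F₂.a y) : Wt F₁ F₂ :=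
  ⟨(x, y, Real.log (F₁.a x) - Real.log (F₂.a y)), by
    show F₁.a x = Real.exp (Real.log (F₁.a x) - Real.log (F₂.a y)) * F₂.a y
    rw [Real.exp_sub, Real.exp_log hx, Real.exp_log hy, div_mul_cancel₀ _ hy.ne']⟩

theorem mk2_x {x : X₁} {y : X₂} (hx : 0 < F₁.a x) (hy : 0 < F₂.a y) : (mk2 x y hx hy).x = x := rfl
theorem mk2_y {x : X₁} {y : X₂} (hx : 0 < F₁.a x) (hy : 0 < F₂.a y) : (mk2 x y hx hy).y = y := rfl
theorem mk2_s {x : X₁} {y : X₂} (hx : 0 < F₁.a x) (hy : 0 < F₂.a y) :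
    (mk2 x y hx hy).s = Real.log (F₁.a x) - Real.log (F₂.a y) := rfl

theorem eq_mk2 (w : Wt F₁ F₂) (hx : 0 < F₁.a w.x) (hy : 0 < F₂.a w.y) : mk2 w.x w.y hx hy = w :=
  ext' rfl rfl (by rw [mk2_s, ← s_eq w hy])

theorem mk2_cont {Z : Type} [TopologicalSpace Z] {x : Z → X₁} {y : Z → X₂} (hx : ∀ z, 0 < F₁.a (x z))
    (hy : ∀ z, 0 < F₂.a (y z)) (hxc : Continuous x) (hyc : Continuous y) :
    Continuous fun z => mk2 (x z) (y z) (hx z) (hy z) := by
  apply Continuous.subtype_mk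
  refine hxc.prodMk (hyc.prodMk ?_)
  exact ((F₁.a_cont.comp hxc).log fun z => (hx z).ne').sub
    ((F₂.a_cont.comp hyc).log fun z => (hy z).ne')

/-- the full push, for positive time -/
noncomputable def Fu (w : Wt F₁ F₂) (r : {r : ℝ // 0 < r}) : Wt F₁ F₂ :=
  mk2 (Gam F₁ (Tr w r).x (lam (Tr w r) r) r) (Gam F₂ (Tr w r).y (mu (Tr w r) r) r)
    (Gam_apos F₁ (Tr_ax w r.2)) (Gam_apos F₂ (Tr_ay w r.2))

theorem Fu_cont : Continuous (fun p : Wt F₁ F₂ × {r : ℝ // 0 < r} => Fu p.1 p.2) := by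
  have hr : Continuous fun p : Wt F₁ F₂ × {r : ℝ // 0 < r} => (p.2 : ℝ) :=
    continuous_subtype_val.comp continuous_snd
  have hT : Continuous fun p : Wt F₁ F₂ × {r : ℝ // 0 < r} => Tr p.1 p.2 :=
    Tr_cont.comp (continuous_fst.prodMk hr)
  unfold Fu
  refine mk2_cont _ _ ?_ ?_
  · exact Gam_cont F₁ (x_cont.comp hT) (lam_cont hT hr) hr fun z => z.2.2.ne'
  · exact Gam_cont F₂ (y_cont.comp hT) (mu_cont hT hr) hr fun z => z.2.2.ne'

theorem Fu_eq_Tr (w : Wt F₁ F₂) (r : {r : ℝ // 0 < r}) (h1 : r * F₁.ρ (Tr w r).x ≤ 1)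
    (h2 : r * F₂.ρ (Tr w r).y ≤ 1) (h3 : r * |w.s| ≤ 1) : Fu w r = Tr w r := by
  have h4 : r * w.s ≤ 1 := (mul_le_mul_of_nonneg_left (le_abs_self _) r.2.le).trans h3
  have h5 : -(r * w.s) ≤ 1 := by
    rw [← mul_neg]
    exact (mul_le_mul_of_nonneg_left (neg_le_abs _) r.2.le).trans h3
  have hl : lam (Tr w r) r = 0 := by
    unfold lam
    rw [fc_neg (by linarith), fc_neg (by linarith), Tr_s, fc_neg (by linarith),
      fc_neg (by linarith)]
    simp
  have hm : mu (Tr w r) r = 0 := by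
    unfold mu
    rw [fc_neg (by linarith), fc_neg (by linarith), Tr_s, fc_neg (by linarith),
      fc_neg (by linarith)]
    simp
  refine ext' ?_ ?_ ?_
  · show Gam F₁ (Tr w r).x (lam (Tr w r) r) r = _
    rw [hl, Gam_zero]
  · show Gam F₂ (Tr w r).y (mu (Tr w r) r) r = _
    rw [hm, Gam_zero]
  · show Real.log (F₁.a (Gam F₁ (Tr w r).x (lam (Tr w r) r) r)) -
      Real.log (F₂.a (Gam F₂ (Tr w r).y (mu (Tr w r) r) r)) = _
    rw [hl, hm, Gam_zero, Gam_zero, ← s_eq _ (Tr_ay w r.2)]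

/-- the image of the point at infinity -/
noncomputable def Qr (r : {r : ℝ // 0 < r}) : Wt F₁ F₂ :=
  mk2 (F₁.up F₁.x₀ (1 / r)) (F₂.up F₂.x₀ (1 / r))
    (by rw [F₁.a_up, F₁.a_x₀]; exact lt_of_lt_of_le one_pos (le_max_left _ _))
    (by rw [F₂.a_up, F₂.a_x₀]; exact lt_of_lt_of_le one_pos (le_max_left _ _))

theorem Qr_cont : Continuous (Qr : {r : ℝ // 0 < r} → Wt F₁ F₂) := by
  have hr : Continuous fun r : {r : ℝ // 0 < r} => 1 / (r : ℝ) :=
    continuous_const.div continuous_subtype_val fun r => r.2.ne'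
  unfold Qr
  exact mk2_cont _ _ (F₁.up_cont.comp (continuous_const.prodMk hr))
    (F₂.up_cont.comp (continuous_const.prodMk hr))

theorem P_Qr (r : {r : ℝ // 0 < r}) : 1 / (r : ℝ) ≤ (Qr r : Wt F₁ F₂).P := by
  have h1 : 1 / (r : ℝ) ≤ F₁.ρ (Qr r : Wt F₁ F₂).x := by
    show 1 / (r : ℝ) ≤ F₁.ρ (F₁.up F₁.x₀ (1 / r))
    rw [F₁.ρ_up]
    exact le_max_right _ _
  exact h1.trans ((le_max_left _ _).trans (le_max_left _ _))

theorem Fu_big (w : Wt F₁ F₂) (r : {r : ℝ // 0 < r}) (h : 3 ≤ r * w.P) : Fu w r = Qr r := by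
  have hP : 3 ≤ r * (Tr w r).P := h.trans (mul_le_mul_of_nonneg_left (P_Tr w r) r.2.le)
  have key : lam (Tr w r) r = 2 ∧ mu (Tr w r) r = 2 := by
    have hb : ∀ {u v s t : ℝ}, 0 ≤ u → 0 ≤ v → 0 ≤ s → 0 ≤ t → u ≤ 1 → v ≤ 1 → s ≤ 1 → t ≤ 1 →
        (u = 1 ∨ v = 1 ∨ s = 1 ∨ t = 1) → 2 * max (max u v) (max s t) = 2 := by
      intro u v s t _ _ _ _ hu hv hs ht h
      have h1 : max (max u v) (max s t) ≤ 1 := max_le (max_le hu hv) (max_le hs ht)
      have h2 : 1 ≤ max (max u v) (max s t) := by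
        rcases h with rfl | rfl | rfl | rfl
        · exact (le_max_left _ _).trans (le_max_left _ _)
        · exact (le_max_right _ _).trans (le_max_left _ _)
        · exact (le_max_left _ _).trans (le_max_right _ _)
        · exact (le_max_right _ _).trans (le_max_right _ _)
      linarith
    have h3 : (r : ℝ) * (Tr w r).P = max (max (r * F₁.ρ (Tr w r).x) (r * F₂.ρ (Tr w r).y))
        (r * |(Tr w r).s|) := by
      unfold P
      rw [mul_max_of_nonneg _ _ r.2.le, mul_max_of_nonneg _ _ r.2.le]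
    rw [h3] at hP
    unfold lam mu
    rcases le_max_iff.1 hP with h4 | h4
    · rcases le_max_iff.1 h4 with h5 | h5
      · exact ⟨hb (fc_nonneg _) (fc_nonneg _) (fc_nonneg _) (fc_nonneg _) (fc_le _) (fc_le _)
          (fc_le _) (fc_le _) (Or.inl (fc_big (by linarith))),
          hb (fc_nonneg _) (fc_nonneg _) (fc_nonneg _) (fc_nonneg _) (fc_le _) (fc_le _)
          (fc_le _) (fc_le _) (Or.inl (fc_big (by linarith)))⟩
      · exact ⟨hb (fc_nonneg _) (fc_nonneg _) (fc_nonneg _) (fc_nonneg _) (fc_le _) (fc_le _)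
          (fc_le _) (fc_le _) (Or.inr (Or.inl (fc_big (by linarith)))),
          hb (fc_nonneg _) (fc_nonneg _) (fc_nonneg _) (fc_nonneg _) (fc_le _) (fc_le _)
          (fc_le _) (fc_le _) (Or.inr (Or.inl (fc_big (by linarith))))⟩
    · rcases abs_cases (Tr w r).s with ⟨h6, _⟩ | ⟨h6, _⟩
      · rw [h6] at h4
        exact ⟨hb (fc_nonneg _) (fc_nonneg _) (fc_nonneg _) (fc_nonneg _) (fc_le _) (fc_le _)
          (fc_le _) (fc_le _) (Or.inr (Or.inr (Or.inl (fc_big (by linarith))))),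
          hb (fc_nonneg _) (fc_nonneg _) (fc_nonneg _) (fc_nonneg _) (fc_le _) (fc_le _)
          (fc_le _) (fc_le _) (Or.inr (Or.inr (Or.inr (fc_big (by linarith)))))⟩
      · rw [h6, mul_neg] at h4
        exact ⟨hb (fc_nonneg _) (fc_nonneg _) (fc_nonneg _) (fc_nonneg _) (fc_le _) (fc_le _)
          (fc_le _) (fc_le _) (Or.inr (Or.inr (Or.inr (fc_big (by linarith))))),
          hb (fc_nonneg _) (fc_nonneg _) (fc_nonneg _) (fc_nonneg _) (fc_le _) (fc_le _)
          (fc_le _) (fc_le _) (Or.inr (Or.inr (Or.inl (fc_big (by linarith)))))⟩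
  have hx : (Fu w r).x = (Qr r : Wt F₁ F₂).x := by
    show Gam F₁ (Tr w r).x (lam (Tr w r) r) r = F₁.up F₁.x₀ (1 / r)
    rw [key.1, Gam_two]
  have hy : (Fu w r).y = (Qr r : Wt F₁ F₂).y := by
    show Gam F₂ (Tr w r).y (mu (Tr w r) r) r = F₂.up F₂.x₀ (1 / r)
    rw [key.2, Gam_two]
  refine ext' hx hy ?_
  have h1 : 0 < F₂.a (Fu w r).y := Gam_apos F₂ (Tr_ay w r.2)
  have h2 : 0 < F₂.a (Qr r : Wt F₁ F₂).y := by rw [← hy]; exact h1
  rw [s_eq _ h1, s_eq _ h2, hx, hy]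

theorem P_Fu (w : Wt F₁ F₂) (r : {r : ℝ // 0 < r}) : min w.P (1 / r) ≤ (Fu w r).P := by
  have hr : (0 : ℝ) < r := r.2
  have hx : F₁.ρ (Fu w r).x ≤ (Fu w r).P := (le_max_left _ _).trans (le_max_left _ _)
  have hy : F₂.ρ (Fu w r).y ≤ (Fu w r).P := (le_max_right _ _).trans (le_max_left _ _)
  have hs : |(Fu w r).s| ≤ (Fu w r).P := le_max_right _ _
  by_cases c1 : 1 / (r : ℝ) ≤ F₁.ρ (Tr w r).x
  · exact (min_le_right _ _).trans ((Gam_ρ F₁ (lam_le _ _) c1).trans hx)
  by_cases c2 : 1 / (r : ℝ) ≤ F₂.ρ (Tr w r).y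
  · exact (min_le_right _ _).trans ((Gam_ρ F₂ (mu_le _ _) c2).trans hy)
  push Not at c1 c2
  have d1 : (r : ℝ) * F₁.ρ (Tr w r).x < 1 := by
    rw [lt_div_iff₀ hr] at c1; linarith
  have d2 : (r : ℝ) * F₂.ρ (Tr w r).y < 1 := by
    rw [lt_div_iff₀ hr] at c2; linarith
  by_cases c3 : (r : ℝ) * |w.s| ≤ 1
  · rw [Fu_eq_Tr w r d1.le d2.le c3]
    exact (min_le_left _ _).trans (P_Tr w r)
  push Not at c3
  refine (min_le_right _ _).trans ?_
  have ex : (Fu w r).x = Gam F₁ (Tr w r).x (lam (Tr w r) r) r := rfl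
  have ey : (Fu w r).y = Gam F₂ (Tr w r).y (mu (Tr w r) r) r := rfl
  have es : (Fu w r).s = Real.log (F₁.a (Gam F₁ (Tr w r).x (lam (Tr w r) r) r)) -
    Real.log (F₂.a (Gam F₂ (Tr w r).y (mu (Tr w r) r) r)) := rfl
  have ax := (F₁.a_le (Tr w r).x).trans c1.le
  have ay := (F₂.a_le (Tr w r).y).trans c2.le
  rcases le_total 0 w.s with h0 | h0
  · rw [abs_of_nonneg h0] at c3
    rcases le_total (r * w.s) 2 with h2 | h2
    · -- `y` does not move
      have hm : mu (Tr w r) r = 0 := by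
        unfold mu
        rw [fc_neg (by linarith), fc_neg (by linarith), Tr_s, fc_neg (by linarith),
          fc_neg (by linarith)]
        simp
      have h5 : w.s ≤ (Fu w r).s := by
        rw [es, hm, Gam_zero]
        have h6 := s_eq (Tr w r) (Tr_ay w hr)
        rw [Tr_s] at h6
        have h7 := Real.log_le_log (Tr_ax w hr) (Gam_a F₁ (lam_le (Tr w r) r) ax)
        linarith
      have h6 : 1 / (r : ℝ) ≤ w.s := by rw [div_le_iff₀ hr]; linarith
      exact (h6.trans h5).trans ((le_abs_self _).trans hs)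
    · have hl : lam (Tr w r) r = 2 := by
        apply le_antisymm (lam_le _ _)
        unfold lam
        have : fc (r * (Tr w r).s - 1) = 1 := fc_big (by rw [Tr_s]; linarith)
        rw [this]
        have := (le_max_left (1 : ℝ) (fc (-(r * (Tr w r).s) - 2))).trans (le_max_right
          (max (fc (r * F₁.ρ (Tr w r).x - 1)) (fc (r * F₂.ρ (Tr w r).y - 1))) _)
        linarith
      refine le_trans ?_ hx
      rw [ex, hl, Gam_two, F₁.ρ_up]
      exact le_max_right _ _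
  · rw [abs_of_nonpos h0, mul_neg] at c3
    rcases le_total (-(r * w.s)) 2 with h2 | h2
    · -- `x` does not move
      have hl : lam (Tr w r) r = 0 := by
        unfold lam
        rw [fc_neg (by linarith), fc_neg (by linarith), Tr_s, fc_neg (by linarith),
          fc_neg (by linarith)]
        simp
      have h5 : (Fu w r).s ≤ w.s := by
        rw [es, hl, Gam_zero]
        have h6 := s_eq (Tr w r) (Tr_ay w hr)
        rw [Tr_s] at h6
        have h7 := Real.log_le_log (Tr_ay w hr) (Gam_a F₂ (mu_le (Tr w r) r) ay)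
        linarith
      have h6 : 1 / (r : ℝ) ≤ -w.s := by rw [div_le_iff₀ hr]; linarith
      have h8 := neg_le_abs (Fu w r).s
      linarith
    · have hm : mu (Tr w r) r = 2 := by
        apply le_antisymm (mu_le _ _)
        unfold mu
        have : fc (-(r * (Tr w r).s) - 1) = 1 := fc_big (by rw [Tr_s]; linarith)
        rw [this]
        have := (le_max_left (1 : ℝ) (fc (r * (Tr w r).s - 2))).trans (le_max_right
          (max (fc (r * F₁.ρ (Tr w r).x - 1)) (fc (r * F₂.ρ (Tr w r).y - 1))) _)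
        linarith
      refine le_trans ?_ hy
      rw [ey, hm, Gam_two, F₂.ρ_up]
      exact le_max_right _ _

open Classical in
/-- the push -/
noncomputable def Hp (z : OnePoint (Wt F₁ F₂)) (r : ℝ) : OnePoint (Wt F₁ F₂) :=
  if h : 0 < r then z.elim (↑(Qr ⟨r, h⟩ : Wt F₁ F₂)) (fun w => ↑(Fu w ⟨r, h⟩)) else z

theorem Hp_nonpos (z : OnePoint (Wt F₁ F₂)) {r : ℝ} (h : r ≤ 0) : Hp z r = z :=
  dif_neg (not_lt.2 h)

theorem Hp_infty {r : ℝ} (h : 0 < r) :
    Hp (OnePoint.infty : OnePoint (Wt F₁ F₂)) r = ↑(Qr ⟨r, h⟩ : Wt F₁ F₂) := by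
  unfold Hp; rw [dif_pos h]; rfl

theorem Hp_coe (w : Wt F₁ F₂) {r : ℝ} (h : 0 < r) :
    Hp (w : OnePoint (Wt F₁ F₂)) r = ↑(Fu w ⟨r, h⟩) := by
  unfold Hp; rw [dif_pos h]; rfl

theorem q_Hp (z : OnePoint (Wt F₁ F₂)) {r : ℝ} (hr : 0 ≤ r) : q (Hp z r) ≤ max (q z) r := by
  rcases hr.eq_or_lt with h | h
  · rw [Hp_nonpos z h.symm.le]; exact le_max_left _ _
  · induction z using OnePoint.rec with
    | infty =>
      rw [Hp_infty h, q_coe]
      refine le_trans ?_ (le_max_right _ _)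
      have := P_Qr (F₁ := F₁) (F₂ := F₂) ⟨r, h⟩
      rw [one_div_le (by have := one_le_P (Qr ⟨r, h⟩ : Wt F₁ F₂); linarith) h]
      exact this
    | coe w =>
      rw [Hp_coe w h, q_coe, q_coe]
      have h1 := P_Fu w ⟨r, h⟩
      have h2 := one_le_P (Fu w ⟨r, h⟩)
      have h3 := one_le_P w
      rcases min_le_iff.1 h1 with h4 | h4
      · exact (one_div_le_one_div_of_le (by linarith) h4).trans (le_max_left _ _)
      · refine le_trans ?_ (le_max_right _ _)
        rw [one_div_le (by linarith) h]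
        exact h4

theorem Hp_cont : ContinuousOn (Function.uncurry (Hp : OnePoint (Wt F₁ F₂) → ℝ → _))
    (univ ×ˢ Icc (0:ℝ) 1) := by
  rintro ⟨z, r⟩ ⟨-, hr⟩
  rcases hr.1.eq_or_lt with h0 | h0
  · -- time zero
    simp only at h0
    subst h0
    induction z using OnePoint.rec with
    | infty =>
      rw [ContinuousWithinAt]
      simp only [Function.uncurry]
      rw [Hp_nonpos _ (le_refl _)]
      apply tendsto_infty
      have h1 : Tendsto (fun p : OnePoint (Wt F₁ F₂) × ℝ => max (q p.1) p.2)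
          (𝓝[univ ×ˢ Icc (0:ℝ) 1] (OnePoint.infty, 0)) (𝓝 0) := by
        have : Continuous (fun p : OnePoint (Wt F₁ F₂) × ℝ => max (q p.1) p.2) :=
          (q_cont.comp continuous_fst).max continuous_snd
        have h2 := (this.tendsto (OnePoint.infty, 0)).mono_left
          (nhdsWithin_le_nhds (s := univ ×ˢ Icc (0:ℝ) 1))
        simpa using h2
      refine squeeze_zero' (Eventually.of_forall fun p => q_nonneg _) ?_ h1
      filter_upwards [self_mem_nhdsWithin] with p hp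
      exact q_Hp _ hp.2.1
    | coe w =>
      apply ContinuousAt.continuousWithinAt
      -- near `(w, 0)` the push is the truncation
      have hemb : IsOpenEmbedding (Prod.map ((↑) : Wt F₁ F₂ → OnePoint (Wt F₁ F₂)) (id : ℝ → ℝ)) :=
        OnePoint.isOpenEmbedding_coe.prodMap IsOpenEmbedding.id
      have e : ((w : OnePoint (Wt F₁ F₂)), (0:ℝ)) =
        Prod.map ((↑) : Wt F₁ F₂ → OnePoint (Wt F₁ F₂)) (id : ℝ → ℝ) (w, 0) := rfl
      rw [e, ← hemb.continuousAt_iff]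
      have h1 : ContinuousAt (fun p : Wt F₁ F₂ × ℝ => (Tr p.1 p.2 : OnePoint (Wt F₁ F₂))) (w, 0) :=
        (OnePoint.continuous_coe.comp Tr_cont).continuousAt
      refine h1.congr ?_
      have c1 : Continuous fun p : Wt F₁ F₂ × ℝ => p.2 * F₁.ρ (Tr p.1 p.2).x :=
        continuous_snd.mul (F₁.ρ_cont.comp (x_cont.comp Tr_cont))
      have c2 : Continuous fun p : Wt F₁ F₂ × ℝ => p.2 * F₂.ρ (Tr p.1 p.2).y :=
        continuous_snd.mul (F₂.ρ_cont.comp (y_cont.comp Tr_cont))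
      have c3 : Continuous fun p : Wt F₁ F₂ × ℝ => p.2 * |p.1.s| :=
        continuous_snd.mul (s_cont.comp continuous_fst).abs
      have e1 : ∀ᶠ p : Wt F₁ F₂ × ℝ in 𝓝 (w, 0), p.2 * F₁.ρ (Tr p.1 p.2).x < 1 :=
        (c1.tendsto (w, 0)).eventually_lt_const (by simp)
      have e2 : ∀ᶠ p : Wt F₁ F₂ × ℝ in 𝓝 (w, 0), p.2 * F₂.ρ (Tr p.1 p.2).y < 1 :=
        (c2.tendsto (w, 0)).eventually_lt_const (by simp)
      have e3 : ∀ᶠ p : Wt F₁ F₂ × ℝ in 𝓝 (w, 0), p.2 * |p.1.s| < 1 :=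
        (c3.tendsto (w, 0)).eventually_lt_const (by simp)
      filter_upwards [e1, e2, e3] with p p1 p2 p3
      simp only [Function.comp, Function.uncurry, Prod.map, id]
      by_cases hp : 0 < p.2
      · rw [Hp_coe _ hp, Fu_eq_Tr p.1 ⟨p.2, hp⟩ p1.le p2.le p3.le]
      · rw [Hp_nonpos _ (not_lt.1 hp), Tr_of_nonpos _ (not_lt.1 hp)]
  · apply ContinuousAt.continuousWithinAt
    simp only at h0
    induction z using OnePoint.rec with
    | infty =>
      -- near infinity the push is constant in space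
      have hemb : IsOpenEmbedding (Prod.map (id : OnePoint (Wt F₁ F₂) → OnePoint (Wt F₁ F₂))
          (Subtype.val : {r : ℝ // 0 < r} → ℝ)) :=
        IsOpenEmbedding.id.prodMap (isOpen_Ioi (a := (0:ℝ))).isOpenEmbedding_subtypeVal
      have e : ((OnePoint.infty : OnePoint (Wt F₁ F₂)), r) =
        Prod.map id (Subtype.val : {r : ℝ // 0 < r} → ℝ) (OnePoint.infty, ⟨r, h0⟩) := rfl
      rw [e, ← hemb.continuousAt_iff]
      have h1 : ContinuousAt (fun p : OnePoint (Wt F₁ F₂) × {r : ℝ // 0 < r} =>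
          ((Qr p.2 : Wt F₁ F₂) : OnePoint (Wt F₁ F₂))) (OnePoint.infty, ⟨r, h0⟩) :=
        (OnePoint.continuous_coe.comp (Qr_cont.comp continuous_snd)).continuousAt
      refine h1.congr ?_
      have c1 : Continuous fun p : OnePoint (Wt F₁ F₂) × {r : ℝ // 0 < r} =>
          3 * q p.1 - p.2.1 :=
        (continuous_const.mul (q_cont.comp continuous_fst)).sub
          (continuous_subtype_val.comp continuous_snd)
      have e1 : ∀ᶠ p : OnePoint (Wt F₁ F₂) × {r : ℝ // 0 < r} in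
          𝓝 (OnePoint.infty, ⟨r, h0⟩), 3 * q p.1 - p.2.1 < 0 :=
        (c1.tendsto _).eventually_lt_const (by simp [h0])
      filter_upwards [e1] with p p1
      simp only [Function.comp, Function.uncurry, Prod.map, id]
      obtain ⟨z, s, hs⟩ := p
      simp only at p1 ⊢
      induction z using OnePoint.rec with
      | infty => rw [Hp_infty hs]
      | coe w =>
        rw [Hp_coe _ hs, Fu_big]
        rw [q_coe] at p1
        have h2 := one_le_P w
        have h3 : 3 * (1 / w.P) < s := by linarith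
        rw [mul_one_div, div_lt_iff₀ (by linarith)] at h3
        exact h3.le
    | coe w =>
      have hemb : IsOpenEmbedding (Prod.map ((↑) : Wt F₁ F₂ → OnePoint (Wt F₁ F₂))
          (Subtype.val : {r : ℝ // 0 < r} → ℝ)) :=
        OnePoint.isOpenEmbedding_coe.prodMap (isOpen_Ioi (a := (0:ℝ))).isOpenEmbedding_subtypeVal
      have e : ((w : OnePoint (Wt F₁ F₂)), r) =
        Prod.map ((↑) : Wt F₁ F₂ → OnePoint (Wt F₁ F₂))
          (Subtype.val : {r : ℝ // 0 < r} → ℝ) (w, ⟨r, h0⟩) := rfl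
      rw [e, ← hemb.continuousAt_iff]
      have h1 : ContinuousAt (fun p : Wt F₁ F₂ × {r : ℝ // 0 < r} =>
          (Fu p.1 p.2 : OnePoint (Wt F₁ F₂))) (w, ⟨r, h0⟩) :=
        (OnePoint.continuous_coe.comp Fu_cont).continuousAt
      refine h1.congr (Eventually.of_forall fun p => ?_)
      simp only [Function.comp, Function.uncurry, Prod.map]
      rw [Hp_coe _ p.2.2]

end Wt

end Pool.Agent.H895R2.SB
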