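import Mathlib
import Pool.Agent.H895R2.SB.Pu

/-! General theorem: the collapsed product is a Z-structure boundary. -/

set_option maxHeartbeats 4000000
set_option synthInstance.maxHeartbeats 400000

namespace Pool.Agent.H895R2.SB

open Set Topology Filter
open Pool.Agent.Helper376.CL

variable {G₁ G₂ T₁ T₂ X₁ X₂ : Type} [Group G₁] [Group G₂] [TopologicalSpace T₁]
  [TopologicalSpace T₂] [MulAction G₁ T₁] [MulAction G₂ T₂] [TopologicalSpace X₁]
  [TopologicalSpace X₂] {F₁ : Fac G₁ T₁ X₁} {F₂ : Fac G₂ T₂ X₂}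

namespace Wt

/-- normalising factor -/
noncomputable def R (w : Wt F₁ F₂) : ℝ :=
  1 + w.s ^ 2 + F₁.ρ w.x ^ 2 + F₂.ρ w.y ^ 2 + F₁.κ w.x ^ 2 + F₂.κ w.y ^ 2

theorem R_cont : Continuous (R : Wt F₁ F₂ → ℝ) := by
  have h1 := F₁.ρ_cont.comp (x_cont (F₁ := F₁) (F₂ := F₂))
  have h2 := F₂.ρ_cont.comp (y_cont (F₁ := F₁) (F₂ := F₂))
  have h3 := F₁.κ_cont.comp (x_cont (F₁ := F₁) (F₂ := F₂))
  have h4 := F₂.κ_cont.comp (y_cont (F₁ := F₁) (F₂ := F₂))
  have h5 := s_cont (F₁ := F₁) (F₂ := F₂)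
  exact ((((continuous_const.add (h5.pow 2)).add (h1.pow 2)).add (h2.pow 2)).add (h3.pow 2)).add
    (h4.pow 2)

theorem R_pos (w : Wt F₁ F₂) : 0 < R w := by unfold R; positivity

theorem P_sq (w : Wt F₁ F₂) : w.P ^ 2 ≤ R w := by
  have h1 : w.P = F₁.ρ w.x ∨ w.P = F₂.ρ w.y ∨ w.P = |w.s| := by
    unfold P
    rcases max_choice (max (F₁.ρ w.x) (F₂.ρ w.y)) |w.s| with h | h
    · rcases max_choice (F₁.ρ w.x) (F₂.ρ w.y) with h' | h'
      · left; rw [h, h']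
      · right; left; rw [h, h']
    · right; right; exact h
  unfold R
  rcases h1 with h | h | h
  · rw [h]; nlinarith [sq_nonneg w.s, sq_nonneg (F₂.ρ w.y), sq_nonneg (F₁.κ w.x), sq_nonneg (F₂.κ w.y)]
  · rw [h]; nlinarith [sq_nonneg w.s, sq_nonneg (F₁.ρ w.x), sq_nonneg (F₁.κ w.x), sq_nonneg (F₂.κ w.y)]
  · rw [h, sq_abs]; nlinarith [sq_nonneg (F₁.ρ w.x), sq_nonneg (F₂.ρ w.y), sq_nonneg (F₁.κ w.x), sq_nonneg (F₂.κ w.y)]

/-- one coordinate of the embedding -/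
noncomputable def ec (c : Wt F₁ F₂ → ℝ) (z : OnePoint (Wt F₁ F₂)) : ℝ :=
  z.elim 0 (fun w => c w / R w)

theorem ec_cont {c : Wt F₁ F₂ → ℝ} (hc : Continuous c) (h : ∀ w, c w ^ 2 ≤ R w) :
    Continuous (ec c) := by
  rw [OnePoint.continuous_iff]
  constructor
  · show Tendsto (fun w => c w / R w) _ (𝓝 0)
    have h1 : Tendsto (fun w : Wt F₁ F₂ => q (w : OnePoint (Wt F₁ F₂)))
        (coclosedCompact (Wt F₁ F₂)) (𝓝 0) :=
      (OnePoint.continuous_iff _).1 q_cont |>.1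
    refine squeeze_zero_norm (fun w => ?_) h1
    rw [Real.norm_eq_abs, q_coe]
    have h2 := one_le_P w
    have h3 := R_pos w
    have h4 := P_sq w
    have h5 : (c w / R w) ^ 2 ≤ (1 / w.P) ^ 2 := by
      rw [div_pow, div_pow, one_pow]
      calc c w ^ 2 / R w ^ 2 ≤ R w / R w ^ 2 := by
            apply div_le_div_of_nonneg_right (h w); positivity
        _ = 1 / R w := by field_simp
        _ ≤ 1 / w.P ^ 2 := one_div_le_one_div_of_le (by positivity) h4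
    exact abs_le_of_sq_le_sq h5 (by positivity)
  · show Continuous (fun w => c w / R w)
    exact hc.div R_cont fun w => (R_pos w).ne'

/-- the embedding -/
noncomputable def Ph (z : OnePoint (Wt F₁ F₂)) : ℝ × ℝ × ℝ × ℝ × ℝ × ℝ :=
  (ec (fun _ => 1) z, ec s z, ec (fun w => F₁.a w.x) z, ec (fun w => F₁.κ w.x) z,
    ec (fun w => F₂.a w.y) z, ec (fun w => F₂.κ w.y) z)

theorem Ph_cont : Continuous (Ph : OnePoint (Wt F₁ F₂) → _) := by
  refine (ec_cont continuous_const ?_).prodMk ((ec_cont s_cont ?_).prodMk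
    ((ec_cont (F₁.a_cont.comp x_cont) ?_).prodMk ((ec_cont (F₁.κ_cont.comp x_cont) ?_).prodMk
    ((ec_cont (F₂.a_cont.comp y_cont) ?_).prodMk (ec_cont (F₂.κ_cont.comp y_cont) ?_)))))
  · intro w; unfold R; nlinarith [sq_nonneg w.s, sq_nonneg (F₁.ρ w.x), sq_nonneg (F₂.ρ w.y), sq_nonneg (F₁.κ w.x), sq_nonneg (F₂.κ w.y)]
  · intro w; unfold R; nlinarith [sq_nonneg w.s, sq_nonneg (F₁.ρ w.x), sq_nonneg (F₂.ρ w.y), sq_nonneg (F₁.κ w.x), sq_nonneg (F₂.κ w.y)]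
  · intro w
    have h1 : F₁.a w.x ^ 2 ≤ F₁.ρ w.x ^ 2 := pow_le_pow_left₀ (F₁.a_nonneg _) (F₁.a_le _) 2
    simp only [Function.comp_apply, R]; nlinarith [sq_nonneg w.s, sq_nonneg (F₁.ρ w.x), sq_nonneg (F₂.ρ w.y), sq_nonneg (F₁.κ w.x), sq_nonneg (F₂.κ w.y)]
  · intro w
    simp only [Function.comp, R]; nlinarith [sq_nonneg w.s, sq_nonneg (F₁.ρ w.x), sq_nonneg (F₂.ρ w.y), sq_nonneg (F₁.κ w.x), sq_nonneg (F₂.κ w.y)]
  · intro w
    have h1 : F₂.a w.y ^ 2 ≤ F₂.ρ w.y ^ 2 := pow_le_pow_left₀ (F₂.a_nonneg _) (F₂.a_le _) 2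
    simp only [Function.comp_apply, R]; nlinarith [sq_nonneg w.s, sq_nonneg (F₁.ρ w.x), sq_nonneg (F₂.ρ w.y), sq_nonneg (F₁.κ w.x), sq_nonneg (F₂.κ w.y)]
  · intro w
    simp only [Function.comp, R]; nlinarith [sq_nonneg w.s, sq_nonneg (F₁.ρ w.x), sq_nonneg (F₂.ρ w.y), sq_nonneg (F₁.κ w.x), sq_nonneg (F₂.κ w.y)]

theorem Ph_inj : Function.Injective (Ph : OnePoint (Wt F₁ F₂) → _) := by
  intro z z' h
  unfold Ph at h
  simp only [Prod.mk.injEq] at h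
  obtain ⟨h1, h2, h3, h4, h5, h6⟩ := h
  induction z using OnePoint.rec with
  | infty =>
    induction z' using OnePoint.rec with
    | infty => rfl
    | coe w =>
      exfalso
      have h7 : (0:ℝ) = 1 / R w := h1
      have h8 := R_pos w
      have : 0 < 1 / R w := by positivity
      linarith
  | coe w =>
    induction z' using OnePoint.rec with
    | infty =>
      exfalso
      have h7 : 1 / R w = 0 := h1
      have h8 := R_pos w
      have : 0 < 1 / R w := by positivity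
      linarith
    | coe w' =>
      have h7 : 1 / R w = 1 / R w' := h1
      have h8 := R_pos w
      have h8' := R_pos w'
      have hR : R w = R w' := by
        field_simp at h7
        exact h7.symm
      have key : ∀ c : Wt F₁ F₂ → ℝ, ec c (w : OnePoint _) = ec c (w' : OnePoint _) →
          c w = c w' := by
        intro c hc
        have hc' : c w / R w = c w' / R w' := hc
        rw [← hR] at hc'
        exact (div_left_inj' h8.ne').1 hc'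
      congr 1
      exact ext' (F₁.inj _ _ (key (fun w => F₁.a w.x) h3) (key (fun w => F₁.κ w.x) h4))
        (F₂.inj _ _ (key (fun w => F₂.a w.y) h5) (key (fun w => F₂.κ w.y) h6)) (key s h2)

variable (F₁ F₂)

/-- the finite part -/
def fin : Set (OnePoint (Wt F₁ F₂)) := (↑) '' {w : Wt F₁ F₂ | 0 < F₁.a w.x}

/-- the map from the product -/
noncomputable def jj (t : T₁ × T₂) : OnePoint (Wt F₁ F₂) :=
  ((mk2 (F₁.j t.1) (F₂.j t.2) (by have := mem_range_self (f := F₁.j) t.1; rw [F₁.j_range] at this; exact this)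
    (by have := mem_range_self (f := F₂.j) t.2; rw [F₂.j_range] at this; exact this) : Wt F₁ F₂) :
    OnePoint (Wt F₁ F₂))

theorem apos {w : Wt F₁ F₂} (h : 0 < F₁.a w.x) : 0 < F₂.a w.y := by
  rw [w.eq] at h
  exact (pos_iff_pos_of_mul_pos h).1 (Real.exp_pos _)

theorem jpos₁ (t : T₁) : 0 < F₁.a (F₁.j t) := by
  have := mem_range_self (f := F₁.j) t; rw [F₁.j_range] at this; exact this

theorem jj_range : range (jj F₁ F₂) = fin F₁ F₂ := by
  ext z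
  constructor
  · rintro ⟨t, rfl⟩
    exact ⟨_, jpos₁ F₁ t.1, rfl⟩
  · rintro ⟨w, hw, rfl⟩
    have h1 : w.x ∈ range F₁.j := by rw [F₁.j_range]; exact hw
    have hy := apos F₁ F₂ hw
    have h2 : w.y ∈ range F₂.j := by rw [F₂.j_range]; exact hy
    obtain ⟨t, ht⟩ := h1
    obtain ⟨t', ht'⟩ := h2
    refine ⟨(t, t'), ?_⟩
    unfold jj
    congr 1
    refine ext' ht ht' ?_
    show Real.log (F₁.a (F₁.j t)) - Real.log (F₂.a (F₂.j t')) = _
    rw [s_eq w hy, ht, ht']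

theorem fin_open : IsOpen (fin F₁ F₂) :=
  OnePoint.isOpenEmbedding_coe.isOpenMap _
    (isOpen_lt continuous_const (F₁.a_cont.comp x_cont))

theorem jj_emb : IsOpenEmbedding (jj F₁ F₂) := by
  refine ⟨?_, by rw [jj_range]; exact fin_open F₁ F₂⟩
  let k : T₁ × T₂ → Wt F₁ F₂ := fun t => mk2 (F₁.j t.1) (F₂.j t.2) (jpos₁ F₁ t.1)
    (jpos₁ F₂ t.2)
  have hk : Continuous k := mk2_cont _ _ (F₁.j_emb.continuous.comp continuous_fst)
    (F₂.j_emb.continuous.comp continuous_snd)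
  have h1 : IsEmbedding k := by
    refine IsEmbedding.of_comp hk (x_cont.prodMk y_cont) ?_
    have : (fun w : Wt F₁ F₂ => (w.x, w.y)) ∘ k = Prod.map F₁.j F₂.j := rfl
    rw [this]
    exact (F₁.j_emb.prodMap F₂.j_emb).isEmbedding
  exact OnePoint.isOpenEmbedding_coe.isEmbedding.comp h1

theorem Hp_fin (z : OnePoint (Wt F₁ F₂)) (r : ℝ) (hr : 0 < r) : Hp z r ∈ fin F₁ F₂ := by
  induction z using OnePoint.rec with
  | infty =>
    rw [Hp_infty hr]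
    refine ⟨_, ?_, rfl⟩
    show 0 < F₁.a (F₁.up F₁.x₀ (1 / r))
    rw [F₁.a_up, F₁.a_x₀]; exact lt_of_lt_of_le one_pos (le_max_left _ _)
  | coe w =>
    rw [Hp_coe w hr]
    exact ⟨_, Gam_apos F₁ (Tr_ax w hr), rfl⟩

end Wt

/-- the product action -/
@[reducible] def prodAct (G₁ G₂ T₁ T₂ : Type) [Group G₁] [Group G₂] [MulAction G₁ T₁] [MulAction G₂ T₂] :
    MulAction (G₁ × G₂) (T₁ × T₂) where
  smul g t := (g.1 • t.1, g.2 • t.2)
  one_smul t := by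
    show ((1 : G₁) • t.1, (1 : G₂) • t.2) = t
    rw [one_smul, one_smul]
  mul_smul g h t := by
    show ((g.1 * h.1) • t.1, (g.2 * h.2) • t.2) = (g.1 • h.1 • t.1, g.2 • h.2 • t.2)
    rw [mul_smul, mul_smul]

open Wt

/-- along an ultrafilter, if the translates of one point of a compact set converge in `Wt`, then
eventually the group element is one of finitely many, or all translates converge to the same point -/
theorem null_aux (F₁ : Fac G₁ T₁ X₁) (F₂ : Fac G₂ T₂ X₂) {ι : Type} (𝓤 : Ultrafilter ι)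
    (K₁ : Set T₁) (K₂ : Set T₂) (hK₁ : IsCompact K₁) (hK₂ : IsCompact K₂)
    (g : ι → G₁ × G₂) (p p' : ι → T₁ × T₂) (h1 : ∀ i, (p i).1 ∈ K₁) (h2 : ∀ i, (p i).2 ∈ K₂)
    (h1' : ∀ i, (p' i).1 ∈ K₁) (h2' : ∀ i, (p' i).2 ∈ K₂) (w : Wt F₁ F₂)
    (hw : Tendsto (fun i => jj F₁ F₂ ((g i).1 • (p i).1, (g i).2 • (p i).2)) 𝓤 (𝓝 (w : OnePoint _)))
    (hg : ∀ F : Set (G₁ × G₂), F.Finite → ∀ᶠ i in 𝓤, g i ∉ F) :
    Tendsto (fun i => jj F₁ F₂ ((g i).1 • (p' i).1, (g i).2 • (p' i).2)) 𝓤 (𝓝 (w : OnePoint _)) := by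
  let k : T₁ × T₂ → Wt F₁ F₂ := fun t => mk2 (F₁.j t.1) (F₂.j t.2) (jpos₁ F₁ t.1)
    (jpos₁ F₂ t.2)
  have hk : ∀ t, jj F₁ F₂ t = (k t : OnePoint _) := fun t => rfl
  have hw' : Tendsto (fun i => k ((g i).1 • (p i).1, (g i).2 • (p i).2)) 𝓤 (𝓝 w) := by
    rw [OnePoint.isOpenEmbedding_coe.isEmbedding.tendsto_nhds_iff]
    exact hw
  have hx : Tendsto (fun i => F₁.j ((g i).1 • (p i).1)) 𝓤 (𝓝 w.x) :=
    (x_cont.tendsto w).comp hw'
  have hy : Tendsto (fun i => F₂.j ((g i).2 • (p i).2)) 𝓤 (𝓝 w.y) :=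
    (y_cont.tendsto w).comp hw'
  have hs : Tendsto (fun i => Real.log (F₁.a (F₁.j ((g i).1 • (p i).1))) -
      Real.log (F₂.a (F₂.j ((g i).2 • (p i).2)))) 𝓤 (𝓝 w.s) :=
    (s_cont.tendsto w).comp hw'
  rcases (F₁.a_nonneg w.x).eq_or_lt with h0 | h0
  · have h0' : F₂.a w.y = 0 := by
      have := w.eq
      rw [← h0] at this
      exact (mul_eq_zero.1 this.symm).resolve_left (Real.exp_ne_zero _)
    obtain ⟨a1, a2⟩ := F₁.null 𝓤 K₁ (fun i => (g i).1) (fun i => (p i).1) (fun i => (p' i).1) w.x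
      hK₁ h1 h1' h0.symm hx
    obtain ⟨b1, b2⟩ := F₂.null 𝓤 K₂ (fun i => (g i).2) (fun i => (p i).2) (fun i => (p' i).2) w.y
      hK₂ h2 h2' h0' hy
    have hs' : Tendsto (fun i => Real.log (F₁.a (F₁.j ((g i).1 • (p' i).1))) -
        Real.log (F₂.a (F₂.j ((g i).2 • (p' i).2)))) 𝓤 (𝓝 w.s) := by
      have := (hs.add a2).sub b2
      simp only [add_zero, sub_zero] at this
      refine this.congr fun i => ?_
      ring
    have : Tendsto (fun i => k ((g i).1 • (p' i).1, (g i).2 • (p' i).2)) 𝓤 (𝓝 w) := by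
      rw [closed_emb.isEmbedding.tendsto_nhds_iff]
      exact a1.prodMk_nhds (b1.prodMk_nhds hs')
    exact (OnePoint.isOpenEmbedding_coe.isEmbedding.tendsto_nhds_iff).1 this
  · exfalso
    have h0' := apos F₁ F₂ h0
    have e1 : w.x ∈ range F₁.j := by rw [F₁.j_range]; exact h0
    have e2 : w.y ∈ range F₂.j := by rw [F₂.j_range]; exact h0'
    obtain ⟨t, ht⟩ := e1
    obtain ⟨t', ht'⟩ := e2
    rw [← ht] at hx
    rw [← ht'] at hy
    have hx' : Tendsto (fun i => (g i).1 • (p i).1) 𝓤 (𝓝 t) :=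
      F₁.j_emb.isEmbedding.tendsto_nhds_iff.2 hx
    have hy' : Tendsto (fun i => (g i).2 • (p i).2) 𝓤 (𝓝 t') :=
      F₂.j_emb.isEmbedding.tendsto_nhds_iff.2 hy
    obtain ⟨A, hA, hA'⟩ := F₁.prop 𝓤 K₁ _ _ t hK₁ h1 hx'
    obtain ⟨B, hB, hB'⟩ := F₂.prop 𝓤 K₂ _ _ t' hK₂ h2 hy'
    obtain ⟨i, hi1, hi2, hi3⟩ := (hA'.and (hB'.and (hg _ (hA.prod hB)))).exists
    exact hi3 ⟨hi1, hi2⟩

theorem null_gen (F₁ : Fac G₁ T₁ X₁) (F₂ : Fac G₂ T₂ X₂) (K : Set (T₁ × T₂)) (hK : IsCompact K)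
    (ε : ℝ) (hε : 0 < ε) :
    {g : G₁ × G₂ | ∃ p ∈ K, ∃ p' ∈ K, ε ≤ dist (Ph (jj F₁ F₂ (g.1 • p.1, g.2 • p.2)))
      (Ph (jj F₁ F₂ (g.1 • p'.1, g.2 • p'.2)))}.Finite := by
  by_contra hcon
  have hinf : Set.Infinite {g : G₁ × G₂ | ∃ p ∈ K, ∃ p' ∈ K,
      ε ≤ dist (Ph (jj F₁ F₂ (g.1 • p.1, g.2 • p.2)))
      (Ph (jj F₁ F₂ (g.1 • p'.1, g.2 • p'.2)))} := hcon
  set B : Set (G₁ × G₂) := {g : G₁ × G₂ | ∃ p ∈ K, ∃ p' ∈ K,
      ε ≤ dist (Ph (jj F₁ F₂ (g.1 • p.1, g.2 • p.2)))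
      (Ph (jj F₁ F₂ (g.1 • p'.1, g.2 • p'.2)))} with hB
  have hIB : Infinite B := hinf.to_subtype
  let 𝓤 : Ultrafilter B := hyperfilter B
  have hch : ∀ g : B, ∃ p ∈ K, ∃ p' ∈ K, ε ≤ dist (Ph (jj F₁ F₂ (g.1.1 • p.1, g.1.2 • p.2)))
      (Ph (jj F₁ F₂ (g.1.1 • p'.1, g.1.2 • p'.2))) := fun g => g.2
  choose p hp p' hp' hd using hch
  have hc1 := hK.image continuous_fst
  have hc2 := hK.image continuous_snd
  have hg : ∀ F : Set (G₁ × G₂), F.Finite → ∀ᶠ i : B in 𝓤, (i : G₁ × G₂) ∉ F := by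
    intro F hF
    have : ((Subtype.val : B → G₁ × G₂) ⁻¹' F).Finite :=
      hF.preimage Subtype.val_injective.injOn
    exact this.compl_mem_hyperfilter
  -- limits
  obtain ⟨z, -, hz⟩ := isCompact_univ.ultrafilter_le_nhds
    (𝓤.map (fun g : B => jj F₁ F₂ (g.1.1 • (p g).1, g.1.2 • (p g).2))) (by simp)
  obtain ⟨z', -, hz'⟩ := isCompact_univ.ultrafilter_le_nhds
    (𝓤.map (fun g : B => jj F₁ F₂ (g.1.1 • (p' g).1, g.1.2 • (p' g).2))) (by simp)
  have hz1 : Tendsto (fun g : B => jj F₁ F₂ (g.1.1 • (p g).1, g.1.2 • (p g).2)) 𝓤 (𝓝 z) := hz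
  have hz2 : Tendsto (fun g : B => jj F₁ F₂ (g.1.1 • (p' g).1, g.1.2 • (p' g).2)) 𝓤 (𝓝 z') := hz'
  have hT2 : T2Space (OnePoint (Wt F₁ F₂)) := inferInstance
  have hzz : z = z' := by
    induction z using OnePoint.rec with
    | infty =>
      induction z' using OnePoint.rec with
      | infty => rfl
      | coe w =>
        exact tendsto_nhds_unique hz1 (null_aux F₁ F₂ 𝓤 _ _ hc1 hc2 (fun g : B => g.1) p' p
          (fun i => ⟨_, hp' i, rfl⟩) (fun i => ⟨_, hp' i, rfl⟩) (fun i => ⟨_, hp i, rfl⟩)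
          (fun i => ⟨_, hp i, rfl⟩) w hz2 hg)
    | coe w =>
      exact (tendsto_nhds_unique hz2 (null_aux F₁ F₂ 𝓤 _ _ hc1 hc2 (fun g : B => g.1) p p'
          (fun i => ⟨_, hp i, rfl⟩) (fun i => ⟨_, hp i, rfl⟩) (fun i => ⟨_, hp' i, rfl⟩)
          (fun i => ⟨_, hp' i, rfl⟩) w hz1 hg)).symm
  subst hzz
  have hd1 : Tendsto (fun g : B => dist (Ph (jj F₁ F₂ (g.1.1 • (p g).1, g.1.2 • (p g).2)))
      (Ph (jj F₁ F₂ (g.1.1 • (p' g).1, g.1.2 • (p' g).2)))) 𝓤 (𝓝 (dist (Ph z) (Ph z))) :=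
    ((Ph_cont.tendsto z).comp hz1).dist ((Ph_cont.tendsto z).comp hz2)
  rw [dist_self] at hd1
  obtain ⟨g, hg'⟩ := (hd1.eventually_lt_const hε).exists
  exact absurd (hd g) (not_le.2 hg')

/-- the model boundary -/
abbrev Bd (F₁ : Fac G₁ T₁ X₁) (F₂ : Fac G₂ T₂ X₂) : Type :=
  OnePoint ({x : X₁ // F₁.a x = 0} × {y : X₂ // F₂.a y = 0} × ℝ)

/-- the inclusion of the model boundary -/
def inc (F₁ : Fac G₁ T₁ X₁) (F₂ : Fac G₂ T₂ X₂)
    (d : {x : X₁ // F₁.a x = 0} × {y : X₂ // F₂.a y = 0} × ℝ) : Wt F₁ F₂ :=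
  ⟨(d.1.1, d.2.1.1, d.2.2), by
    show F₁.a d.1.1 = Real.exp d.2.2 * F₂.a d.2.1.1
    rw [d.1.2, d.2.1.2, mul_zero]⟩

theorem inc_emb (F₁ : Fac G₁ T₁ X₁) (F₂ : Fac G₂ T₂ X₂) : IsClosedEmbedding (inc F₁ F₂) := by
  have hc : Continuous (inc F₁ F₂) := by
    apply Continuous.subtype_mk
    exact (continuous_subtype_val.comp continuous_fst).prodMk
      ((continuous_subtype_val.comp (continuous_fst.comp continuous_snd)).prodMk
        (continuous_snd.comp continuous_snd))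
  have h1 : IsEmbedding (inc F₁ F₂) := by
    refine IsEmbedding.of_comp hc continuous_subtype_val ?_
    exact (IsEmbedding.subtypeVal.prodMap (IsEmbedding.subtypeVal.prodMap IsEmbedding.id))
  refine ⟨h1, ?_⟩
  have : range (inc F₁ F₂) = {w | F₁.a w.x = 0} := by
    ext w
    constructor
    · rintro ⟨d, rfl⟩
      exact d.1.2
    · intro hw
      have hw' : F₁.a w.x = 0 := hw
      have h2 : F₂.a w.y = 0 := by
        have := w.eq
        rw [hw'] at this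
        exact (mul_eq_zero.1 this.symm).resolve_left (Real.exp_ne_zero _)
      exact ⟨(⟨w.x, hw'⟩, ⟨w.y, h2⟩, w.s), rfl⟩
  rw [this]
  exact isClosed_eq (F₁.a_cont.comp x_cont) continuous_const

theorem bd_homeo (F₁ : Fac G₁ T₁ X₁) (F₂ : Fac G₂ T₂ X₂) :
    Nonempty (Bd F₁ F₂ ≃ₜ ↥((fin F₁ F₂)ᶜ)) := by
  have h1 := inc_emb F₁ F₂
  have hc : Continuous (OnePoint.map (inc F₁ F₂)) := by
    have i1 := F₁.t2
    have i2 := F₂.t2
    refine OnePoint.continuous_map h1.continuous ?_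
    have := h1.tendsto_cocompact
    rw [Filter.coclosedCompact_eq_cocompact, Filter.coclosedCompact_eq_cocompact]
    exact this
  have hinj : Function.Injective (OnePoint.map (inc F₁ F₂)) := Option.map_injective h1.injective
  have hemb := (hc.isClosedEmbedding hinj).isEmbedding
  have hr : range (OnePoint.map (inc F₁ F₂)) = (fin F₁ F₂)ᶜ := by
    ext z
    induction z using OnePoint.rec with
    | infty =>
      refine iff_of_true ⟨OnePoint.infty, rfl⟩ ?_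
      rintro ⟨w, -, hw⟩
      exact OnePoint.coe_ne_infty _ hw
    | coe w =>
      constructor
      · rintro ⟨d, hd⟩ ⟨w', hw', he⟩
        have e1 : w' = w := OnePoint.coe_injective he
        subst e1
        induction d using OnePoint.rec with
        | infty => exact OnePoint.infty_ne_coe _ hd
        | coe d =>
          have e2 : inc F₁ F₂ d = w' := OnePoint.coe_injective hd
          rw [← e2] at hw'
          have h2 : 0 < F₁.a d.1.1 := hw'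
          rw [d.1.2] at h2
          exact lt_irrefl _ h2
      · intro hw
        have h3 : F₁.a w.x = 0 := by
          by_contra h4
          exact hw ⟨w, lt_of_le_of_ne (F₁.a_nonneg _) (Ne.symm h4), rfl⟩
        have h2 : F₂.a w.y = 0 := by
          have := w.eq
          rw [h3] at this
          exact (mul_eq_zero.1 this.symm).resolve_left (Real.exp_ne_zero _)
        let d : {x : X₁ // F₁.a x = 0} × {y : X₂ // F₂.a y = 0} × ℝ := (⟨w.x, h3⟩, ⟨w.y, h2⟩, w.s)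
        exact ⟨(d : OnePoint _), rfl⟩
  exact ⟨hemb.toHomeomorph.trans (Homeomorph.setCongr hr)⟩

theorem isZBoundary_of_homeo {G : Type} [Group G] {Z Z' : Type} [TopologicalSpace Z]
    [TopologicalSpace Z'] (h : IsZBoundary G Z) (e : Z' ≃ₜ Z) : IsZBoundary G Z' := by
  obtain ⟨X, mX, S, act, h1, ⟨e'⟩⟩ := h
  exact ⟨X, mX, S, act, h1, ⟨e.trans e'⟩⟩

theorem isZBoundary_prod (F₁ : Fac G₁ T₁ X₁) (F₂ : Fac G₂ T₂ X₂) :
    IsZBoundary (G₁ × G₂) (Bd F₁ F₂) := by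
  obtain ⟨e⟩ := bd_homeo F₁ F₂
  refine isZBoundary_of_homeo ?_ e
  let _act := prodAct G₁ G₂ T₁ T₂
  have hR : range (jj F₁ F₂) = ((fin F₁ F₂)ᶜ)ᶜ := by rw [jj_range, compl_compl]
  have hae : IsAE ↥(fin F₁ F₂) := by
    have e1 : T₁ × T₂ ≃ₜ ↥(fin F₁ F₂) :=
      (jj_emb F₁ F₂).isEmbedding.toHomeomorph.trans (Homeomorph.setCongr (jj_range F₁ F₂))
    exact isAE_retract e1.symm e1 e1.symm.continuous e1.continuous
      (fun y => e1.apply_symm_apply y) (isAE_prod F₁.ae F₂.ae)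
  refine isZBoundary_of (fin F₁ F₂)ᶜ (fin_open F₁ F₂).isClosed_compl Ph Ph_cont Ph_inj
    (fin F₁ F₂) hae Hp Hp_cont (fun x => Hp_nonpos x (le_refl _)) (fun x t h _ => Hp_fin F₁ F₂ x t h)
    Hp Hp_cont (fun x => Hp_nonpos x (le_refl _))
    (fun x t h _ h' => h' (Hp_fin F₁ F₂ x t h)) (jj F₁ F₂) (jj_emb F₁ F₂) hR ?_ ?_
    (F₁.K₀ ×ˢ F₂.K₀) (F₁.K₀_comp.prod F₂.K₀_comp) ?_ ?_
  · intro g
    exact ((F₁.smul_cont g.1).comp continuous_fst).prodMk ((F₂.smul_cont g.2).comp continuous_snd)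
  · intro y
    obtain ⟨U, hU, hyU, h1⟩ := F₁.cov y.1
    obtain ⟨V, hV, hyV, h2⟩ := F₂.cov y.2
    refine ⟨U ×ˢ V, hU.prod hV, ⟨hyU, hyV⟩, fun g hg => ?_⟩
    rw [Set.disjoint_left]
    rintro _ ⟨z, ⟨hz1, hz2⟩, rfl⟩ ⟨hz3, hz4⟩
    by_cases hg1 : g.1 = 1
    · have hg2 : g.2 ≠ 1 := fun h => hg (Prod.ext hg1 h)
      exact Set.disjoint_left.1 (h2 _ hg2) ⟨z.2, hz2, rfl⟩ hz4
    · exact Set.disjoint_left.1 (h1 _ hg1) ⟨z.1, hz1, rfl⟩ hz3
  · intro y
    obtain ⟨g, hg⟩ := F₁.coc y.1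
    obtain ⟨g', hg'⟩ := F₂.coc y.2
    exact ⟨(g, g'), hg, hg'⟩
  · intro K hK ε hε
    exact null_gen F₁ F₂ K hK ε hε

end Pool.Agent.H895R2.SB
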