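import Mathlib
import Pool.Agent.H895R2.SB.F2Fac
import Pool.Agent.H895R2.SB.Gen

/-! The ends of the tree. -/

set_option maxHeartbeats 4000000
set_option synthInstance.maxHeartbeats 400000

namespace Pool.Agent.H895R2.SB

open Set Topology Filter
open Pool.Agent.Helper376.CL

section

variable {V : Type} (R : RT V) (ch : ∀ v, Fin 3 ≃ {u : V // R.par u = v})

/-- the ray with given start and labels -/
def ray (w : V) (f : ℕ → Fin 3) : ℕ → V
  | 0 => w
  | n + 1 => (ch (ray w f n) (f n)).1

theorem par_ray (w : V) (f : ℕ → Fin 3) (n : ℕ) : R.par (ray R ch w f (n + 1)) = ray R ch w f n :=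
  (ch (ray R ch w f n) (f n)).2

theorem ht_ray {w : V} (hw : R.ht w = 0) (f : ℕ → Fin 3) (n : ℕ) : R.ht (ray R ch w f n) = n := by
  induction n with
  | zero => exact hw
  | succ n ih =>
    have h1 := R.ht_par (ray R ch w f (n + 1))
    rw [par_ray, ih] at h1
    push_cast
    omega

theorem J_ray {w : V} (hw : R.ht w = 0) (f : ℕ → Fin 3) (u : V) {n : ℕ} (hn : R.ht u ≤ n) (k : ℕ) :
    R.J (ray R ch w f (n + k)) u = R.J (ray R ch w f n) u := by
  induction k with
  | zero => rfl
  | succ k ih =>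
    rw [← ih]
    have h1 := RT.J_par (R := R) (ray R ch w f (n + (k + 1))) u
    rw [← add_assoc, par_ray, ht_ray R ch hw] at h1
    have h2 := RT.J_le_right (R := R) (ray R ch w f (n + k + 1)) u
    rw [← add_assoc]
    push_cast at h1
    omega

theorem J_ray' {w : V} (hw : R.ht w = 0) (f : ℕ → Fin 3) (u : V) {n m : ℕ} (hn : R.ht u ≤ n)
    (hm : R.ht u ≤ m) : R.J (ray R ch w f m) u = R.J (ray R ch w f n) u := by
  rcases le_total n m with h | h
  · obtain ⟨k, rfl⟩ := Nat.exists_eq_add_of_le h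
    exact J_ray R ch hw f u hn k
  · obtain ⟨k, rfl⟩ := Nat.exists_eq_add_of_le h
    exact (J_ray R ch hw f u hm k).symm

/-- the end of a ray -/
noncomputable def rend (w : {w : V // R.ht w = 0}) (f : ℕ → Fin 3) : TT R :=
  ⟨fun u => th (R.J (ray R ch w f (R.ht u).toNat) u), fun u v => by
    have hu : R.ht u ≤ ((R.ht u).toNat : ℤ) := by omega
    have hv : R.ht v ≤ ((R.ht v).toNat : ℤ) := by omega
    set n := max (R.ht u).toNat (R.ht v).toNat with hn
    have e1 : R.J (ray R ch w f (R.ht u).toNat) u = R.J (ray R ch w f n) u :=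
      J_ray' R ch w.2 f u (by omega) hu
    have e2 : R.J (ray R ch w f (R.ht v).toNat) v = R.J (ray R ch w f n) v :=
      J_ray' R ch w.2 f v (by omega) hv
    simp only [e1, e2]
    exact (TT.pt R (ray R ch w f n)).2 u v⟩

theorem rend_apply (w : {w : V // R.ht w = 0}) (f : ℕ → Fin 3) (u : V) {n : ℕ} (hn : R.ht u ≤ n) :
    rend R ch w f u = th (R.J (ray R ch w f n) u) := by
  show th (R.J (ray R ch w f (R.ht u).toNat) u) = _
  rw [J_ray' R ch w.2 f u hn (by omega)]

theorem rend_ray (w : {w : V // R.ht w = 0}) (f : ℕ → Fin 3) (n : ℕ) :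
    rend R ch w f (ray R ch w f n) = th n := by
  rw [rend_apply R ch w f _ (n := n) (by rw [ht_ray R ch w.2]), RT.J_self, ht_ray R ch w.2]

theorem a_rend (w : {w : V // R.ht w = 0}) (f : ℕ → Fin 3) : TT.a (rend R ch w f) = 0 := by
  apply le_antisymm _ (TT.a_nonneg _)
  by_contra hc
  push Not at hc
  obtain ⟨n, hn⟩ := th_small hc
  have h1 := TT.a_le (rend R ch w f) (ray R ch w f n.toNat)
  rw [rend_ray] at h1
  have h2 : th (n.toNat : ℤ) ≤ th n := th_le.2 (by omega)
  linarith

theorem vx_rend (w : {w : V // R.ht w = 0}) (f : ℕ → Fin 3) (n : ℕ) :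
    TT.vx (rend R ch w f) ((n : ℤ) - 1) = ray R ch w f n := by
  apply TT.vx_eq
  · rw [ht_ray R ch w.2]; ring
  · rw [rend_ray]
    exact th_lt.2 (by omega)

variable {R}

theorem a_zero_lt {E : TT R} (h : TT.a E = 0) (n : ℤ) : TT.a E < th n := by rw [h]; exact th_pos n

theorem vx_anc {E : TT R} (h : TT.a E = 0) (n : ℤ) (k : ℕ) :
    TT.vx E (n - k) = R.par^[k] (TT.vx E n) := by
  induction k with
  | zero => simp
  | succ k ih =>
    rw [Function.iterate_succ_apply', ← ih, TT.par_vx E (a_zero_lt h _)]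
    congr 1
    push_cast
    ring

/-- two ends agree if they agree at all nonnegative heights -/
theorem end_eq {E E' : TT R} (h : TT.a E = 0) (h' : TT.a E' = 0)
    (hv : ∀ n : ℕ, TT.vx E ((n : ℤ) - 1) = TT.vx E' ((n : ℤ) - 1)) : E = E' := by
  refine TT.eq_of_path (by rw [h, h']) fun n _ => ?_
  rcases le_total (-1) n with hn | hn
  · have := hv (n + 1).toNat
    have e : (((n + 1).toNat : ℕ) : ℤ) - 1 = n := by omega
    rwa [e] at this
  · have h1 := hv 0
    have h2 := vx_anc h (((0 : ℕ) : ℤ) - 1) (-1 - n).toNat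
    have h3 := vx_anc h' (((0 : ℕ) : ℤ) - 1) (-1 - n).toNat
    have e : ((0 : ℕ) : ℤ) - 1 - ((-1 - n).toNat : ℕ) = n := by omega
    rw [e] at h2 h3
    rw [h2, h3, h1]

/-- starting vertex of an end -/
noncomputable def sv (E : {E : TT R // TT.a E = 0}) : {w : V // R.ht w = 0} :=
  ⟨TT.vx E.1 (((0 : ℕ) : ℤ) - 1), by
    rw [(TT.vx_spec E.1 (a_zero_lt E.2 _)).1]; simp⟩

/-- labels of an end -/
noncomputable def lab (E : {E : TT R // TT.a E = 0}) (n : ℕ) : Fin 3 :=
  (ch (TT.vx E.1 ((n : ℤ) - 1))).symm ⟨TT.vx E.1 (((n + 1 : ℕ) : ℤ) - 1), by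
    rw [TT.par_vx E.1 (a_zero_lt E.2 _)]
    congr 1
    push_cast
    ring⟩

theorem ray_lab (E : {E : TT R // TT.a E = 0}) (n : ℕ) :
    ray R ch (sv E).1 (lab ch E) n = TT.vx E.1 ((n : ℤ) - 1) := by
  induction n with
  | zero => rfl
  | succ n ih =>
    show (ch (ray R ch (sv E).1 (lab ch E) n) (lab ch E n)).1 = _
    rw [ih]
    unfold lab
    rw [Equiv.apply_symm_apply]

variable (R)

theorem ray_locConst [TopologicalSpace V] [DiscreteTopology V] (n : ℕ) :
    Continuous fun q : {w : V // R.ht w = 0} × (ℕ → Fin 3) => ray R ch q.1 q.2 n := by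
  induction n with
  | zero => exact continuous_subtype_val.comp continuous_fst
  | succ n ih =>
    have h1 : Continuous fun q : {w : V // R.ht w = 0} × (ℕ → Fin 3) =>
        (ray R ch q.1 q.2 n, q.2 n) :=
      ih.prodMk ((continuous_apply n).comp continuous_snd)
    have h2 : Continuous fun r : V × Fin 3 => (ch r.1 r.2).1 := continuous_of_discreteTopology
    exact h2.comp h1

/-- the ends as a product -/
noncomputable def endsHomeo [TopologicalSpace V] [DiscreteTopology V] :
    {E : TT R // TT.a E = 0} ≃ₜ {w : V // R.ht w = 0} × (ℕ → Fin 3) where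
  toFun E := (sv E, lab ch E)
  invFun q := ⟨rend R ch q.1 q.2, a_rend R ch q.1 q.2⟩
  left_inv E := by
    apply Subtype.ext
    refine end_eq (a_rend R ch _ _) E.2 fun n => ?_
    rw [vx_rend]
    exact ray_lab ch E n
  right_inv q := by
    obtain ⟨w, f⟩ := q
    have h0 : sv (⟨rend R ch w f, a_rend R ch w f⟩ : {E : TT R // TT.a E = 0}) = w := by
      apply Subtype.ext
      exact vx_rend R ch w f 0
    refine Prod.ext h0 ?_
    funext n
    show (ch (TT.vx (rend R ch w f) ((n : ℤ) - 1))).symm ⟨TT.vx (rend R ch w f) (((n + 1 : ℕ) : ℤ) - 1), _⟩ = f n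
    have key : ∀ (u v : V) (hu : u = ray R ch w f n) (hv : v = ray R ch w f (n + 1)) (h : R.par v = u),
        (ch u).symm ⟨v, h⟩ = f n := by
      rintro u v rfl rfl h
      rw [Equiv.symm_apply_eq]
      apply Subtype.ext
      rfl
    exact key _ _ (vx_rend R ch w f n) (vx_rend R ch w f (n + 1)) _
  continuous_toFun := by
    have hloc : ∀ (n : ℤ) (E₀ : {E : TT R // TT.a E = 0}),
        ∀ᶠ E : {E : TT R // TT.a E = 0} in 𝓝 E₀, TT.vx E.1 n = TT.vx E₀.1 n := by
      intro n E₀
      have h1 := TT.vx_locConst (a_zero_lt E₀.2 n)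
      have h2 : Tendsto (Subtype.val : {E : TT R // TT.a E = 0} → TT R) (𝓝 E₀) (𝓝 E₀.1) :=
        continuous_subtype_val.tendsto E₀
      exact (h2.eventually h1).mono fun E hE => hE.2
    refine Continuous.prodMk ?_ (continuous_pi fun n => ?_)
    · rw [continuous_iff_continuousAt]
      intro E₀
      refine (continuousAt_const (y := sv E₀)).congr ?_
      filter_upwards [hloc (((0 : ℕ) : ℤ) - 1) E₀] with E hE
      exact Subtype.ext hE.symm
    · rw [continuous_iff_continuousAt]
      intro E₀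
      refine (continuousAt_const (y := lab ch E₀ n)).congr ?_
      filter_upwards [hloc ((n : ℤ) - 1) E₀, hloc (((n + 1 : ℕ) : ℤ) - 1) E₀] with E hE hE'
      have key : ∀ (u v u' v' : V) (hu : u = u') (hv : v = v') (h : R.par v = u) (h' : R.par v' = u'),
          (ch u').symm ⟨v', h'⟩ = (ch u).symm ⟨v, h⟩ := by
        rintro u v u' v' rfl rfl h h'
        rfl
      exact key _ _ _ _ hE hE' _ _
  continuous_invFun := by
    apply Continuous.subtype_mk
    apply Continuous.subtype_mk
    refine continuous_pi fun u => ?_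
    exact (continuous_of_discreteTopology (f := fun v : V => th (R.J v u))).comp
      (ray_locConst R ch (R.ht u).toNat)

end

/-! ### the free group -/

theorem card_ne (y : A) : Fintype.card {x : A // x ≠ y} = 3 := by
  revert y; decide

/-- children of a vertex -/
theorem exists_ch (v : F2) : Nonempty (Fin 3 ≃ {u : F2 // RF.par u = v}) := by
  have e : {x : A // x ≠ invA (fl v)} ≃ {u : F2 // RF.par u = v} :=
    { toFun := fun x => ⟨lt x.1 * v, parF_lt_mul x.2⟩
      invFun := fun u => ⟨fl u.1, by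
        intro h
        have h1 : parF u.1 = v := u.2
        have h2 := lt_fl_mul_parF u.1
        rw [h1, h] at h2
        have h3 : parF v = u.1 := h2
        have h4 := htF_parF u.1
        have h5 := htF_parF v
        rw [h1] at h4
        rw [h3] at h5
        omega⟩
      left_inv := fun x => Subtype.ext (fl_lt_mul x.2)
      right_inv := fun u => by
        apply Subtype.ext
        have h1 : parF u.1 = v := u.2
        have h2 := lt_fl_mul_parF u.1
        rw [h1] at h2
        exact h2 }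
  exact ⟨((Fintype.equivFinOfCardEq (card_ne (invA (fl v)))).symm).trans e⟩

instance : Countable F2 := FreeGroup.toWord_injective.countable

theorem good_rep (k : ℕ) : Good (List.replicate k ((1 : Fin 2), true)) := by
  induction k with
  | zero => trivial
  | succ k ih =>
    rw [List.replicate_succ]
    refine ⟨?_, ih⟩
    cases k with
    | zero => exact fun h => absurd h (by decide)
    | succ k => rw [List.replicate_succ]; exact fun _ => rfl

instance : Infinite {v : F2 // RF.ht v = 0} := by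
  have h : ∀ k : ℕ, ∃ v : F2, pw v = List.replicate k ((1 : Fin 2), true) ∧ kap v = -(k : ℤ) := fun k =>
    exists_vertex (good_rep k) _
  choose f hf using h
  refine Infinite.of_injective (fun k : ℕ => (⟨f k, ?_⟩ : {v : F2 // RF.ht v = 0})) ?_
  · show ((pw (f k)).length : ℤ) + kap (f k) = 0
    rw [(hf k).1, (hf k).2, List.length_replicate]
    ring
  · intro k l hkl
    have h1 : f k = f l := congrArg Subtype.val hkl
    have h2 := (hf k).2
    rw [h1, (hf l).2] at h2
    omega

/-- the space of ends other than the root is a countable sum of Cantor sets -/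
theorem ends_model : Nonempty ({E : TT RF // facF.a E = 0} ≃ₜ ℕ × (ℕ → Fin 3)) := by
  let _t : TopologicalSpace F2 := ⊥
  have _d : DiscreteTopology F2 := ⟨rfl⟩
  have ch : ∀ v, Fin 3 ≃ {u : F2 // RF.par u = v} := fun v => (exists_ch v).some
  have e1 := endsHomeo RF ch
  obtain ⟨e2⟩ : Nonempty ({v : F2 // RF.ht v = 0} ≃ ℕ) := by
    have hd : Denumerable {v : F2 // RF.ht v = 0} :=
      Classical.choice (nonempty_denumerable {v : F2 // RF.ht v = 0})
    exact ⟨Denumerable.eqv _⟩
  have e3 : {v : F2 // RF.ht v = 0} ≃ₜ ℕ :=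
    { e2 with
      continuous_toFun := continuous_of_discreteTopology
      continuous_invFun := continuous_of_discreteTopology }
  exact ⟨e1.trans (e3.prodCongr (Homeomorph.refl _))⟩

/-- it is homeomorphic to its square -/
theorem model_sq : Nonempty ((ℕ × (ℕ → Fin 3)) × (ℕ × (ℕ → Fin 3)) ≃ₜ ℕ × (ℕ → Fin 3)) := by
  have e1 : (ℕ × (ℕ → Fin 3)) × (ℕ × (ℕ → Fin 3)) ≃ₜ (ℕ × ℕ) × ((ℕ → Fin 3) × (ℕ → Fin 3)) :=
    Homeomorph.prodProdProdComm _ _ _ _
  have e2 : ℕ × ℕ ≃ₜ ℕ :=
    { Nat.pairEquiv with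
      continuous_toFun := continuous_of_discreteTopology
      continuous_invFun := continuous_of_discreteTopology }
  have e3 : (ℕ → Fin 3) × (ℕ → Fin 3) ≃ₜ (ℕ ⊕ ℕ → Fin 3) :=
    (Homeomorph.sumArrowHomeomorphProdArrow (ι := ℕ) (ι' := ℕ) (X := Fin 3)).symm
  have e4 : (ℕ ⊕ ℕ → Fin 3) ≃ₜ (ℕ → Fin 3) :=
    Homeomorph.piCongrLeft (Y := fun _ => Fin 3) Equiv.natSumNatEquivNat
  exact ⟨e1.trans (e2.prodCongr (e3.trans e4))⟩

/-- the common boundary: the one-point compactification of the product of the line and a countable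
sum of Cantor sets -/
abbrev ZZ : Type := OnePoint ((ℕ × (ℕ → Fin 3)) × ℝ)

theorem bd_FZ : IsZBoundary (F2 × Multiplicative ℤ) ZZ := by
  obtain ⟨e⟩ := ends_model
  have e1 : {x : XZ // facZ.a x = 0} ≃ₜ PUnit.{1} :=
    { toFun := fun _ => PUnit.unit
      invFun := fun _ => ⟨⟨0, le_refl _⟩, rfl⟩
      left_inv := fun x => (facZ_bd x).symm
      right_inv := fun _ => rfl
      continuous_toFun := continuous_const
      continuous_invFun := continuous_const }
  have e2 : {E : TT RF // facF.a E = 0} × ({x : XZ // facZ.a x = 0} × ℝ) ≃ₜ (ℕ × (ℕ → Fin 3)) × ℝ :=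
    e.prodCongr ((e1.prodCongr (Homeomorph.refl ℝ)).trans (Homeomorph.punitProd ℝ))
  exact isZBoundary_of_homeo (isZBoundary_prod facF facZ) e2.onePointCongr.symm

theorem bd_FF : IsZBoundary (F2 × F2) ZZ := by
  obtain ⟨e⟩ := ends_model
  obtain ⟨e'⟩ := model_sq
  have e2 : {E : TT RF // facF.a E = 0} × ({E : TT RF // facF.a E = 0} × ℝ) ≃ₜ (ℕ × (ℕ → Fin 3)) × ℝ :=
    (Homeomorph.prodAssoc _ _ _).symm.trans (((e.prodCongr e).trans e').prodCongr (Homeomorph.refl ℝ))
  exact isZBoundary_of_homeo (isZBoundary_prod facF facF) e2.onePointCongr.symm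

end Pool.Agent.H895R2.SB
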