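import Mathlib

/-! Definitions: two-ended groups and splittings over two-ended subgroups. -/

namespace Pool.Agent.H895R2.SB

/-- A group is two-ended if it is virtually infinite cyclic: some element of infinite order generates
a subgroup of finite index. -/
def IsTwoEnded (K : Type) [Group K] : Prop :=
  ∃ g : K, orderOf g = 0 ∧ (Subgroup.zpowers g).FiniteIndex

/-- `G` splits over a two-ended subgroup: it acts on a simplicial tree `T` (with vertex set `V`) by
automorphisms, without inversions, without global fixed point, with one orbit of (unoriented) edges,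
and with two-ended edge stabilisers. -/
def SplitsOverTwoEnded (G : Type) [Group G] : Prop :=
  ∃ (V : Type) (T : SimpleGraph V) (_ : MulAction G V), T.IsTree ∧
    (∀ (g : G) (u v : V), T.Adj u v → T.Adj (g • u) (g • v)) ∧
    (∀ (g : G) (u v : V), T.Adj u v → ¬ (g • u = v ∧ g • v = u)) ∧
    (¬ ∃ v : V, ∀ g : G, g • v = v) ∧
    (∀ u v u' v' : V, T.Adj u v → T.Adj u' v' →
      ∃ g : G, (g • u = u' ∧ g • v = v') ∨ (g • u = v' ∧ g • v = u')) ∧
    (∀ u v : V, T.Adj u v →
      IsTwoEnded ↥(MulAction.stabilizer G u ⊓ MulAction.stabilizer G v))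

end Pool.Agent.H895R2.SB
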