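import Mathlib
import Pool.Agent.H895R2.SB.Act
import Pool.Agent.H895R2.SB.SplitDefs

/-! The product of two free groups does not split over a two-ended subgroup. -/

set_option maxHeartbeats 4000000
set_option synthInstance.maxHeartbeats 400000

namespace Pool.Agent.H895R2.SB

/-- in a two-ended group any two elements have common powers -/
theorem common_power {K : Type} [Group K] (h : IsTwoEnded K) (x y : K) :
    ∃ i j : ℤ, (i ≠ 0 ∨ j ≠ 0) ∧ x ^ i = y ^ j := by
  obtain ⟨t, ht, hf⟩ := h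
  obtain ⟨p, hp, hxp⟩ := Subgroup.exists_pow_mem_of_index_ne_zero hf.index_ne_zero x
  obtain ⟨q, hq, hyq⟩ := Subgroup.exists_pow_mem_of_index_ne_zero hf.index_ne_zero y
  obtain ⟨r, hr⟩ := Subgroup.mem_zpowers_iff.1 hxp.2
  obtain ⟨s, hs⟩ := Subgroup.mem_zpowers_iff.1 hyq.2
  by_cases hs0 : s = 0
  · refine ⟨0, q, Or.inr (by omega), ?_⟩
    rw [zpow_zero, zpow_natCast, ← hs, hs0, zpow_zero]
  · refine ⟨p * s, q * r, Or.inl ?_, ?_⟩
    · exact mul_ne_zero (by omega) hs0
    · rw [zpow_mul, zpow_mul, zpow_natCast, zpow_natCast, ← hr, ← hs, ← zpow_mul, ← zpow_mul,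
        mul_comm]

abbrev FF := FreeGroup (Fin 2)

/-- the affine representation with dilation factor `l` -/
noncomputable def aff (l : ℚ) (hl : l ≠ 0) : FF →* Equiv.Perm ℚ :=
  FreeGroup.lift ![Equiv.mulLeft₀ l hl, Equiv.addRight (1:ℚ)]

theorem aff_x (l : ℚ) (hl : l ≠ 0) (t : ℚ) : aff l hl (FreeGroup.of 0) t = l * t := by
  simp [aff]

theorem aff_x' (l : ℚ) (hl : l ≠ 0) (t : ℚ) : aff l hl (FreeGroup.of 0)⁻¹ t = l⁻¹ * t := by
  rw [map_inv, Equiv.Perm.inv_eq_iff_eq, aff_x]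
  field_simp

theorem aff_y (l : ℚ) (hl : l ≠ 0) (t : ℚ) : aff l hl (FreeGroup.of 1) t = t + 1 := by
  simp [aff]

theorem aff_y' (l : ℚ) (hl : l ≠ 0) (t : ℚ) : aff l hl (FreeGroup.of 1)⁻¹ t = t - 1 := by
  rw [map_inv, Equiv.Perm.inv_eq_iff_eq, aff_y]
  ring

/-- first commutator -/
def k1 : FF := FreeGroup.of 0 * FreeGroup.of 1 * (FreeGroup.of 0)⁻¹ * (FreeGroup.of 1)⁻¹

/-- second commutator -/
def k2 : FF := (FreeGroup.of 0 * FreeGroup.of 0) * FreeGroup.of 1 * (FreeGroup.of 0 * FreeGroup.of 0)⁻¹ *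
  (FreeGroup.of 1)⁻¹

theorem aff_k1 (l : ℚ) (hl : l ≠ 0) (t : ℚ) : aff l hl k1 t = t + (l - 1) := by
  unfold k1
  rw [map_mul, map_mul, map_mul, Equiv.Perm.mul_apply, Equiv.Perm.mul_apply, Equiv.Perm.mul_apply,
    aff_y', aff_x', aff_y, aff_x]
  field_simp
  ring

theorem aff_k2 (l : ℚ) (hl : l ≠ 0) (t : ℚ) : aff l hl k2 t = t + (l ^ 2 - 1) := by
  unfold k2
  rw [mul_inv_rev, map_mul, map_mul, map_mul, map_mul, map_mul, Equiv.Perm.mul_apply,
    Equiv.Perm.mul_apply, Equiv.Perm.mul_apply, Equiv.Perm.mul_apply, Equiv.Perm.mul_apply,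
    aff_y', aff_x', aff_x', aff_y, aff_x, aff_x]
  field_simp
  ring

theorem perm_zpow {f : Equiv.Perm ℚ} {c : ℚ} (h : ∀ t, f t = t + c) (n : ℤ) (t : ℚ) :
    (f ^ n) t = t + n * c := by
  have hinv : ∀ t, f⁻¹ t = t - c := by
    intro t
    rw [Equiv.Perm.inv_eq_iff_eq, h]
    ring
  induction n using Int.induction_on generalizing t with
  | zero => simp
  | succ n ih =>
    rw [zpow_add_one, Equiv.Perm.mul_apply, h, ih]
    push_cast
    ring
  | pred n ih =>
    rw [zpow_sub_one, Equiv.Perm.mul_apply, hinv, ih]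
    push_cast
    ring

theorem no_common_power {i j : ℤ} (h : k1 ^ i = k2 ^ j) : i = 0 ∧ j = 0 := by
  have key : ∀ (l : ℚ) (hl : l ≠ 0), (i : ℚ) * (l - 1) = j * (l ^ 2 - 1) := by
    intro l hl
    have h1 := congrArg (fun g => aff l hl g 0) h
    simp only [map_zpow] at h1
    rw [perm_zpow (aff_k1 l hl), perm_zpow (aff_k2 l hl)] at h1
    linarith
  have h2 := key 2 (by norm_num)
  have h3 := key 3 (by norm_num)
  have hj : (j : ℚ) = 0 := by linarith
  have hi : (i : ℚ) = 0 := by rw [hj] at h2; linarith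
  exact ⟨by exact_mod_cast hi, by exact_mod_cast hj⟩

/-- the product of two free groups of rank two does not split over a two-ended subgroup -/
theorem not_splits_FF : ¬ SplitsOverTwoEnded (FF × FF) := by
  rintro ⟨V, T, act, hT, hadj, hinv, hfix, -, hst⟩
  -- a hyperbolic element in one factor is impossible
  have hell : ∀ (g : FF × FF) (φ : FF →* FF × FF), Function.Injective φ → (∀ b, φ b * g = g * φ b) →
      ∃ v : V, g • v = v := by
    intro g φ hφ hg
    by_contra hc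
    obtain ⟨u, v, huv, hcomm⟩ := hyp_comm hT hadj hinv g hc
    have m1 : φ k1 ∈ MulAction.stabilizer (FF × FF) u ⊓ MulAction.stabilizer (FF × FF) v := by
      have := hcomm (φ (FreeGroup.of 0)) (φ (FreeGroup.of 1)) (hg _) (hg _)
      rw [← map_inv, ← map_inv, ← map_mul, ← map_mul, ← map_mul] at this
      exact ⟨this.1, this.2⟩
    have m2 : φ k2 ∈ MulAction.stabilizer (FF × FF) u ⊓ MulAction.stabilizer (FF × FF) v := by
      have := hcomm (φ (FreeGroup.of 0 * FreeGroup.of 0)) (φ (FreeGroup.of 1)) (hg _) (hg _)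
      rw [← map_inv, ← map_inv, ← map_mul, ← map_mul, ← map_mul] at this
      exact ⟨this.1, this.2⟩
    obtain ⟨i, j, hij, he⟩ := common_power (hst u v huv) ⟨_, m1⟩ ⟨_, m2⟩
    have he' := congrArg Subtype.val he
    simp only [Subgroup.coe_zpow] at he'
    rw [← map_zpow, ← map_zpow] at he'
    obtain ⟨h1, h2⟩ := no_common_power (hφ he')
    rcases hij with h | h
    · exact h h1
    · exact h h2
  have hL : ∀ a : FF, ∃ v : V, ((a, 1) : FF × FF) • v = v := fun a =>
    hell (a, 1) (MonoidHom.inr FF FF) (fun x y h => congrArg Prod.snd h) (fun b => by simp)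
  have hR : ∀ b : FF, ∃ v : V, ((1, b) : FF × FF) • v = v := fun b =>
    hell (1, b) (MonoidHom.inl FF FF) (fun x y h => congrArg Prod.fst h) (fun a => by simp)
  -- fixed points of the factors
  have hclos : ∀ (φ : FF →* FF × FF) (x : V), φ (FreeGroup.of 0) • x = x → φ (FreeGroup.of 1) • x = x →
      ∀ a, φ a • x = x := by
    intro φ x h0 h1 a
    induction a using FreeGroup.induction_on with
    | C1 => simp
    | of i =>
      fin_cases i
      · exact h0
      · exact h1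
    | inv_of i hi =>
      rw [map_inv, inv_smul_eq_iff]
      exact hi.symm
    | mul a b ha hb => rw [map_mul, mul_smul, hb, ha]
  have hA : ∃ x : V, ∀ g ∈ Set.range (MonoidHom.inl FF FF), g • x = x := by
    obtain ⟨x, h0, h1⟩ := serre hT hadj (hL (FreeGroup.of 0)) (hL (FreeGroup.of 1)) (by
      have := hL (FreeGroup.of 0 * FreeGroup.of 1)
      simpa using this)
    refine ⟨x, ?_⟩
    rintro _ ⟨a, rfl⟩
    exact hclos _ x h0 h1 a
  have hB : ∃ x : V, ∀ g ∈ Set.range (MonoidHom.inr FF FF), g • x = x := by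
    obtain ⟨x, h0, h1⟩ := serre hT hadj (hR (FreeGroup.of 0)) (hR (FreeGroup.of 1)) (by
      have := hR (FreeGroup.of 0 * FreeGroup.of 1)
      simpa using this)
    refine ⟨x, ?_⟩
    rintro _ ⟨a, rfl⟩
    exact hclos _ x h0 h1 a
  obtain ⟨x, h1, h2⟩ := comm_fix hT hadj _ _ (by
    rintro _ ⟨a, rfl⟩ _ ⟨b, rfl⟩
    simp) hA hB
  apply hfix
  refine ⟨x, fun g => ?_⟩
  have e : g = MonoidHom.inl FF FF g.1 * MonoidHom.inr FF FF g.2 := by
    apply Prod.ext <;> simp
  rw [e, mul_smul, h2 _ ⟨_, rfl⟩, h1 _ ⟨_, rfl⟩]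

end Pool.Agent.H895R2.SB
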