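import Mathlib
import Pool.Agent.H895R2.SB.SplitDefs
import Pool.Agent.Helper376.CL.WordLem
import Pool.Agent.Helper376.CL.TreeLem

/-! The product of a free group of rank two and the integers splits over a two-ended subgroup. -/

set_option maxHeartbeats 4000000
set_option synthInstance.maxHeartbeats 400000

namespace Pool.Agent.H895R2.SB

open Pool.Agent.Helper376.CL

/-- a connected graph in which every edge joins a vertex to its parent is a tree -/
theorem isTree_of_parent {V : Type} (T : SimpleGraph V) (β : V → ℕ) (par : V → V)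
    (h : ∀ u v, T.Adj u v → (β v < β u ∧ v = par u) ∨ (β u < β v ∧ u = par v)) (hc : T.Connected) :
    T.IsTree := by
  classical
  refine ⟨hc, fun v c hcyc => ?_⟩
  obtain ⟨u, hu, hmax⟩ := c.support.toFinset.exists_max_image β
    ⟨v, List.mem_toFinset.2 c.start_mem_support⟩
  have hu' : u ∈ c.support := List.mem_toFinset.1 hu
  have hc' := hcyc.rotate hu'
  have hmax' : ∀ w ∈ (c.rotate u hu').support, β w ≤ β u := fun w hw =>
    hmax w (List.mem_toFinset.2 ((SimpleGraph.Walk.mem_support_rotate_iff c u hu').1 hw))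
  have hnil := hc'.not_nil
  have a1 := (c.rotate u hu').adj_snd hnil
  have a2 := (c.rotate u hu').adj_penultimate hnil
  have b1 := hmax' _ ((c.rotate u hu').getVert_mem_support 1)
  have b2 := hmax' _ ((c.rotate u hu').getVert_mem_support ((c.rotate u hu').length - 1))
  have e1 : (c.rotate u hu').snd = par u := by
    rcases h _ _ a1 with h1 | h1
    · exact h1.2
    · exact absurd h1.1 (not_lt.2 b1)
  have e2 : (c.rotate u hu').penultimate = par u := by
    rcases h _ _ a2 with h1 | h1
    · exact absurd h1.1 (not_lt.2 b2)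
    · exact h1.2
  exact hc'.snd_ne_penultimate (e1.trans e2.symm)

/-- the cyclic subgroup generated by the first generator -/
abbrev HA : Subgroup F2 := Subgroup.zpowers (lt (0, true))

/-- cosets -/
abbrev QV : Type := F2 ⧸ HA

theorem word_cases (v : F2) (x : A) : (∃ m, v.toWord = invA x :: m ∧ (lt x * v).toWord = m) ∨
    (lt x * v).toWord = x :: v.toWord := by
  rw [toWord_lt_mul, FreeGroup.reduce.cons, FreeGroup.reduce_toWord]
  rcases hv : v.toWord with _ | ⟨y, m⟩
  · right; rfl
  · by_cases hxy : x.1 = y.1 ∧ x.2 = !y.2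
    · left
      refine ⟨m, ?_, ?_⟩
      · have : y = invA x := by
          unfold invA
          apply Prod.ext
          · exact hxy.1.symm
          · simp only; rw [hxy.2]; simp
        rw [this]
      · simp only; rw [if_pos hxy]
    · right
      simp only; rw [if_neg hxy]

/-- strip the leading powers of the first generator -/
def st (v : F2) : List A := v.toWord.dropWhile (fun x => decide (x.1 = 0))

theorem st_lt_mul (v : F2) {x : A} (hx : x.1 = 0) : st (lt x * v) = st v := by
  unfold st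
  rcases word_cases v x with ⟨m, h1, h2⟩ | h1
  · rw [h1, h2, List.dropWhile_cons_of_pos]
    simp [invA, hx]
  · rw [h1, List.dropWhile_cons_of_pos]
    simp [hx]

theorem st_mul {c : F2} (hc : c ∈ HA) (v : F2) : st (c * v) = st v := by
  obtain ⟨k, rfl⟩ := Subgroup.mem_zpowers_iff.1 hc
  induction k using Int.induction_on with
  | zero => simp
  | succ n ih =>
    rw [add_comm, zpow_add, zpow_one, mul_assoc, st_lt_mul _ rfl]
    exact ih (Subgroup.mem_zpowers_iff.2 ⟨_, rfl⟩)
  | pred n ih =>
    have e : (-(n:ℤ) - 1) = -1 + -(n:ℤ) := by ring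
    have e2 : (lt (0, true))⁻¹ = lt (0, false) := lt_inv (0, true)
    rw [e, zpow_add, zpow_neg_one, mul_assoc, e2, st_lt_mul _ rfl]
    exact ih (Subgroup.mem_zpowers_iff.2 ⟨_, rfl⟩)

/-- normal form of a coset -/
def NF (X : QV) : List A := Quotient.liftOn' X (fun w => st w⁻¹) (by
  intro w w' h
  rw [QuotientGroup.leftRel_apply] at h
  have e : w'⁻¹ = (w⁻¹ * w')⁻¹ * w⁻¹ := by group
  rw [e, st_mul (inv_mem h)])

theorem NF_mk (w : F2) : NF (w : QV) = st w⁻¹ := rfl

/-- parent of a coset -/
def pq (X : QV) : QV := match NF X with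
  | [] => X
  | _ :: m => (((FreeGroup.mk m : F2)⁻¹ : F2) : QV)

theorem pq_cons {X : QV} {x : A} {m : List A} (h : NF X = x :: m) :
    pq X = (((FreeGroup.mk m : F2)⁻¹ : F2) : QV) := by
  unfold pq; rw [h]

/-- the relation defining the tree -/
def rel (X Y : QV) : Prop := ∃ w : F2, X = (w : QV) ∧ Y = ((w * lt (1, true) : F2) : QV)

/-- the tree -/
def TQ : SimpleGraph QV := SimpleGraph.fromRel rel

theorem rel_parent {X Y : QV} (h : rel X Y) :
    ((NF Y).length < (NF X).length ∧ Y = pq X) ∨ ((NF X).length < (NF Y).length ∧ X = pq Y) := by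
  obtain ⟨w, rfl, rfl⟩ := h
  have e1 : (w * lt (1, true))⁻¹ = lt (1, false) * w⁻¹ := by
    rw [mul_inv_rev, lt_inv]; rfl
  have hdrop : ∀ l : List A, (l.dropWhile (fun x => decide (x.1 = 0))).length ≤ l.length := fun l =>
    (List.dropWhile_sublist _).length_le
  rcases word_cases w⁻¹ (1, false) with ⟨m, h1, h2⟩ | h1
  · left
    have h3 : NF (w : QV) = (1, true) :: m := by
      rw [NF_mk, st, h1]
      rfl
    have h4 : NF ((w * lt (1, true) : F2) : QV) = m.dropWhile (fun x => decide (x.1 = 0)) := by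
      rw [NF_mk, e1, st, h2]
    refine ⟨?_, ?_⟩
    · rw [h3, h4, List.length_cons]
      exact Nat.lt_succ_of_le (hdrop m)
    · rw [pq_cons h3]
      congr 1
      rw [← h2, FreeGroup.mk_toWord, ← e1, inv_inv]
  · right
    have h3 : NF ((w * lt (1, true) : F2) : QV) = (1, false) :: w⁻¹.toWord := by
      rw [NF_mk, e1, st, h1]
      rfl
    have h4 : NF (w : QV) = w⁻¹.toWord.dropWhile (fun x => decide (x.1 = 0)) := rfl
    refine ⟨?_, ?_⟩
    · rw [h3, h4, List.length_cons]
      exact Nat.lt_succ_of_le (hdrop w⁻¹.toWord)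
    · rw [pq_cons h3, FreeGroup.mk_toWord, inv_inv]

theorem rel_ne {X Y : QV} (h : rel X Y) : X ≠ Y := by
  intro he
  subst he
  rcases rel_parent h with h1 | h1 <;> exact absurd h1.1 (lt_irrefl _)

theorem adj_iff {X Y : QV} : TQ.Adj X Y ↔ rel X Y ∨ rel Y X := by
  unfold TQ
  rw [SimpleGraph.fromRel_adj]
  constructor
  · exact fun h => h.2
  · rintro (h | h)
    · exact ⟨rel_ne h, Or.inl h⟩
    · exact ⟨(rel_ne h).symm, Or.inr h⟩

theorem mk_coset {w c : F2} (hc : c ∈ HA) : ((w * c : F2) : QV) = (w : QV) :=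
  (QuotientGroup.eq.2 (by simpa using hc)).symm

theorem TQ_conn : TQ.Connected := by
  have key : ∀ L : List A, TQ.Reachable ((1 : F2) : QV) (((FreeGroup.mk L : F2)⁻¹ : F2) : QV) := by
    intro L
    induction L with
    | nil =>
      have : (FreeGroup.mk ([] : List A) : F2)⁻¹ = 1 := inv_one
      rw [this]
    | cons x L ih =>
      have e : (FreeGroup.mk (x :: L) : F2)⁻¹ = (FreeGroup.mk L)⁻¹ * lt (invA x) := by
        have : (FreeGroup.mk (x :: L) : F2) = lt x * FreeGroup.mk L := rfl
        rw [this, mul_inv_rev, lt_inv]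
        rfl
      rw [e]
      refine ih.trans ?_
      obtain ⟨i, b⟩ := x
      fin_cases i
      · have : lt (invA (0, b)) ∈ HA := by
          cases b
          · exact Subgroup.mem_zpowers _
          · have : lt (invA (0, true)) = (lt (0, true))⁻¹ := (lt_inv (0, true)).symm
            rw [this]
            exact inv_mem (Subgroup.mem_zpowers _)
        show TQ.Reachable _ (((FreeGroup.mk L)⁻¹ * lt (invA (0, b)) : F2) : QV)
        rw [mk_coset this]
      · apply SimpleGraph.Adj.reachable
        rw [adj_iff]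
        cases b
        · left
          exact ⟨_, rfl, rfl⟩
        · right
          refine ⟨(FreeGroup.mk L)⁻¹ * lt (1, false), rfl, ?_⟩
          have : lt (1, false) * lt (1, true) = 1 := by
            have : lt (1, false) = (lt (1, true))⁻¹ := (lt_inv (1, true)).symm
            rw [this, inv_mul_cancel]
          rw [mul_assoc, this, mul_one]
  have : Nonempty QV := ⟨((1 : F2) : QV)⟩
  refine ⟨fun X Y => ?_⟩
  have h1 : ∀ X : QV, TQ.Reachable ((1 : F2) : QV) X := by
    intro X
    induction X using QuotientGroup.induction_on with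
    | H w =>
      have := key w⁻¹.toWord
      rwa [FreeGroup.mk_toWord, inv_inv] at this
  exact (h1 X).symm.trans (h1 Y)

theorem TQ_tree : TQ.IsTree := by
  refine isTree_of_parent TQ (fun X => (NF X).length) pq ?_ TQ_conn
  intro X Y h
  rcases adj_iff.1 h with h1 | h1
  · exact rel_parent h1
  · exact (rel_parent h1).symm

/-- the group -/
abbrev FZ := F2 × Multiplicative ℤ

/-- it acts through the first factor -/
@[reducible] def actQ : MulAction FZ QV := MulAction.compHom QV (MonoidHom.fst F2 (Multiplicative ℤ))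

/-- exponent sum of the second generator -/
noncomputable def χ : F2 →* Multiplicative ℤ := FreeGroup.lift ![1, Multiplicative.ofAdd 1]
/-- exponent sum of the first generator -/
noncomputable def χ' : F2 →* Multiplicative ℤ := FreeGroup.lift ![Multiplicative.ofAdd 1, 1]

theorem lt_of (i : Fin 2) : lt (i, true) = FreeGroup.of i := rfl

theorem χ_HA {c : F2} (hc : c ∈ HA) : χ c = 1 := by
  obtain ⟨k, rfl⟩ := Subgroup.mem_zpowers_iff.1 hc
  rw [map_zpow, lt_of]
  simp [χ]

theorem χ_b : χ (lt (1, true)) = Multiplicative.ofAdd 1 := by rw [lt_of]; simp [χ]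

/-- affine representation -/
noncomputable def aff2 : F2 →* Equiv.Perm ℚ :=
  FreeGroup.lift ![Equiv.addRight (1:ℚ), Equiv.mulLeft₀ 2 (by norm_num)]

theorem aff2_a (k : ℤ) (t : ℚ) : aff2 (lt (0, true) ^ k) t = t + k := by
  have h1 : ∀ t, aff2 (lt (0, true)) t = t + 1 := fun t => by rw [lt_of]; simp [aff2]
  have hinv : ∀ t, (aff2 (lt (0, true)))⁻¹ t = t - 1 := by
    intro t
    rw [Equiv.Perm.inv_eq_iff_eq, h1]
    ring
  rw [map_zpow]
  induction k using Int.induction_on generalizing t with
  | zero => simp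
  | succ n ih =>
    rw [zpow_add_one, Equiv.Perm.mul_apply, h1, ih]
    push_cast
    ring
  | pred n ih =>
    rw [zpow_sub_one, Equiv.Perm.mul_apply, hinv, ih]
    push_cast
    ring

theorem aff2_b (t : ℚ) : aff2 (lt (1, true)) t = 2 * t := by rw [lt_of]; simp [aff2]

/-- the first cyclic group meets its conjugate trivially -/
theorem conj_trivial {c : F2} (h1 : c ∈ HA) (h2 : (lt (1, true))⁻¹ * c * lt (1, true) ∈ HA) : c = 1 := by
  obtain ⟨k, hk⟩ := Subgroup.mem_zpowers_iff.1 h1
  obtain ⟨l, hl⟩ := Subgroup.mem_zpowers_iff.1 h2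
  have e : c * lt (1, true) = lt (1, true) * lt (0, true) ^ l := by rw [hl]; group
  have e1 := congrArg (fun g => aff2 g 0) e
  simp only [map_mul, Equiv.Perm.mul_apply] at e1
  rw [← hk, aff2_b, aff2_a, aff2_a, aff2_b] at e1
  have e2 := congrArg χ' e
  rw [map_mul, map_mul, ← hk, map_zpow, map_zpow, mul_comm] at e2
  have e3 := mul_left_cancel e2
  have e4 : χ' (lt (0, true)) = Multiplicative.ofAdd 1 := by rw [lt_of]; simp [χ']
  rw [e4, ← ofAdd_zsmul, ← ofAdd_zsmul] at e3
  have e5 : k = l := by simpa using e3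
  have e6 : (k : ℚ) = 2 * l := by linarith
  rw [e5] at e6
  have e7 : (l : ℚ) = 0 := by linarith
  have e8 : l = 0 := by exact_mod_cast e7
  rw [← hk, e5, e8, zpow_zero]

theorem smul_coset (g : FZ) (w : F2) :
    (letI := actQ; g • ((w : F2) : QV)) = ((g.1 * w : F2) : QV) := rfl

/-- a subgroup consisting of the second factor is two-ended -/
theorem twoEnded_of (K : Subgroup FZ) (h1 : ∀ g ∈ K, g.1 = 1)
    (h2 : ∀ n : Multiplicative ℤ, ((1, n) : FZ) ∈ K) : IsTwoEnded K := by
  refine ⟨⟨(1, Multiplicative.ofAdd 1), h2 _⟩, ?_, ?_⟩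
  · rw [← Subgroup.orderOf_coe]
    simp only
    rw [orderOf_eq_zero_iff']
    intro n hn h
    have h3 := congrArg Prod.snd h
    simp only [Prod.pow_mk, Prod.snd_one] at h3
    rw [← ofAdd_nsmul] at h3
    have h4 : n • (1 : ℤ) = 0 := h3
    simp at h4
    omega
  · have : Subgroup.zpowers (⟨(1, Multiplicative.ofAdd 1), h2 _⟩ : K) = ⊤ := by
      rw [eq_top_iff]
      rintro ⟨⟨g, n⟩, hg⟩ -
      have h3 : g = 1 := h1 _ hg
      subst h3
      rw [Subgroup.mem_zpowers_iff]
      refine ⟨Multiplicative.toAdd n, ?_⟩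
      apply Subtype.ext
      simp only [Subgroup.coe_zpow, Prod.pow_mk, one_zpow]
      rw [← ofAdd_zsmul]
      simp
    rw [this]
    infer_instance

theorem splits_FZ : SplitsOverTwoEnded FZ := by
  refine ⟨QV, TQ, actQ, TQ_tree, ?_, ?_, ?_, ?_, ?_⟩
  · intro g X Y h
    rw [adj_iff] at h ⊢
    rcases h with ⟨w, rfl, rfl⟩ | ⟨w, rfl, rfl⟩
    · left; exact ⟨g.1 * w, rfl, by rw [mul_assoc]; rfl⟩
    · right; exact ⟨g.1 * w, rfl, by rw [mul_assoc]; rfl⟩
  · have key : ∀ (g : FZ) (w : F2), ((g.1 * w : F2) : QV) = ((w * lt (1, true) : F2) : QV) →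
        ((g.1 * (w * lt (1, true)) : F2) : QV) = ((w : F2) : QV) → False := by
      intro g w h1 h2
      have h3 := χ_HA (QuotientGroup.eq.1 h1)
      have h4 := χ_HA (QuotientGroup.eq.1 h2)
      simp only [map_mul, map_inv, χ_b] at h3 h4
      generalize χ g.1 = s at h3 h4
      generalize χ w = r at h3 h4
      have h5 := congrArg Multiplicative.toAdd h3
      have h6 := congrArg Multiplicative.toAdd h4
      simp only [toAdd_mul, toAdd_inv, toAdd_ofAdd, toAdd_one] at h5 h6
      omega
    rintro g X Y h ⟨h1, h2⟩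
    rcases adj_iff.1 h with ⟨w, rfl, rfl⟩ | ⟨w, rfl, rfl⟩
    · exact key g w h1 h2
    · exact key g w h2 h1
  · rintro ⟨X, hX⟩
    induction X using QuotientGroup.induction_on with
    | H w =>
      have h1 := hX (w * lt (1, true) * w⁻¹, 1)
      rw [smul_coset] at h1
      have h2 := χ_HA (QuotientGroup.eq.1 h1)
      simp only [map_mul, map_inv, χ_b] at h2
      generalize χ w = r at h2
      have h5 := congrArg Multiplicative.toAdd h2
      simp only [toAdd_mul, toAdd_inv, toAdd_ofAdd, toAdd_one] at h5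
      omega
  · have key : ∀ w w' : F2, ∃ g : FZ, ((g.1 * w : F2) : QV) = (w' : QV) ∧
        ((g.1 * (w * lt (1, true)) : F2) : QV) = ((w' * lt (1, true) : F2) : QV) := by
      intro w w'
      refine ⟨(w' * w⁻¹, 1), ?_, ?_⟩
      · simp
      · congr 1
        simp only
        group
    intro X Y X' Y' h h'
    rcases adj_iff.1 h with ⟨w, rfl, rfl⟩ | ⟨w, rfl, rfl⟩ <;>
      rcases adj_iff.1 h' with ⟨w', rfl, rfl⟩ | ⟨w', rfl, rfl⟩ <;>
      obtain ⟨g, h1, h2⟩ := key w w'
    · exact ⟨g, Or.inl ⟨h1, h2⟩⟩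
    · exact ⟨g, Or.inr ⟨h1, h2⟩⟩
    · exact ⟨g, Or.inr ⟨h2, h1⟩⟩
    · exact ⟨g, Or.inl ⟨h2, h1⟩⟩
  · have key : ∀ (g : FZ) (w : F2), ((g.1 * w : F2) : QV) = (w : QV) →
        ((g.1 * (w * lt (1, true)) : F2) : QV) = ((w * lt (1, true) : F2) : QV) → g.1 = 1 := by
      intro g w h1 h2
      have h3 := QuotientGroup.eq.1 h1
      have h4 := QuotientGroup.eq.1 h2
      have h5 : w⁻¹ * g.1⁻¹ * w = 1 := by
        apply conj_trivial
        · have e : w⁻¹ * g.1⁻¹ * w = (g.1 * w)⁻¹ * w := by group
          rw [e]; exact h3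
        · have e : (lt (1, true))⁻¹ * (w⁻¹ * g.1⁻¹ * w) * lt (1, true) =
            (g.1 * (w * lt (1, true)))⁻¹ * (w * lt (1, true)) := by group
          rw [e]; exact h4
      have h6 : g.1⁻¹ = 1 := by
        have e : g.1⁻¹ = w * (w⁻¹ * g.1⁻¹ * w) * w⁻¹ := by group
        rw [e, h5]; group
      exact inv_eq_one.1 h6
    intro X Y h
    apply twoEnded_of
    · rintro g ⟨h1, h2⟩
      rcases adj_iff.1 h with ⟨w, rfl, rfl⟩ | ⟨w, rfl, rfl⟩
      · exact key g w h1 h2
      · exact key g w h2 h1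
    · intro n
      constructor
      · show (1 : F2) • X = X
        exact one_smul _ _
      · show (1 : F2) • Y = Y
        exact one_smul _ _

end Pool.Agent.H895R2.SB
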